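import Mathlib

/-!
# MP_78a5c6_al, chapter (A): basic facts on irreducible complex characters
-/

namespace MP78a5

open Representation Module

section

variable {H : Type*} [Group H] {W : Type*} [AddCommGroup W] [Module ℂ W]
  [FiniteDimensional ℂ W] (σ : Representation ℂ H W)

/-- Schur's lemma. -/
theorem schur [hσ : IsIrreducible σ] (T : W →ₗ[ℂ] W) (hT : ∀ h v, T (σ h v) = σ h (T v)) :
    ∃ c : ℂ, T = c • LinearMap.id := by
  let f : IntertwiningMap σ σ := T.intertwiningMap_of_isIntertwiningMap σ σ hT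
  obtain ⟨c, hc⟩ := (IsIrreducible.algebraMap_intertwiningMap_bijective_of_isAlgClosed
    (k := ℂ) (ρ := σ)).2 f
  refine ⟨c, ?_⟩
  have h1 : (algebraMap ℂ (IntertwiningMap σ σ) c).toLinearMap = T := by
    rw [hc]
    rfl
  rw [← h1]
  rfl

theorem finrank_pos_of_irr [hσ : IsIrreducible σ] : 0 < finrank ℂ W := by
  rw [Module.finrank_pos_iff]
  by_contra h
  rw [not_nontrivial_iff_subsingleton] at h
  obtain ⟨a, b, hab⟩ := (inferInstance : Nontrivial (Subrepresentation σ))
  apply hab
  apply Subrepresentation.toSubmodule_injective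
  exact Subsingleton.elim _ _

/-- roots of unity are integral -/
theorem isIntegral_of_pow {μ : ℂ} {N : ℕ} (hN : 0 < N) (h : μ ^ N = 1) : IsIntegral ℤ μ := by
  refine ⟨Polynomial.X ^ N - 1, Polynomial.monic_X_pow_sub_C (1 : ℤ) hN.ne', ?_⟩
  simp [h]

/-- character values are algebraic integers -/
theorem isIntegral_character [Finite H] (h : H) : IsIntegral ℤ (σ.character h) := by
  unfold character
  rw [Module.End.trace_eq_sum_roots_charpoly_of_splits (IsAlgClosed.splits _)]
  apply IsIntegral.multiset_sum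
  intro μ hμ
  have h1 : Module.End.HasEigenvalue (σ h) μ := by
    rw [Module.End.hasEigenvalue_iff_isRoot_charpoly]
    exact (Polynomial.mem_roots'.1 hμ).2
  obtain ⟨v, hv⟩ := h1.exists_hasEigenvector
  have h2 := hv.pow_apply (Nat.card H)
  rw [← map_pow, pow_card_eq_one', map_one] at h2
  have h3 : μ ^ Nat.card H = 1 := by
    have h4 : (1 : ℂ) • v = μ ^ Nat.card H • v := by rw [one_smul]; exact h2
    exact (smul_left_injective ℂ hv.2 h4).symm
  exact isIntegral_of_pow Nat.card_pos h3

/-- `Σ χ(h⁻¹) h` acts as the scalar `|H| / χ(1)`. -/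
theorem sum_char_smul [Fintype H] [hσ : IsIrreducible σ] :
    ∑ h : H, σ.character h⁻¹ • σ h = ((Nat.card H : ℂ) / finrank ℂ W) • LinearMap.id := by
  classical
  have hn : (finrank ℂ W : ℂ) ≠ 0 := by
    exact_mod_cast (finrank_pos_of_irr σ).ne'
  have hcard : (Nat.card H : ℂ) ≠ 0 := by
    exact_mod_cast Nat.card_pos.ne'
  have hinv : Invertible (Nat.card H : ℂ) := invertibleOfNonzero hcard
  obtain ⟨c, hc⟩ := schur σ (∑ h : H, σ.character h⁻¹ • σ h) (by
    intro k v
    simp only [LinearMap.sum_apply, LinearMap.smul_apply, map_sum, map_smul]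
    refine Fintype.sum_equiv (MulAut.conj k⁻¹).toEquiv _ _ ?_
    intro h
    have h1 : (MulAut.conj k⁻¹).toEquiv h = k⁻¹ * h * k := by
      simp
    rw [h1]
    have h2 : σ.character (k⁻¹ * h * k)⁻¹ = σ.character h⁻¹ := by
      have : (k⁻¹ * h * k)⁻¹ = k⁻¹ * h⁻¹ * (k⁻¹)⁻¹ := by group
      rw [this, char_conj]
    rw [h2]
    congr 1
    have h3 : ∀ a b : H, σ a (σ b v) = σ (a * b) v := fun a b => by rw [map_mul]; rfl
    rw [h3, h3]
    congr 2
    group)
  have htr := congrArg (LinearMap.trace ℂ W) hc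
  rw [map_sum, map_smul, LinearMap.trace_id] at htr
  simp only [map_smul, smul_eq_mul] at htr
  have h1 : (Nat.card H : ℂ)⁻¹ * ∑ g : H, σ.character g * σ.character g⁻¹ =
      finrank ℂ (IntertwiningMap σ σ) := card_inv_mul_sum_char_mul_char_eq_finrank σ σ
  rw [IsIrreducible.finrank_intertwiningMap_self σ, Nat.cast_one] at h1
  have h2 : ∑ g : H, σ.character g * σ.character g⁻¹ = Nat.card H := by
    field_simp at h1
    exact h1
  have h3 : ∑ x : H, σ.character x⁻¹ * (LinearMap.trace ℂ W) (σ x) = Nat.card H := by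
    rw [← h2]
    apply Finset.sum_congr rfl
    intro x _
    rw [mul_comm]
    rfl
  rw [h3] at htr
  rw [hc, htr, mul_div_cancel_right₀ _ hn]

theorem sum_char_mul_char [Fintype H] [hσ : IsIrreducible σ] (g : H) :
    ∑ h : H, σ.character h⁻¹ * σ.character (h * g) =
      (Nat.card H : ℂ) / finrank ℂ W * σ.character g := by
  have h1 := congrArg (fun T => LinearMap.trace ℂ W (T * σ g)) (sum_char_smul σ)
  simp only [Finset.sum_mul, map_sum, smul_mul_assoc, map_smul, smul_eq_mul] at h1
  calc ∑ h : H, σ.character h⁻¹ * σ.character (h * g)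
      = ∑ x : H, σ.character x⁻¹ * (LinearMap.trace ℂ W) (σ x * σ g) := by
        apply Finset.sum_congr rfl
        intro x _
        unfold character
        rw [map_mul]
    _ = _ := h1
    _ = _ := by
        congr 1

/-- the central idempotent -/
noncomputable def idem (σ : Representation ℂ H W) (g : H) : ℂ :=
  (finrank ℂ W : ℂ) / Nat.card H * σ.character g⁻¹

theorem idem_conv [Fintype H] [hσ : IsIrreducible σ] (g : H) :
    ∑ h : H, idem σ h * idem σ (h⁻¹ * g) = idem σ g := by
  have hn : (finrank ℂ W : ℂ) ≠ 0 := by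
    exact_mod_cast (finrank_pos_of_irr σ).ne'
  have hcard : (Nat.card H : ℂ) ≠ 0 := by
    exact_mod_cast Nat.card_pos.ne'
  have h1 := sum_char_mul_char σ g⁻¹
  have h2 : ∑ h : H, idem σ h * idem σ (h⁻¹ * g) = ((finrank ℂ W : ℂ) / Nat.card H) ^ 2 *
      ∑ h : H, σ.character h⁻¹ * σ.character (h * g⁻¹) := by
    rw [Finset.mul_sum]
    apply Finset.sum_congr rfl
    intro h _
    unfold idem
    have h3 : σ.character (h⁻¹ * g)⁻¹ = σ.character (h * g⁻¹) := by
      rw [mul_inv_rev, inv_inv, char_mul_comm]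
    rw [h3]
    ring
  rw [h2, h1]
  unfold idem
  field_simp

omit [FiniteDimensional ℂ W] in
theorem idem_conj (σ : Representation ℂ H W) (g h : H) : idem σ (h * g * h⁻¹) = idem σ g := by
  unfold idem
  have : (h * g * h⁻¹)⁻¹ = h * g⁻¹ * h⁻¹ := by group
  rw [this, char_conj]

/-- `|H| / χ(1)` is an algebraic integer. -/
theorem isIntegral_card_div [Finite H] [hσ : IsIrreducible σ] :
    IsIntegral ℤ ((Nat.card H : ℂ) / finrank ℂ W) := by
  classical
  have := Fintype.ofFinite H
  set c : ℂ := (Nat.card H : ℂ) / finrank ℂ W with hc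
  let R := integralClosure ℤ ℂ
  let M' : Matrix H H R := fun g k => ⟨σ.character (g * k⁻¹), isIntegral_character σ _⟩
  let M : Matrix H H ℂ := fun g k => σ.character (g * k⁻¹)
  have hM : M'.map (algebraMap R ℂ) = M := rfl
  have hv : M.mulVec (fun g => σ.character g) = c • (fun g => σ.character g) := by
    ext g
    rw [Pi.smul_apply, smul_eq_mul, hc, ← sum_char_mul_char σ g]
    unfold Matrix.mulVec dotProduct
    refine Fintype.sum_equiv (Equiv.mulRight g⁻¹) _ _ ?_
    intro k
    simp only [M, Equiv.coe_mulRight]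
    congr 2
    · group
    · group
  have hroot : M.charpoly.IsRoot c := by
    rw [Polynomial.IsRoot.def, Matrix.eval_charpoly]
    rw [← Matrix.exists_mulVec_eq_zero_iff]
    refine ⟨fun g => σ.character g, ?_, ?_⟩
    · intro h
      have h1 := congrFun h 1
      simp only [char_one, Pi.zero_apply, Nat.cast_eq_zero] at h1
      exact (finrank_pos_of_irr σ).ne' h1
    · rw [Matrix.sub_mulVec, hv]
      ext g
      simp [Matrix.scalar_apply]
  have hint : IsIntegral R c := by
    refine ⟨M'.charpoly, Matrix.charpoly_monic M', ?_⟩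
    rw [← hM, Matrix.charpoly_map] at hroot
    rw [← Polynomial.eval_map]
    exact hroot
  exact isIntegral_trans (R := ℤ) (A := R) c hint

/-- the degree of an irreducible complex character divides the order of the group. -/
theorem finrank_dvd_card [Finite H] [hσ : IsIrreducible σ] : finrank ℂ W ∣ Nat.card H := by
  have h1 := isIntegral_card_div σ
  have hn : (finrank ℂ W : ℚ) ≠ 0 := by
    exact_mod_cast (finrank_pos_of_irr σ).ne'
  have h2 : IsIntegral ℤ ((Nat.card H : ℚ) / finrank ℂ W) := by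
    have h3 : ((Nat.card H : ℂ) / finrank ℂ W) =
        algebraMap ℚ ℂ ((Nat.card H : ℚ) / finrank ℂ W) := by simp
    rw [h3] at h1
    exact (isIntegral_algebraMap_iff (algebraMap ℚ ℂ).injective).1 h1
  obtain ⟨z, hz⟩ := IsIntegrallyClosed.isIntegral_iff.1 h2
  have h4 : (Nat.card H : ℚ) = z * finrank ℂ W := by
    have h7 : ((z : ℤ) : ℚ) = (Nat.card H : ℚ) / finrank ℂ W := by
      rw [← hz]
      simp
    rw [h7, div_mul_cancel₀ _ hn]
  have h5 : (Nat.card H : ℤ) = z * finrank ℂ W := by exact_mod_cast h4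
  have h6 : (finrank ℂ W : ℤ) ∣ (Nat.card H : ℤ) := ⟨z, by rw [h5]; ring⟩
  exact_mod_cast h6

end

end MP78a5
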