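import Mathlib

/-!
# MP_78a5c6_al: codegrees (definitions)

`codeg ρ = |G : ker χ| / χ(1)` for the character `χ` of `ρ`, `Cod G` the set of the codegrees of the irreducible
complex characters of `G`, `sig G = σ(G)` the largest number of prime divisors of a codegree.
-/

namespace MP78a5

/-- The codegree `|G : ker χ| / χ(1)` of the character `χ` afforded by the representation `ρ`. -/
noncomputable def codeg {G V : Type} [Group G] [AddCommGroup V] [Module ℂ V]
    (ρ : Representation ℂ G V) : ℕ :=
  ρ.ker.index / Module.finrank ℂ V

/-- The set of the codegrees of the irreducible complex characters of `G`. -/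
def Cod (G : Type) [Group G] : Set ℕ :=
  {m | ∃ (n : ℕ) (ρ : Representation ℂ G (Fin n → ℂ)), ρ.IsIrreducible ∧ m = codeg ρ}

/-- `σ(G)`: the largest number of prime divisors of a codegree. -/
noncomputable def sig (G : Type) [Group G] : ℕ := sSup {k | ∃ m ∈ Cod G, k = m.primeFactors.card}

end MP78a5
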