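import Pool.Agent.Lib_MP_78a5c6.SBasic

/-!
# MP_78a5c6_al, chapter (D): states

A state of an S-system: subgroups `X i ≤ P i` which commute pairwise.
-/

namespace MP78a5

namespace SSys

variable {G : Type*} [Group G] {ι : Type*} [LinearOrder ι] (S : SSys G ι)

/-- rank of a subgroup `X` of `P i` (exponent of `p i` in its order); `S.rk i (S.P i) = S.r i`
by definition. -/
noncomputable def rk (i : ι) (X : Subgroup G) : ℕ := (Nat.card X).factorization (S.p i)

/-- families of pairwise commuting subgroups `X i ≤ P i` -/
structure State where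
  X : ι → Subgroup G
  le : ∀ i, X i ≤ S.P i
  comm : ∀ i j, i ≠ j → ∀ x ∈ X i, ∀ y ∈ X j, x * y = y * x

end SSys

/-- every element order has at most `f` prime divisors -/
def ElemBound (G : Type*) [Group G] (f : ℕ) : Prop :=
  ∀ g : G, (orderOf g).primeFactors.card ≤ f

end MP78a5
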