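import Pool.Agent.Lib_MP_78a5c6.AMain
import Pool.Agent.Lib_MP_78a5c6.MDefs

/-!
# MP_78a5c6_al, chapter (A): element orders have at most `σ(G)` prime divisors
-/

namespace MP78a5

/-- The prime divisors of the order of an element divide one codegree. -/
theorem exists_cod_of_elem {G : Type} [Group G] [Finite G] (g : G) :
    ∃ m ∈ Cod G, ∀ q, q.Prime → q ∣ orderOf g → q ∣ m := by
  obtain ⟨m, hm, h⟩ := exists_cod (G := G) (orderOf g).primeFactors id
    (fun i hi => Nat.prime_of_mem_primeFactors hi) Function.injective_id.injOn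
    (fun q => g ^ (orderOf g / q))
    (fun i hi => orderOf_pow_orderOf_div (orderOf_pos g).ne' (Nat.dvd_of_mem_primeFactors hi))
    (fun i _ j _ => by rw [← pow_add, ← pow_add, add_comm])
  exact ⟨m, hm, fun q hq hd => h q (Nat.mem_primeFactors.2 ⟨hq, hd, (orderOf_pos g).ne'⟩)⟩

/-- Element orders have at most `σ(G)` prime divisors. -/
theorem elemBound_sig (G : Type) [Group G] [Finite G] : ElemBound G (sig G) := by
  intro g
  exact card_le_sig_of_comm (G := G) (orderOf g).primeFactors id
    (fun i hi => Nat.prime_of_mem_primeFactors hi) Function.injective_id.injOn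
    (fun q => g ^ (orderOf g / q))
    (fun i hi => orderOf_pow_orderOf_div (orderOf_pos g).ne' (Nat.dvd_of_mem_primeFactors hi))
    (fun i _ j _ => by rw [← pow_add, ← pow_add, add_comm])

end MP78a5
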