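import Mathlib
import Pool.Agent.Lib_MP_78a5c6.AChar

/-!
# MP_78a5c6_al, chapter (A): a nonzero element of the group algebra is nonzero on an irreducible representation

`exists_char`: for commuting elements `x i` of different prime orders there is an irreducible representation `ρ` with
`χ (∏ x i) ≠ 0` and `ρ (x i) ≠ 1` for all `i`.
-/

namespace MP78a5

open Representation Module

section

variable {G : Type} [Group G] [Finite G]

/-- A nonzero element of `ℂ[G]` is nonzero on some irreducible representation. -/
theorem exists_irr {a : MonoidAlgebra ℂ G} (ha : a ≠ 0) :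
    ∃ (n : ℕ) (ρ : Representation ℂ G (Fin n → ℂ)), ρ.IsIrreducible ∧ ρ.asAlgebraHom a ≠ 0 := by
  classical
  have hne : NeZero (Nat.card G : ℂ) := ⟨by exact_mod_cast Nat.card_pos.ne'⟩
  obtain ⟨S, hS, m, hm, ham⟩ : ∃ S : Submodule (MonoidAlgebra ℂ G) (MonoidAlgebra ℂ G),
      IsSimpleModule (MonoidAlgebra ℂ G) S ∧ ∃ m ∈ S, a * m ≠ 0 := by
    by_contra hcon
    push Not at hcon
    have h1 : (1 : MonoidAlgebra ℂ G) ∈ sSup {m : Submodule (MonoidAlgebra ℂ G) (MonoidAlgebra ℂ G) |
        IsSimpleModule (MonoidAlgebra ℂ G) m} := by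
      rw [IsSemisimpleModule.sSup_simples_eq_top]
      trivial
    rw [sSup_eq_iSup'] at h1
    have h2 : a * 1 = 0 := by
      refine Submodule.iSup_induction (fun m : {m : Submodule (MonoidAlgebra ℂ G) (MonoidAlgebra ℂ G) |
        IsSimpleModule (MonoidAlgebra ℂ G) m} => (m : Submodule (MonoidAlgebra ℂ G) (MonoidAlgebra ℂ G)))
        (motive := fun x => a * x = 0) h1 ?_ ?_ ?_
      · intro S x hx
        exact hcon S.1 S.2 x hx
      · exact mul_zero a
      · intro x y hx hy
        rw [mul_add, hx, hy, add_zero]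
    rw [mul_one] at h2
    exact ha h2
  have hfd : FiniteDimensional ℂ (MonoidAlgebra ℂ G) := by
    infer_instance
  have hfdS : FiniteDimensional ℂ S := by
    have := FiniteDimensional.finiteDimensional_submodule (S.restrictScalars ℂ)
    exact this
  let b := Module.finBasis ℂ S
  let e : S ≃ₗ[ℂ] (Fin (finrank ℂ S) → ℂ) := b.equivFun
  let φ : MonoidAlgebra ℂ G →ₐ[ℂ] Module.End ℂ (Fin (finrank ℂ S) → ℂ) :=
    (e.conjAlgEquiv ℂ).toAlgHom.comp (Algebra.lsmul ℂ ℂ S)
  let ρ : Representation ℂ G (Fin (finrank ℂ S) → ℂ) := (MonoidAlgebra.lift ℂ _ G).symm φ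
  have hρ : ρ.asAlgebraHom = φ := by
    unfold Representation.asAlgebraHom
    exact (MonoidAlgebra.lift ℂ _ G).apply_symm_apply φ
  have hφ : ∀ r (x : S), φ r (e x) = e (r • x) := by
    intro r x
    simp [φ, LinearEquiv.conjAlgEquiv]
  refine ⟨finrank ℂ S, ρ, ?_, ?_⟩
  · rw [irreducible_iff_isSimpleModule_asModule]
    let E : S ≃ₗ[MonoidAlgebra ℂ G] ρ.asModule :=
      { toFun := fun x => ρ.asModuleEquiv.symm (e x)
        map_add' := by intro x y; simp
        map_smul' := by
          intro r x
          apply ρ.asModuleEquiv.injective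
          simp only [RingHom.id_apply, asModuleEquiv_map_smul, LinearEquiv.apply_symm_apply]
          rw [hρ, hφ]
        invFun := fun y => e.symm (ρ.asModuleEquiv y)
        left_inv := by intro x; simp
        right_inv := by intro x; simp }
    exact IsSimpleModule.congr E.symm
  · rw [hρ]
    intro h
    apply ham
    have h1 := hφ a ⟨m, hm⟩
    rw [h, LinearMap.zero_apply] at h1
    have h2 : a • (⟨m, hm⟩ : S) = 0 := by
      apply e.injective
      rw [← h1, map_zero]
    exact congrArg Subtype.val h2

omit [Finite G] in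
/-- Pairwise commuting elements lie in the image of an injective homomorphism from a commutative group. -/
theorem exists_comm {ι : Type} (s : Finset ι) (x : ι → G)
    (hc : ∀ i ∈ s, ∀ j ∈ s, x i * x j = x j * x i) :
    ∃ (K : Type) (_ : CommGroup K) (f : K →* G), Function.Injective f ∧
      ∃ y : ι → K, ∀ i ∈ s, f (y i) = x i := by
  classical
  have hcomm : ∀ a ∈ x '' (s : Set ι), ∀ b ∈ x '' (s : Set ι), a * b = b * a := by
    rintro _ ⟨i, hi, rfl⟩ _ ⟨j, hj, rfl⟩
    exact hc i hi j hj
  refine ⟨Subgroup.closure (x '' (s : Set ι)), Subgroup.closureCommGroupOfComm hcomm,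
    ⟨⟨fun k => k.1, rfl⟩, fun _ _ => rfl⟩, ?_, fun i => if h : i ∈ s then
      ⟨x i, Subgroup.subset_closure ⟨i, h, rfl⟩⟩ else ⟨1, Subgroup.one_mem _⟩, ?_⟩
  · intro a b h
    exact Subtype.ext h
  · intro i hi
    simp [hi]

/-- The order of a product of commuting elements of different prime orders. -/
theorem orderOf_prod {K : Type} [CommGroup K] {ι : Type} (s : Finset ι) (p : ι → ℕ)
    (hp : ∀ i ∈ s, (p i).Prime) (hinj : Set.InjOn p s) (y : ι → K)
    (hy : ∀ i ∈ s, orderOf (y i) = p i) : orderOf (∏ i ∈ s, y i) = ∏ i ∈ s, p i := by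
  classical
  induction s using Finset.induction_on with
  | empty => simp
  | insert i s hi ih =>
    rw [Finset.prod_insert hi, Finset.prod_insert hi]
    have h1 := ih (fun j hj => hp j (Finset.mem_insert_of_mem hj))
      (hinj.mono (by intro j hj; exact Finset.mem_insert_of_mem hj))
      (fun j hj => hy j (Finset.mem_insert_of_mem hj))
    rw [(Commute.all (y i) (∏ i ∈ s, y i)).orderOf_mul_eq_mul_orderOf_of_coprime, h1,
      hy i (Finset.mem_insert_self i s)]
    rw [h1, hy i (Finset.mem_insert_self i s)]
    apply Nat.Coprime.prod_right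
    intro j hj
    rw [Nat.coprime_primes (hp i (Finset.mem_insert_self i s)) (hp j (Finset.mem_insert_of_mem hj))]
    intro h
    have := hinj (Finset.mem_insert_self i s) (Finset.mem_insert_of_mem hj) h
    rw [this] at hi
    exact hi hj

/-- The sum of the conjugates of `g` in the group algebra. -/
noncomputable def conjSum [Fintype G] (g : G) : MonoidAlgebra ℂ G :=
  ∑ h : G, MonoidAlgebra.single (h * g * h⁻¹) 1

/-- For commuting elements `x i` of different prime orders there is an irreducible representation `ρ` with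
`χ (∏ x i) ≠ 0` and `ρ (x i) ≠ 1` for all `i`. -/
theorem exists_char {ι : Type} (s : Finset ι) (p : ι → ℕ)
    (hp : ∀ i ∈ s, (p i).Prime) (hinj : Set.InjOn p s)
    {K : Type} [CommGroup K] (f : K →* G) (hf : Function.Injective f) (y : ι → K)
    (hy : ∀ i ∈ s, orderOf (y i) = p i) :
    ∃ (n : ℕ) (ρ : Representation ℂ G (Fin n → ℂ)), ρ.IsIrreducible ∧
      ρ.character (f (∏ i ∈ s, y i)) ≠ 0 ∧ ∀ i ∈ s, ρ (f (y i)) ≠ 1 := by
  classical
  have := Fintype.ofFinite G
  set g : G := f (∏ i ∈ s, y i) with hg
  let F : MonoidAlgebra ℂ K →ₐ[ℂ] MonoidAlgebra ℂ G := MonoidAlgebra.mapDomainAlgHom ℂ ℂ f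
  have hF : ∀ k c, F (MonoidAlgebra.single k c) = MonoidAlgebra.single (f k) c := by
    intro k c
    simp [F]
  let e' : MonoidAlgebra ℂ K := ∏ i ∈ s, (MonoidAlgebra.single (y i)⁻¹ (1 : ℂ) + (-1))
  have he' : e' = ∑ T ∈ s.powerset, (-1 : MonoidAlgebra ℂ K) ^ (s \ T).card *
      MonoidAlgebra.single (∏ i ∈ T, y i)⁻¹ (1 : ℂ) := by
    simp only [e']
    rw [Finset.prod_add]
    apply Finset.sum_congr rfl
    intro T _
    rw [Finset.prod_const, mul_comm]
    congr 1
    have h1 : ∀ T : Finset ι, ∏ i ∈ T, MonoidAlgebra.single (y i)⁻¹ (1 : ℂ) =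
        MonoidAlgebra.single (∏ i ∈ T, y i)⁻¹ (1 : ℂ) := by
      intro T
      rw [← Finset.prod_inv_distrib]
      exact (map_prod (MonoidAlgebra.of ℂ K) (fun i => (y i)⁻¹) T).symm
    exact h1 T
  have hz : ∀ k : G, (conjSum g * MonoidAlgebra.single k⁻¹ (1 : ℂ)).coeff 1 =
      ((Finset.univ.filter (fun h : G => h * g * h⁻¹ = k)).card : ℂ) := by
    intro k
    unfold conjSum
    rw [Finset.sum_mul]
    simp only [MonoidAlgebra.single_mul_single, mul_one]
    rw [Finset.card_filter]
    push_cast
    rw [MonoidAlgebra.coeff_sum, Finsupp.finsetSum_apply]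
    apply Finset.sum_congr rfl
    intro h _
    rw [MonoidAlgebra.coeff_single, Finsupp.single_apply]
    simp only [mul_inv_eq_one]
  have ha : conjSum g * F e' ≠ 0 := by
    intro h0
    have h1 : (conjSum g * F e').coeff 1 = ((Finset.univ.filter (fun h : G => h * g * h⁻¹ = g)).card : ℂ) := by
      rw [he', map_sum, Finset.mul_sum, MonoidAlgebra.coeff_sum, Finsupp.finsetSum_apply]
      rw [Finset.sum_eq_single s]
      · rw [Finset.sdiff_self, Finset.card_empty, pow_zero, one_mul, hF, map_inv, ← hg, hz]
      · intro T hT hTs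
        have hT' : T ⊆ s := Finset.mem_powerset.1 hT
        have h2 : conjSum g * F ((-1) ^ (s \ T).card * MonoidAlgebra.single (∏ i ∈ T, y i)⁻¹ (1 : ℂ)) =
            (-1 : ℂ) ^ (s \ T).card • (conjSum g * MonoidAlgebra.single (f (∏ i ∈ T, y i))⁻¹ (1 : ℂ)) := by
          rw [map_mul, map_pow, map_neg, map_one, hF, map_inv]
          rcases neg_one_pow_eq_or (MonoidAlgebra ℂ G) (s \ T).card with h3 | h3
          · have h4 : (-1 : ℂ) ^ (s \ T).card = 1 := by
              rcases Nat.even_or_odd (s \ T).card with h5 | h5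
              · exact h5.neg_one_pow
              · rw [h5.neg_one_pow] at h3
                exfalso
                have h6 := congrArg (fun u : MonoidAlgebra ℂ G => u.coeff 1) h3
                simp [MonoidAlgebra.one_def] at h6
                norm_num at h6
            rw [h3, h4, one_mul, one_smul]
          · have h4 : (-1 : ℂ) ^ (s \ T).card = -1 := by
              rcases Nat.even_or_odd (s \ T).card with h5 | h5
              · rw [h5.neg_one_pow] at h3
                exfalso
                have h6 := congrArg (fun u : MonoidAlgebra ℂ G => u.coeff 1) h3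
                simp [MonoidAlgebra.one_def] at h6
                norm_num at h6
              · exact h5.neg_one_pow
            rw [h3, h4, neg_one_mul, mul_neg, neg_one_smul]
        rw [h2]
        have h7 : (conjSum g * MonoidAlgebra.single (f (∏ i ∈ T, y i))⁻¹ (1 : ℂ)).coeff 1 = 0 := by
          rw [hz]
          rw [Nat.cast_eq_zero, Finset.card_eq_zero, Finset.filter_eq_empty_iff]
          intro h _ h8
          have h9 : orderOf (h * g * h⁻¹) = orderOf (f (∏ i ∈ T, y i)) := by rw [h8]
          have h10 : orderOf (h * g * h⁻¹) = orderOf g := by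
            have := MulEquiv.orderOf_eq (MulAut.conj h) g
            rwa [MulAut.conj_apply] at this
          rw [h10, hg, orderOf_injective f hf, orderOf_injective f hf, orderOf_prod s p hp hinj y hy,
            orderOf_prod T p (fun i hi => hp i (hT' hi)) (hinj.mono (by intro j hj; exact hT' hj)) y
              (fun i hi => hy i (hT' hi))] at h9
          obtain ⟨i, hi, hiT⟩ : ∃ i ∈ s, i ∉ T := by
            by_contra hcon
            push Not at hcon
            exact hTs (Finset.Subset.antisymm hT' hcon)
          have h11 : p i ∣ ∏ i ∈ T, p i := by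
            rw [← h9]
            exact Finset.dvd_prod_of_mem p hi
          obtain ⟨j, hj, hij⟩ := (Prime.dvd_finsetProd_iff (hp i hi).prime p).1 h11
          have h12 := (Nat.prime_dvd_prime_iff_eq (hp i hi) (hp j (hT' hj))).1 hij
          have h13 := hinj hi (hT' hj) h12
          rw [h13] at hiT
          exact hiT hj
        rw [MonoidAlgebra.coeff_smul_apply, h7, smul_zero]
      · intro h
        exact absurd (Finset.mem_powerset_self s) h
    rw [h0] at h1
    have h2 : (Finset.univ.filter (fun h : G => h * g * h⁻¹ = g)).card = 0 := by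
      have h3 : ((Finset.univ.filter (fun h : G => h * g * h⁻¹ = g)).card : ℂ) = 0 := by
        rw [← h1]
        rfl
      exact_mod_cast h3
    rw [Finset.card_eq_zero, Finset.filter_eq_empty_iff] at h2
    exact h2 (Finset.mem_univ 1) (by simp)
  obtain ⟨n, ρ, hρ, hne⟩ := exists_irr ha
  refine ⟨n, ρ, hρ, ?_, ?_⟩
  · intro h0
    apply hne
    have hsc : ρ.asAlgebraHom (conjSum g) = 0 := by
      have h1 : ρ.asAlgebraHom (conjSum g) = ∑ h : G, ρ (h * g * h⁻¹) := by
        unfold conjSum
        rw [map_sum]
        apply Finset.sum_congr rfl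
        intro h _
        rw [asAlgebraHom_single, one_smul]
      obtain ⟨c, hc⟩ := schur ρ (∑ h : G, ρ (h * g * h⁻¹)) (by
        intro k v
        simp only [LinearMap.sum_apply, map_sum]
        refine Fintype.sum_equiv (Equiv.mulLeft k⁻¹) _ _ ?_
        intro h
        have h3 : ∀ a b : G, ρ a (ρ b v) = ρ (a * b) v := fun a b => by rw [map_mul]; rfl
        rw [h3, h3]
        congr 2
        simp only [Equiv.coe_mulLeft]
        group)
      have htr := congrArg (LinearMap.trace ℂ (Fin n → ℂ)) hc
      rw [map_sum, map_smul, LinearMap.trace_id] at htr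
      have h2 : ∑ h : G, (LinearMap.trace ℂ (Fin n → ℂ)) (ρ (h * g * h⁻¹)) = 0 := by
        apply Finset.sum_eq_zero
        intro h _
        have h3 : ρ.character (h * g * h⁻¹) = ρ.character g := char_conj ρ g h
        exact h3.trans h0
      rw [h2] at htr
      have hn : (finrank ℂ (Fin n → ℂ) : ℂ) ≠ 0 := by
        exact_mod_cast (finrank_pos_of_irr ρ).ne'
      have hc0 : c = 0 := by
        rcases mul_eq_zero.1 htr.symm with h | h
        · exact h
        · exact absurd h hn
      rw [h1, hc, hc0, zero_smul]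
    rw [map_mul, hsc, zero_mul]
  · intro i hi h0
    apply hne
    have h1 : ρ.asAlgebraHom (F e') = 0 := by
      have h2 : e' = (MonoidAlgebra.single (y i)⁻¹ (1 : ℂ) + (-1)) *
          ∏ j ∈ s.erase i, (MonoidAlgebra.single (y j)⁻¹ (1 : ℂ) + (-1)) :=
        (Finset.mul_prod_erase s _ hi).symm
      rw [h2, map_mul, map_mul, map_add, map_neg, map_one, hF, map_add, map_neg, map_one,
        asAlgebraHom_single, one_smul, map_inv]
      have h3 : ρ (f (y i))⁻¹ = 1 := by
        have h4 : ρ (f (y i))⁻¹ * ρ (f (y i)) = 1 := by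
          rw [← map_mul, inv_mul_cancel, map_one]
        rwa [h0, mul_one] at h4
      rw [h3, add_neg_cancel, zero_mul]
    rw [map_mul, h1, mul_zero]

end

end MP78a5
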