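import Pool.Agent.Lib_MP_78a5c6.AVanish2

/-!
# MP_78a5c6_al, chapter (A): passage to the quotient by the kernel
-/

namespace MP78a5

open Representation Module

section

variable {G : Type*} [Group G] {W : Type*} [AddCommGroup W] [Module ℂ W]
  (ρ : Representation ℂ G W)

/-- the representation of `G ⧸ ker ρ`. -/
noncomputable def quotRep : Representation ℂ (G ⧸ ρ.ker) W :=
  QuotientGroup.lift ρ.ker ρ le_rfl

@[simp] theorem quotRep_mk (g : G) : quotRep ρ (QuotientGroup.mk g) = ρ g := rfl

theorem quotRep_character (g : G) :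
    (quotRep ρ).character (QuotientGroup.mk g) = ρ.character g := rfl

theorem quotRep_irr [hρ : IsIrreducible ρ] : IsIrreducible (quotRep ρ) := by
  let e : Subrepresentation (quotRep ρ) ≃o Subrepresentation ρ :=
    { toFun := fun M => ⟨M.toSubmodule, fun g v hv => M.apply_mem_toSubmodule (QuotientGroup.mk g) hv⟩
      invFun := fun M => ⟨M.toSubmodule, fun g v hv => by
        induction g using QuotientGroup.induction_on with
        | H g => exact M.apply_mem_toSubmodule g hv⟩
      left_inv := fun M => rfl
      right_inv := fun M => rfl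
      map_rel_iff' := Iff.rfl }
  exact e.isSimpleOrder_iff.2 hρ

variable [Finite G] [FiniteDimensional ℂ W]

/-- the degree divides the index of the kernel -/
theorem finrank_dvd_index' [hρ : IsIrreducible ρ] : finrank ℂ W ∣ ρ.ker.index := by
  have : IsIrreducible (quotRep ρ) := quotRep_irr ρ
  exact finrank_dvd_card (quotRep ρ)

/-- if `p` does not divide the codegree, the character vanishes at every element `g` some power
`x` of which has order `p` and acts nontrivially. -/
theorem vanish_quot [hρ : IsIrreducible ρ] {p : ℕ} (hp : p.Prime)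
    (hd : ¬ p ∣ ρ.ker.index / finrank ℂ W) {x g : G} (k : ℕ) (hk : g ^ k = x) (hx : x ^ p = 1)
    (hρx : ρ x ≠ 1) : ρ.character g = 0 := by
  have : IsIrreducible (quotRep ρ) := quotRep_irr ρ
  rw [← quotRep_character]
  refine vanish (quotRep ρ) hp hd ?_
  have hfp : Fact p.Prime := ⟨hp⟩
  have h1 : orderOf (QuotientGroup.mk x : G ⧸ ρ.ker) = p := by
    apply orderOf_eq_prime
    · rw [← QuotientGroup.mk_pow, hx]; rfl
    · intro h
      apply hρx
      exact (QuotientGroup.eq_one_iff x).1 h
  have h2 : orderOf (QuotientGroup.mk x : G ⧸ ρ.ker) ∣ orderOf (QuotientGroup.mk g : G ⧸ ρ.ker) := by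
    rw [← hk, QuotientGroup.mk_pow]
    exact orderOf_pow_dvd k
  rwa [h1] at h2

end

/-- The degree divides the index of the kernel. -/
theorem finrank_dvd_index_proof {G : Type} [Group G] [Finite G] {n : ℕ}
    (ρ : Representation ℂ G (Fin n → ℂ)) (h : ρ.IsIrreducible) : n ∣ ρ.ker.index := by
  have := finrank_dvd_index' ρ
  rwa [Module.finrank_fin_fun] at this

end MP78a5
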