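import Mathlib
import Pool.Agent.Lib_MP_78a5c6.ADefs
import Pool.Agent.Lib_MP_78a5c6.AQuot
import Pool.Agent.Lib_MP_78a5c6.AExists

/-!
# MP_78a5c6_al, chapter (A): commuting elements of different prime orders and codegrees (Isaacs, Qian)

Owner: helper16. `dvd`: the degree of an irreducible character divides the order of the group (applied to
`G ⧸ ker ρ`): `Σ_g χ(g⁻¹) g` is central, acts as the scalar `|G| / χ(1)`, and is integral over `ℤ`.

`vanish` (p-defect zero): if `v_p(χ(1)) = v_p(|G : ker χ|)` then `χ(g) = 0` for every `g` whose order in `G ⧸ ker χ`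
is divisible by `p`: let `R` be a valuation subring of `ℂ` with `p` in its maximal ideal (it contains all algebraic
integers); `e = (χ(1)/|G|) Σ χ(g⁻¹) g ∈ R[G]`; write `g = x y`, `x` of order `p ^ a`, `y` of order prime to `p`; the
`ψ(y)`-eigenspace of `R[G] e` is a direct summand of the free `R[⟨x⟩]`-module `R[G]`, hence free over the local ring
`R[⟨x⟩]`, and `x ≠ 1` has trace `0` on it. (Or helper91's version with idempotent matrices over `R`.)

`exists_cod`: let `g = ∏ x p`, `z = |G|⁻¹ Σ_h h g h⁻¹` (central), `e = ∏_p ((x p)⁻¹ - 1)`. The coefficient of `z e` at `1` is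
the coefficient of `z` at `g`, which is `≠ 0` (the other terms are the coefficients at the products of proper subfamilies,
which are not conjugate to `g`: their orders are different). So `z e ≠ 0` in `ℂ[G]`, which is semisimple, hence `z e` is
nonzero on some irreducible `ρ`: the scalar of `z` is `χ(g) / χ(1) ≠ 0`, and `ρ (x p) ≠ 1` for all `p`. By `vanish` every `p`
divides the codegree.
-/

namespace MP78a5

open Representation Module

/-- The degree divides the index of the kernel. -/
theorem finrank_dvd_index {G : Type} [Group G] [Finite G] {n : ℕ}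
    (ρ : Representation ℂ G (Fin n → ℂ)) (h : ρ.IsIrreducible) : n ∣ ρ.ker.index :=
  finrank_dvd_index_proof ρ h

/-- Codegrees divide the order of the group. -/
theorem cod_dvd_card {G : Type} [Group G] [Finite G] {m : ℕ} (hm : m ∈ Cod G) : m ∣ Nat.card G := by
  obtain ⟨n, ρ, hρ, rfl⟩ := hm
  have h1 := finrank_dvd_index ρ hρ
  unfold codeg
  rw [Module.finrank_fin_fun]
  exact (Nat.div_dvd_of_dvd h1).trans (Subgroup.index_dvd_card ρ.ker)

/-- `σ(G)` is a maximum. -/
theorem card_le_sig {G : Type} [Group G] [Finite G] {m : ℕ} (hm : m ∈ Cod G) :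
    m.primeFactors.card ≤ sig G := by
  unfold sig
  apply le_csSup
  · refine ⟨(Nat.card G).primeFactors.card, ?_⟩
    rintro k ⟨m', hm', rfl⟩
    exact Finset.card_le_card (Nat.primeFactors_mono (cod_dvd_card hm') Nat.card_pos.ne')
  · exact ⟨m, hm, rfl⟩

/-- Commuting elements of different prime orders: their primes divide one codegree. -/
theorem exists_cod {G : Type} [Group G] [Finite G] {ι : Type} (s : Finset ι) (p : ι → ℕ)
    (hp : ∀ i ∈ s, (p i).Prime) (hinj : Set.InjOn p s) (x : ι → G)
    (hx : ∀ i ∈ s, orderOf (x i) = p i) (hc : ∀ i ∈ s, ∀ j ∈ s, x i * x j = x j * x i) :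
    ∃ m ∈ Cod G, ∀ i ∈ s, p i ∣ m := by
  classical
  obtain ⟨K, _, f, hf, y, hy⟩ := exists_comm s x hc
  have hyo : ∀ i ∈ s, orderOf (y i) = p i := by
    intro i hi
    rw [← orderOf_injective f hf, hy i hi, hx i hi]
  obtain ⟨n, ρ, hρ, hne, hall⟩ := exists_char s p hp hinj f hf y hyo
  refine ⟨codeg ρ, ⟨n, ρ, hρ, rfl⟩, ?_⟩
  intro i hi
  by_contra hd
  apply hne
  set k : ℕ := ∏ j ∈ s.erase i, p j with hk
  have hcop : Nat.Coprime k (p i) := by
    rw [hk]
    apply Nat.Coprime.prod_left
    intro j hj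
    rw [Nat.coprime_primes (hp j (Finset.mem_of_mem_erase hj)) (hp i hi)]
    intro h
    have := hinj (Finset.mem_of_mem_erase hj) hi h
    exact Finset.ne_of_mem_erase hj this
  refine vanish_quot ρ (hp i hi) hd (x := f (y i) ^ k) k ?_ ?_ ?_
  · rw [← map_pow, ← map_pow]
    congr 1
    rw [← Finset.mul_prod_erase s y hi, mul_pow]
    have h1 : (∏ j ∈ s.erase i, y j) ^ k = 1 := by
      rw [← orderOf_dvd_iff_pow_eq_one, orderOf_prod (s.erase i) p
        (fun j hj => hp j (Finset.mem_of_mem_erase hj))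
        (hinj.mono (by intro j hj; exact Finset.mem_of_mem_erase hj)) y
        (fun j hj => hyo j (Finset.mem_of_mem_erase hj))]
    rw [h1, mul_one]
  · rw [← pow_mul, mul_comm, pow_mul, ← map_pow, ← hyo i hi, pow_orderOf_eq_one, map_one, one_pow]
  · intro h
    apply hall i hi
    rw [map_pow] at h
    have h1 : ρ (f (y i)) ^ (p i) = 1 := by
      rw [← map_pow, ← map_pow, ← hyo i hi, pow_orderOf_eq_one, map_one, map_one]
    have h2 : orderOf (ρ (f (y i))) ∣ Nat.gcd k (p i) :=
      Nat.dvd_gcd (orderOf_dvd_of_pow_eq_one h) (orderOf_dvd_of_pow_eq_one h1)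
    rw [hcop.gcd_eq_one, Nat.dvd_one, orderOf_eq_one_iff] at h2
    exact h2

/-- Commuting elements of different prime orders: at most `σ(G)`. -/
theorem card_le_sig_of_comm {G : Type} [Group G] [Finite G] {ι : Type} (s : Finset ι) (p : ι → ℕ)
    (hp : ∀ i ∈ s, (p i).Prime) (hinj : Set.InjOn p s) (x : ι → G)
    (hx : ∀ i ∈ s, orderOf (x i) = p i) (hc : ∀ i ∈ s, ∀ j ∈ s, x i * x j = x j * x i) :
    s.card ≤ sig G := by
  classical
  obtain ⟨m, hm, hall⟩ := exists_cod s p hp hinj x hx hc
  refine le_trans ?_ (card_le_sig hm)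
  have hm0 : m ≠ 0 := by
    intro h
    have := cod_dvd_card hm
    rw [h, zero_dvd_iff] at this
    exact Nat.card_pos.ne' this
  rw [← Finset.card_image_of_injOn hinj]
  apply Finset.card_le_card
  intro q hq
  obtain ⟨i, hi, rfl⟩ := Finset.mem_image.1 hq
  exact Nat.mem_primeFactors.2 ⟨hp i hi, hall i hi, hm0⟩

end MP78a5
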