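import Pool.Agent.Lib_MP_78a5c6.AChar

/-!
# MP_78a5c6_al, chapter (A): characters of `p`-defect zero vanish on `p`-singular elements
-/

namespace MP78a5

open Representation Module

/-- idempotent matrices over a domain which agree modulo a proper ideal have the same trace. -/
theorem trace_eq_of_congr {R : Type*} [CommRing R] [IsDomain R] {Q : Type*} [Fintype Q]
    [DecidableEq Q] (I : Ideal R) (hI : I ≠ ⊤) (E E' : Matrix Q Q R) (hE : E * E = E)
    (hE' : E' * E' = E') (hc : ∀ i j, E i j - E' i j ∈ I) : E.trace = E'.trace := by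
  set u := E * E' + (1 - E) * (1 - E') with hu
  have h1 : E * u = u * E' := by
    have z1 : E * (1 - E) = 0 := by rw [mul_sub, mul_one, hE, sub_self]
    have z2 : (1 - E') * E' = 0 := by rw [sub_mul, one_mul, hE', sub_self]
    have e1 : E * u = E * E' := by
      rw [hu, mul_add, ← mul_assoc, hE, ← mul_assoc, z1, zero_mul, add_zero]
    have e2 : u * E' = E * E' := by
      rw [hu, add_mul, mul_assoc, hE', mul_assoc, z2, mul_zero, add_zero]
    rw [e1, e2]
  have hdet : u.det ≠ 0 := by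
    intro h0
    let f := Ideal.Quotient.mk I
    have hnt : Nontrivial (R ⧸ I) := Ideal.Quotient.nontrivial_iff.2 hI
    have hEE' : f.mapMatrix E = f.mapMatrix E' := by
      ext i j
      exact (Ideal.Quotient.mk_eq_mk_iff_sub_mem _ _).2 (hc i j)
    have h2 : f.mapMatrix u = 1 := by
      rw [hu, map_add, map_mul, map_mul, map_sub, map_sub, map_one, ← hEE', ← map_mul, hE]
      have h3 : f.mapMatrix E * f.mapMatrix E = f.mapMatrix E := by rw [← map_mul, hE]
      have h4 : (1 - f.mapMatrix E) * (1 - f.mapMatrix E) = 1 - f.mapMatrix E := by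
        rw [sub_mul, one_mul, mul_sub, mul_one, h3, sub_self, sub_zero]
      rw [h4, add_sub_cancel]
    have h5 := congrArg Matrix.det h2
    rw [← RingHom.map_det, h0, map_zero, Matrix.det_one] at h5
    exact zero_ne_one h5
  have h6 : u.det • E = u * E' * u.adjugate := by
    rw [← h1, mul_assoc, Matrix.mul_adjugate, mul_smul_comm, mul_one]
  have h7 := congrArg Matrix.trace h6
  rw [Matrix.trace_smul, Matrix.trace_mul_comm, ← mul_assoc, Matrix.adjugate_mul, smul_mul_assoc,
    one_mul, Matrix.trace_smul] at h7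
  exact smul_right_injective R hdet h7

/-- the ring of the complex numbers `x` with `m x` integral for some `m` prime to `p`. -/
def Rp (p : ℕ) : Subring ℂ where
  carrier := {x | ∃ m : ℕ, m.Coprime p ∧ IsIntegral ℤ ((m : ℂ) * x)}
  mul_mem' := by
    rintro x y ⟨m, hm, hx⟩ ⟨m', hm', hy⟩
    refine ⟨m * m', hm.mul_left hm', ?_⟩
    have : ((m * m' : ℕ) : ℂ) * (x * y) = (m * x) * (m' * y) := by push_cast; ring
    rw [this]
    exact hx.mul hy
  one_mem' := ⟨1, Nat.coprime_one_left p, by simpa using isIntegral_one⟩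
  add_mem' := by
    rintro x y ⟨m, hm, hx⟩ ⟨m', hm', hy⟩
    refine ⟨m * m', hm.mul_left hm', ?_⟩
    have : ((m * m' : ℕ) : ℂ) * (x + y) = (m' : ℂ) * (m * x) + (m : ℂ) * (m' * y) := by
      push_cast; ring
    rw [this]
    have h1 : ∀ k : ℕ, IsIntegral ℤ (k : ℂ) := fun k => by
      have := isIntegral_algebraMap (R := ℤ) (A := ℂ) (x := (k : ℤ))
      simpa using this
    exact ((h1 m').mul hx).add ((h1 m).mul hy)
  zero_mem' := ⟨1, Nat.coprime_one_left p, by simpa using isIntegral_zero⟩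
  neg_mem' := by
    rintro x ⟨m, hm, hx⟩
    refine ⟨m, hm, ?_⟩
    rw [mul_neg]
    exact hx.neg

theorem mem_Rp_of_isIntegral {p : ℕ} {x : ℂ} (hx : IsIntegral ℤ x) : x ∈ Rp p :=
  ⟨1, Nat.coprime_one_left p, by simpa using hx⟩

/-- there is a prime ideal of `Rp p` which contains `p`. -/
theorem exists_maximal_Rp {p : ℕ} (hp : p.Prime) :
    ∃ I : Ideal (Rp p), I.IsPrime ∧ I ≠ ⊤ ∧ (p : Rp p) ∈ I := by
  have h1 : Ideal.span {(p : Rp p)} ≠ ⊤ := by
    rw [Ne, Ideal.span_singleton_eq_top]
    intro hu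
    obtain ⟨v, hv⟩ := hu.exists_right_inv
    obtain ⟨m, hm, hint⟩ := v.2
    have hv' : (p : ℂ) * (v : ℂ) = 1 := by
      have := congrArg Subtype.val hv
      simpa using this
    have hp0 : (p : ℂ) ≠ 0 := by exact_mod_cast hp.ne_zero
    have hp0' : (p : ℚ) ≠ 0 := by exact_mod_cast hp.ne_zero
    have hv2 : (v : ℂ) = 1 / p := by field_simp; rw [mul_comm]; exact hv'
    have h2 : (m : ℂ) * (v : ℂ) = algebraMap ℚ ℂ ((m : ℚ) / p) := by
      rw [hv2]
      simp [div_eq_mul_inv]
    rw [h2] at hint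
    have h3 := (isIntegral_algebraMap_iff (algebraMap ℚ ℂ).injective).1 hint
    obtain ⟨z, hz⟩ := IsIntegrallyClosed.isIntegral_iff.1 h3
    have h4 : (m : ℚ) = z * p := by
      have h5 : ((z : ℤ) : ℚ) = (m : ℚ) / p := by rw [← hz]; simp
      rw [h5, div_mul_cancel₀ _ hp0']
    have h6 : (m : ℤ) = z * p := by exact_mod_cast h4
    have h7 : (p : ℤ) ∣ (m : ℤ) := ⟨z, by rw [h6]; ring⟩
    have h8 : p ∣ m := by exact_mod_cast h7
    have h9 := Nat.dvd_gcd h8 dvd_rfl
    rw [hm] at h9
    exact hp.one_lt.ne' (Nat.dvd_one.1 h9)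
  obtain ⟨I, hI, hle⟩ := Ideal.exists_le_maximal _ h1
  exact ⟨I, hI.isPrime, hI.ne_top, hle (Ideal.subset_span rfl)⟩

section

variable {H : Type*} [Group H]

/-- the matrix `E_λ`. -/
noncomputable def EM {R : Type*} [CommRing R] (C : Subgroup H) [Fintype C] (e : H → R)
    (l : C →* R) : Matrix (H ⧸ C) (H ⧸ C) R :=
  fun t s => ∑ c : C, l c * e (t.out * c * s.out⁻¹)

theorem EM_idem {R : Type*} [CommRing R] [Fintype H] (C : Subgroup H) [Fintype C]
    [Fintype (H ⧸ C)] (e : H → R) (he : ∀ g, ∑ h : H, e h * e (h⁻¹ * g) = e g) (l : C →* R) :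
    EM C e l * EM C e l = EM C e l := by
  classical
  ext t u
  rw [Matrix.mul_apply]
  unfold EM
  have hout : ∀ (q : H ⧸ C) (c : C), QuotientGroup.mk (q.out * (c : H)) = q := by
    intro q c
    conv_rhs => rw [← QuotientGroup.out_eq' q]
    rw [QuotientGroup.eq]
    have : (q.out * (c : H))⁻¹ * q.out = (c : H)⁻¹ := by group
    rw [this]
    exact C.inv_mem c.2
  -- the bijection `(s, c) ↦ s c⁻¹`
  have hbij : ∀ φ : H → R, ∑ s : H ⧸ C, ∑ c : C, φ (s.out * (c : H)) = ∑ h : H, φ h := by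
    intro φ
    rw [← Fintype.sum_prod_type']
    refine Fintype.sum_bijective (fun z : (H ⧸ C) × C => z.1.out * (z.2 : H)) ?_ _ _ (fun _ => rfl)
    constructor
    · rintro ⟨s, c⟩ ⟨s', c'⟩ h
      simp only at h
      have h1 : s = s' := by
        rw [← hout s c, ← hout s' c', h]
      subst h1
      have h2 : c = c' := Subtype.ext (mul_left_cancel h)
      rw [h2]
    · intro h
      have h1 : (QuotientGroup.mk h : H ⧸ C) = QuotientGroup.mk (QuotientGroup.mk h : H ⧸ C).out :=
        (QuotientGroup.out_eq' _).symm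
      have h2 : ((QuotientGroup.mk h : H ⧸ C).out)⁻¹ * h ∈ C := QuotientGroup.eq.1 h1.symm
      exact ⟨(QuotientGroup.mk h, ⟨_, h2⟩), by simp⟩
  calc ∑ s : H ⧸ C, (∑ c : C, l c * e (t.out * c * s.out⁻¹)) *
        (∑ d : C, l d * e (s.out * d * u.out⁻¹))
      = ∑ s : H ⧸ C, ∑ c : C, ∑ d : C, l d * (e (t.out * (s.out * (c : H))⁻¹) *
          e ((s.out * (c : H)) * d * u.out⁻¹)) := by
        apply Finset.sum_congr rfl
        intro s _
        rw [Finset.sum_mul]
        refine Fintype.sum_equiv (Equiv.inv C) _ _ ?_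
        intro c
        rw [Finset.mul_sum]
        refine Fintype.sum_equiv (Equiv.mulLeft c) _ _ ?_
        intro d
        simp only [Equiv.inv_apply, Equiv.coe_mulLeft, map_mul]
        have h1 : t.out * (c : H) * s.out⁻¹ = t.out * (s.out * ((c⁻¹ : C) : H))⁻¹ := by
          push_cast; group
        have h2 : s.out * (d : H) * u.out⁻¹ =
            s.out * ((c⁻¹ : C) : H) * ((c * d : C) : H) * u.out⁻¹ := by
          push_cast; group
        rw [h1, h2]
        ring
    _ = ∑ h : H, ∑ d : C, l d * (e (t.out * h⁻¹) * e (h * d * u.out⁻¹)) :=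
        hbij (fun h => ∑ d : C, l d * (e (t.out * h⁻¹) * e (h * d * u.out⁻¹)))
    _ = ∑ d : C, l d * ∑ h : H, (e (t.out * h⁻¹) * e (h * d * u.out⁻¹)) := by
        rw [Finset.sum_comm]
        apply Finset.sum_congr rfl
        intro d _
        rw [Finset.mul_sum]
    _ = ∑ d : C, l d * e (t.out * d * u.out⁻¹) := by
        apply Finset.sum_congr rfl
        intro d _
        congr 1
        rw [← he (t.out * d * u.out⁻¹)]
        refine Fintype.sum_equiv ((Equiv.inv H).trans (Equiv.mulLeft t.out)) _ _ ?_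
        intro h
        simp only [Equiv.trans_apply, Equiv.inv_apply, Equiv.coe_mulLeft]
        congr 2
        group

end

end MP78a5
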