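import Pool.Agent.Lib_MP_78a5c6.AVanish

/-!
# MP_78a5c6_al, chapter (A): characters of `p`-defect zero vanish on `p`-singular elements
-/

namespace MP78a5

open Representation Module

/-- the homomorphism on `⟨g⟩` with value `z` at `g`. -/
theorem exists_hom {H : Type*} [Group H] [Finite H] (g : H) {R : Type*} [CommRing R] (z : R)
    (hz : z ^ orderOf g = 1) :
    ∃ l : Subgroup.zpowers g →* R, ∀ i : ℕ,
      l ⟨g ^ i, ⟨(i : ℤ), zpow_natCast g i⟩⟩ = z ^ i := by
  have hN : orderOf g ≠ 0 := (orderOf_pos g).ne'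
  have hg : ∀ x : Subgroup.zpowers g,
      x ∈ Subgroup.zpowers (⟨g, Subgroup.mem_zpowers g⟩ : Subgroup.zpowers g) := by
    rintro ⟨_, k, rfl⟩
    exact ⟨k, Subtype.ext (by simp)⟩
  have hord : orderOf (Units.ofPowEqOne z (orderOf g) hz hN) ∣
      orderOf (⟨g, Subgroup.mem_zpowers g⟩ : Subgroup.zpowers g) := by
    rw [Subgroup.orderOf_mk]
    exact orderOf_dvd_of_pow_eq_one (Units.pow_ofPowEqOne hz hN)
  refine ⟨(Units.coeHom R).comp (monoidHomOfForallMemZpowers hg hord), fun i => ?_⟩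
  have h1 : (⟨g ^ i, ⟨(i : ℤ), zpow_natCast g i⟩⟩ : Subgroup.zpowers g) =
      (⟨g, Subgroup.mem_zpowers g⟩ : Subgroup.zpowers g) ^ i := Subtype.ext (by simp)
  rw [h1, map_pow, MonoidHom.comp_apply, monoidHomOfForallMemZpowers_apply_gen]
  rfl

section

variable {H : Type*} [Group H] {W : Type*} [AddCommGroup W] [Module ℂ W]
  [FiniteDimensional ℂ W] (σ : Representation ℂ H W)

theorem idem_mem_Rp [Finite H] [hσ : IsIrreducible σ] {p : ℕ} (hp : p.Prime)
    (hd : ¬ p ∣ Nat.card H / finrank ℂ W) (h : H) : idem σ h ∈ Rp p := by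
  have hn : (finrank ℂ W : ℂ) ≠ 0 := by
    exact_mod_cast (finrank_pos_of_irr σ).ne'
  have hcard : (Nat.card H : ℂ) ≠ 0 := by
    exact_mod_cast Nat.card_pos.ne'
  obtain ⟨m, hm⟩ := finrank_dvd_card σ
  have hdiv : Nat.card H / finrank ℂ W = m := by
    rw [hm, Nat.mul_div_cancel_left _ (finrank_pos_of_irr σ)]
  rw [hdiv] at hd
  refine ⟨m, ?_, ?_⟩
  · rw [Nat.coprime_comm, Nat.Prime.coprime_iff_not_dvd hp]
    exact hd
  · have h1 : (m : ℂ) * idem σ h = σ.character h⁻¹ := by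
      unfold idem
      rw [hm] at hcard ⊢
      push_cast at hcard ⊢
      have hm0 : (m : ℂ) ≠ 0 := right_ne_zero_of_mul hcard
      field_simp
    rw [h1]
    exact isIntegral_character σ _

/-- **Characters of `p`-defect zero vanish on `p`-singular elements.** -/
theorem vanish_inv [Finite H] [hσ : IsIrreducible σ] {p : ℕ} (hp : p.Prime)
    (hd : ¬ p ∣ Nat.card H / finrank ℂ W) {g : H} (hg : p ∣ orderOf g) :
    σ.character g⁻¹ = 0 := by
  classical
  have := Fintype.ofFinite H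
  have hn : (finrank ℂ W : ℂ) ≠ 0 := by
    exact_mod_cast (finrank_pos_of_irr σ).ne'
  have hcard : (Nat.card H : ℂ) ≠ 0 := by
    exact_mod_cast Nat.card_pos.ne'
  let R := Rp p
  let C := Subgroup.zpowers g
  have hfC : Fintype C := Fintype.ofFinite C
  have hfQ : Fintype (H ⧸ C) := Fintype.ofFinite _
  let e : H → R := fun h => ⟨idem σ h, idem_mem_Rp σ hp hd h⟩
  have he : ∀ g, ∑ h : H, e h * e (h⁻¹ * g) = e g := by
    intro g
    apply Subtype.ext
    push_cast
    exact idem_conv σ g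
  have heconj : ∀ g h, e (h * g * h⁻¹) = e g := fun g h => Subtype.ext (idem_conj σ g h)
  obtain ⟨I, hIp, hItop, hpI⟩ := exists_maximal_Rp hp
  -- the trace
  have htr : ∀ l : C →* R, (EM C e l).trace = (Fintype.card (H ⧸ C) : R) * ∑ c : C, l c * e c := by
    intro l
    unfold Matrix.trace
    have h1 : ∀ q : H ⧸ C, (EM C e l).diag q = ∑ c : C, l c * e c := by
      intro q
      unfold Matrix.diag EM
      apply Finset.sum_congr rfl
      intro c _
      rw [heconj]
    rw [Finset.sum_congr rfl (fun q _ => h1 q), Finset.sum_const, nsmul_eq_mul, Finset.card_univ]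
  have hkey : ∀ l l' : C →* R, (∀ c, l c - l' c ∈ I) →
      ∑ c : C, l c * e c = ∑ c : C, l' c * e c := by
    intro l l' hll
    have h1 := trace_eq_of_congr I hItop (EM C e l) (EM C e l') (EM_idem C e he l)
      (EM_idem C e he l') (by
        intro t s
        unfold EM
        rw [← Finset.sum_sub_distrib]
        refine Ideal.sum_mem _ (fun c _ => ?_)
        rw [← sub_mul]
        exact Ideal.mul_mem_right _ _ (hll c))
    rw [htr, htr] at h1
    have h2 : (Fintype.card (H ⧸ C) : R) ≠ 0 := by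
      intro h0
      have h3 := congrArg Subtype.val h0
      have h4 : ((Fintype.card (H ⧸ C) : ℕ) : ℂ) = 0 := by exact_mod_cast h3
      have h5 : Fintype.card (H ⧸ C) = 0 := by exact_mod_cast h4
      rw [Fintype.card_eq_zero_iff] at h5
      exact h5.elim (QuotientGroup.mk 1)
    exact mul_left_cancel₀ h2 h1
  -- roots of unity
  set N := orderOf g with hNdef
  have hN : 0 < N := orderOf_pos g
  obtain ⟨N', hN'⟩ := hg
  have hζ := Complex.isPrimitiveRoot_exp N hN.ne'
  set ζ := Complex.exp (2 * Real.pi * Complex.I / N) with hζdef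
  have hω : IsPrimitiveRoot (ζ ^ N') p := hζ.pow hN (by rw [hN', mul_comm])
  set ω := ζ ^ N' with hωdef
  have hωN : ω ^ N = 1 := by rw [hN', pow_mul, hω.pow_eq_one, one_pow]
  have hint : ∀ z : ℂ, z ^ N = 1 → z ∈ R := fun z hz =>
    mem_Rp_of_isIntegral (isIntegral_of_pow hN hz)
  -- the Fourier coefficients
  let F : ℂ → ℂ := fun z => ∑ i : Fin N, z ^ (i : ℕ) * idem σ (g ^ (i : ℕ))
  have hF : ∀ z (hz : z ^ N = 1), ∀ l : C →* R,
      (∀ i : ℕ, l ⟨g ^ i, ⟨(i : ℤ), zpow_natCast g i⟩⟩ = (⟨z, hint z hz⟩ : R) ^ i) →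
      ((∑ c : C, l c * e c : R) : ℂ) = F z := by
    intro z hz l hl
    rw [AddSubmonoidClass.coe_finsetSum]
    symm
    refine Fintype.sum_equiv (finEquivZPowers (isOfFinOrder_of_finite g)) _ _ ?_
    intro i
    rw [finEquivZPowers_apply, hl]
    rfl
  have hFω : ∀ z, z ^ N = 1 → F (z * ω) = F z := by
    intro z hz
    have hzω : (z * ω) ^ N = 1 := by rw [mul_pow, hz, hωN, one_mul]
    obtain ⟨l, hl⟩ := exists_hom g (⟨z, hint z hz⟩ : R) (Subtype.ext (by simpa using hz))
    obtain ⟨l', hl'⟩ := exists_hom g (⟨z * ω, hint _ hzω⟩ : R) (Subtype.ext (by simpa using hzω))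
    rw [← hF z hz l hl, ← hF _ hzω l' hl']
    congr 1
    apply hkey
    rintro ⟨c, hc⟩
    obtain ⟨i, rfl⟩ : ∃ i : ℕ, g ^ i = c := by
      have := (mem_powers_iff_mem_zpowers (x := g) (y := c)).2 hc
      exact this
    rw [hl, hl']
    have hωR : ω ∈ R := hint ω hωN
    have h1 : (⟨z * ω, hint _ hzω⟩ : R) = ⟨z, hint z hz⟩ * ⟨ω, hωR⟩ := rfl
    rw [h1, mul_pow]
    have h2 : (⟨ω, hωR⟩ : R) - 1 ∈ I := by
      have : Nontrivial (R ⧸ I) := Ideal.Quotient.nontrivial_iff.2 hItop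
      have : IsDomain (R ⧸ I) := Ideal.Quotient.isDomain I
      have hchar : CharP (R ⧸ I) p := by
        rw [CharP.charP_iff_prime_eq_zero hp]
        have := Ideal.Quotient.eq_zero_iff_mem.2 hpI
        simpa using this
      have hfp : Fact p.Prime := ⟨hp⟩
      have h3 : (Ideal.Quotient.mk I (⟨ω, hωR⟩ : R) - 1) ^ p = 0 := by
        rw [sub_pow_char, ← map_pow]
        have h4 : (⟨ω, hωR⟩ : R) ^ p = 1 := Subtype.ext (by simpa using hω.pow_eq_one)
        rw [h4, map_one, one_pow, sub_self]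
      have h5 := pow_eq_zero_iff (hp.ne_zero) |>.1 h3
      rw [← Ideal.Quotient.eq_zero_iff_mem, map_sub, map_one]
      exact h5
    have h3 : (⟨ω, hωR⟩ : R) ^ i - 1 ∈ I := by
      have h4 : (⟨ω, hωR⟩ : R) - 1 ∣ (⟨ω, hωR⟩ : R) ^ i - 1 := by
        have := sub_dvd_pow_sub_pow (⟨ω, hωR⟩ : R) 1 i
        rwa [one_pow] at this
      exact Ideal.mem_of_dvd I h4 h2
    have h4 : (⟨z, hint z hz⟩ : R) ^ i * (⟨ω, hωR⟩ : R) ^ i - (⟨z, hint z hz⟩ : R) ^ i =
        (⟨z, hint z hz⟩ : R) ^ i * ((⟨ω, hωR⟩ : R) ^ i - 1) := by ring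
    rw [h4]
    exact Ideal.mul_mem_left _ _ h3
  -- inversion
  have hv : (fun i : Fin N => (ω ^ (i : ℕ) - 1) * idem σ (g ^ (i : ℕ))) = 0 := by
    refine Matrix.eq_zero_of_forall_index_sum_pow_mul_eq_zero
      (f := fun j : Fin N => ζ ^ (j : ℕ)) ?_ ?_
    · intro i j hij
      exact Fin.ext (hζ.pow_inj i.2 j.2 hij)
    · intro j
      have hz : (ζ ^ (j : ℕ)) ^ N = 1 := by rw [← pow_mul, mul_comm, pow_mul, hζ.pow_eq_one, one_pow]
      have h1 := hFω _ hz
      rw [← sub_eq_zero] at h1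
      rw [← h1, ← Finset.sum_sub_distrib]
      apply Finset.sum_congr rfl
      intro i _
      ring
  have hN1 : 1 < N := by
    rw [hN']
    have : 0 < N' := by
      rcases Nat.eq_zero_or_pos N' with h | h
      · rw [h, mul_zero] at hN'; omega
      · exact h
    calc 1 < p := hp.one_lt
      _ ≤ p * N' := Nat.le_mul_of_pos_right p this
  have h1 := congrFun hv ⟨1, hN1⟩
  simp only [pow_one, Pi.zero_apply, mul_eq_zero] at h1
  rcases h1 with h1 | h1
  · exfalso
    exact hω.ne_one hp.one_lt (sub_eq_zero.1 h1)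
  · unfold idem at h1
    rcases mul_eq_zero.1 h1 with h2 | h2
    · exfalso
      exact (div_ne_zero hn hcard) h2
    · exact h2

theorem vanish [Finite H] [hσ : IsIrreducible σ] {p : ℕ} (hp : p.Prime)
    (hd : ¬ p ∣ Nat.card H / finrank ℂ W) {g : H} (hg : p ∣ orderOf g) :
    σ.character g = 0 := by
  have := vanish_inv σ hp hd (g := g⁻¹) (by rwa [orderOf_inv])
  rwa [inv_inv] at this

end

end MP78a5
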