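import Pool.Agent.Lib_MP_78a5c6.MProc

/-!
# MP_78a5c6_al, chapter (E): counting the members of an S-system by depth

`f` bounds the number of indices in a family of pairwise commuting nontrivial elements.
-/

namespace MP78a5

namespace SSys

variable {G : Type*} [Group G] {ι : Type*} [LinearOrder ι] (S : SSys G ι)

/-- `f` bounds the size of commuting transversals -/
def CBound (f : ℕ) : Prop := ∀ (s : Finset ι) (x : ι → G), (∀ i ∈ s, x i ∈ S.P i ∧ x i ≠ 1) →
      (∀ i ∈ s, ∀ j ∈ s, x i * x j = x j * x i) → s.card ≤ f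

/-- depth functions -/
structure IsDepth (d : ι → ℕ) : Prop where
  lt : ∀ i j, S.rel i j → d j < d i
  ex : ∀ i k, d i = k + 1 → ∃ j, S.rel i j ∧ d j = k

variable {S}

theorem IsDepth.above {d : ι → ℕ} (hd : S.IsDepth d) {i : ι} {t : ℕ} (h : t < d i) :
    ∃ j, S.rel i j ∧ d j = t := by
  obtain ⟨k, hk⟩ : ∃ k, d i = k + 1 + t := ⟨d i - (1 + t), by omega⟩
  induction k generalizing i with
  | zero => exact hd.ex i t (by omega)
  | succ k ih =>
    obtain ⟨j, hj, hjk⟩ := hd.ex i (k + 1 + t) (by omega)
    obtain ⟨j', hj', hjt⟩ := ih (i := j) (by omega) hjk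
    exact ⟨j', S.rel_trans hj hj', hjt⟩

theorem IsDepth.anti {d : ι → ℕ} (hd : S.IsDepth d) {i j : ι} (h : d i = d j) : ¬ S.rel i j := by
  intro hr
  have := hd.lt i j hr
  omega

/-- every maximal chain of length three has a large rank at its lowest member -/
theorem IsDepth.rank_ge {d : ι → ℕ} (hd : S.IsDepth d) [Finite G]
    (hrank : ∀ i j k, S.rel i j → S.rel j k → S.p k * S.r k ≤ S.r i)
    {N : ℕ} (hN : ∀ i, N ≤ S.p i) {i : ι} (h : 2 ≤ d i) : N ≤ S.r i := by
  obtain ⟨j, hj, hj1⟩ := hd.above (i := i) (t := 1) (by omega)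
  obtain ⟨k, hk, hk1⟩ := hd.above (i := j) (t := 0) (by omega)
  have h1 := hrank i j k hj hk
  have h2 := S.r_pos k
  have h3 := hN k
  nlinarith

theorem IsDepth.rank_ge2 {d : ι → ℕ} (hd : S.IsDepth d) [Finite G]
    (hrank : ∀ i j k, S.rel i j → S.rel j k → S.p k * S.r k ≤ S.r i)
    {N : ℕ} (hN : ∀ i, N ≤ S.p i) {i : ι} (h : 4 ≤ d i) : N * N ≤ S.r i := by
  obtain ⟨j, hj, hj1⟩ := hd.above (i := i) (t := 3) (by omega)
  obtain ⟨k, hk, hk1⟩ := hd.above (i := j) (t := 2) (by omega)
  have h1 := hrank i j k hj hk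
  have h2 := hd.rank_ge hrank hN (i := k) (by omega)
  have h3 := hN k
  calc N * N ≤ S.p k * S.r k := Nat.mul_le_mul h3 h2
    _ ≤ S.r i := h1

variable (S)

open Classical in
theorem nB_le_card {B : Finset ι} {b : ι} (hb : b ∈ B) : S.nB B b ≤ B.card := by
  unfold nB
  have h1 : (B.filter (fun b' => S.rel b' b)) ⊆ B.erase b := by
    intro x hx
    rw [Finset.mem_filter] at hx
    exact Finset.mem_erase.2 ⟨S.rel_ne hx.2, hx.1⟩
  have h2 := Finset.card_le_card h1
  rw [Finset.card_erase_of_mem hb] at h2
  have h3 : 0 < B.card := Finset.card_pos.2 ⟨b, hb⟩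
  omega

open Classical in
theorem exists_nB_eq_one {B : Finset ι} (hB : B.Nonempty) : ∃ b ∈ B, S.nB B b = 1 := by
  refine ⟨B.min' hB, Finset.min'_mem B hB, ?_⟩
  unfold nB
  rw [Finset.card_eq_zero.2]
  rw [Finset.filter_eq_empty_iff]
  intro x hx hrel
  exact absurd hrel.1 (not_lt.2 (Finset.min'_le B x hx))

/-- from the Main Lemma and the bound `f` -/
theorem contra [Finite G] [Finite ι] {f : ℕ} (hf : S.CBound f) {L R : Finset ι}
    (hdisj : ∀ i ∈ L, i ∉ R) (hL : ∀ i ∈ L, ∀ j ∈ L, ¬ S.rel i j)
    (h : ∀ B ⊆ R, B.Nonempty → L.card + B.card = f + 1 →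
      ∃ T : S.State, ∀ i ∈ L ∪ B, T.X i ≠ ⊥) : L.card + R.card ≤ f := by
  classical
  by_contra hcon
  have h1 : L.card ≤ f := S.antichain_card hf L hL
  obtain ⟨B, hB, hBc⟩ := Finset.exists_subset_card_eq (s := R) (n := f + 1 - L.card) (by omega)
  have hBn : B.Nonempty := by
    rw [← Finset.card_pos]
    omega
  obtain ⟨T, hT⟩ := h B hB hBn (by omega)
  have h2 := T.card_le hf (L ∪ B) hT
  rw [Finset.card_union_of_disjoint (Finset.disjoint_left.2 (fun i hi hi' => hdisj i hi (hB hi')))]
    at h2
  omega

variable {S}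

/-- two consecutive levels -/
theorem IsDepth.pair {d : ι → ℕ} (hd : S.IsDepth d) [Finite G] [Fintype ι] {f : ℕ}
    (hf : S.CBound f) (t : ℕ) (hr : ∀ a, d a = t → f < S.r a) :
    (Finset.univ.filter (fun i => d i = t)).card +
      (Finset.univ.filter (fun i => d i = t + 1)).card ≤ f := by
  classical
  refine S.contra hf ?_ ?_ ?_
  · intro i hi hi'
    simp only [Finset.mem_filter, Finset.mem_univ, true_and] at hi hi'
    omega
  · intro i hi j hj
    simp only [Finset.mem_filter, Finset.mem_univ, true_and] at hi hj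
    exact hd.anti (by omega)
  · intro B hB hBn hcard
    have hBd : ∀ b ∈ B, d b = t + 1 := by
      intro b hb
      have := hB hb
      simpa using this
    have hnB : ∀ b ∈ B, S.nB B b = 1 := by
      intro b hb
      unfold nB
      rw [Finset.card_eq_zero.2]
      rw [Finset.filter_eq_empty_iff]
      intro x hx
      exact hd.anti (by rw [hBd x hx, hBd b hb])
    obtain ⟨b0, hb0⟩ := hBn
    obtain ⟨a0, -, ha0⟩ := hd.ex b0 t (hBd b0 hb0)
    have hLpos : 0 < (Finset.univ.filter (fun i => d i = t)).card :=
      Finset.card_pos.2 ⟨a0, by simp [ha0]⟩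
    refine S.main_lemma (Finset.univ.filter (fun i => d i = t)) B (fun _ => False) id id
      ?_ ?_ ?_ ?_ ?_ ?_
    · intro i hi hi'
      have h1 := hBd i hi'
      simp only [Finset.mem_filter, Finset.mem_univ, true_and] at hi
      omega
    · intro i hi j hj
      simp only [Finset.mem_filter, Finset.mem_univ, true_and] at hi hj
      exact hd.anti (by omega)
    · intro b hb a ha hrel
      simp only [Finset.mem_filter, Finset.mem_univ, true_and] at ha
      have h1 := hd.lt _ _ hrel
      have h2 := hBd b hb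
      omega
    · intro b hb h2 hF
      exact absurd hF (by simp)
    · intro b hb h2
      have := hnB b hb
      omega
    · intro a ha
      simp only [Finset.mem_filter, Finset.mem_univ, true_and] at ha
      have h1 : ∑ b ∈ B, S.cost B (fun _ => False) id b a ≤ ∑ b ∈ B, 1 := by
        refine Finset.sum_le_sum (fun b hb => ?_)
        have h2 := hnB b hb
        unfold cost
        split_ifs <;> omega
      rw [Finset.sum_const, smul_eq_mul, mul_one] at h1
      have h2 := hr a ha
      omega

/-- the covering data at an index of depth at least `t + 2` -/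
theorem IsDepth.cover {d : ι → ℕ} (hd : S.IsDepth d) (t : ℕ) {b : ι} (hb : t + 2 ≤ d b) :
    ∃ q a, S.rel b q ∧ S.rel q a ∧ d a = t ∧ ∀ c, S.rel b c → ¬ S.rel c q := by
  obtain ⟨q, hq, hqd⟩ := hd.above (i := b) (t := d b - 1) (by omega)
  obtain ⟨a, ha, had⟩ := hd.above (i := q) (t := t) (by omega)
  refine ⟨q, a, hq, ha, had, fun c hbc hcq => ?_⟩
  have h1 := hd.lt _ _ hbc
  have h2 := hd.lt _ _ hcq
  omega

/-- a level and everything at least two levels lower -/
theorem IsDepth.skip {d : ι → ℕ} (hd : S.IsDepth d) [Finite G] [Fintype ι] {f : ℕ}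
    (hf : S.CBound f) (t : ℕ) (hp : ∀ i, f ≤ S.p i) (hr : ∀ a, d a = t → 2 * f ≤ S.r a) :
    (Finset.univ.filter (fun i => d i = t)).card +
      (Finset.univ.filter (fun i => t + 2 ≤ d i)).card ≤ f := by
  classical
  refine S.contra hf ?_ ?_ ?_
  · intro i hi hi'
    simp only [Finset.mem_filter, Finset.mem_univ, true_and] at hi hi'
    omega
  · intro i hi j hj
    simp only [Finset.mem_filter, Finset.mem_univ, true_and] at hi hj
    exact hd.anti (by omega)
  · intro B hB hBn hcard
    have hBd : ∀ b ∈ B, t + 2 ≤ d b := by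
      intro b hb
      have := hB hb
      simpa using this
    obtain ⟨b0, hb0, hb1⟩ := S.exists_nB_eq_one hBn
    obtain ⟨a0, -, ha0⟩ := hd.above (i := b0) (t := t) (by have := hBd b0 hb0; omega)
    have hLpos : 0 < (Finset.univ.filter (fun i => d i = t)).card :=
      Finset.card_pos.2 ⟨a0, by simp [ha0]⟩
    have hex : ∀ b, ∃ q a, t + 2 ≤ d b → (S.rel b q ∧ S.rel q a ∧ d a = t ∧
        ∀ c, S.rel b c → ¬ S.rel c q) := by
      intro b
      by_cases hb : t + 2 ≤ d b
      · obtain ⟨q, a, h⟩ := hd.cover t hb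
        exact ⟨q, a, fun _ => h⟩
      · exact ⟨b, b, fun h => absurd h hb⟩
    choose q astar hqa using hex
    refine S.main_lemma (Finset.univ.filter (fun i => d i = t)) B (fun _ => True) q astar
      ?_ ?_ ?_ ?_ ?_ ?_
    · intro i hi hi'
      have h1 := hBd i hi'
      simp only [Finset.mem_filter, Finset.mem_univ, true_and] at hi
      omega
    · intro i hi j hj
      simp only [Finset.mem_filter, Finset.mem_univ, true_and] at hi hj
      exact hd.anti (by omega)
    · intro b hb a ha hrel
      simp only [Finset.mem_filter, Finset.mem_univ, true_and] at ha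
      have h1 := hd.lt _ _ hrel
      have h2 := hBd b hb
      omega
    · intro b hb h2 _
      obtain ⟨h3, h4, h5, h6⟩ := hqa b (hBd b hb)
      refine ⟨h3, h4, by simp [h5], fun c _ => h6 c, ?_⟩
      have h7 := S.nB_le_card hb
      have h8 := hp (astar b)
      omega
    · intro b hb h2 hF
      exact absurd trivial hF
    · intro a ha
      simp only [Finset.mem_filter, Finset.mem_univ, true_and] at ha
      have hc : ∀ b, S.cost B (fun _ => True) astar b a =
          if S.rel b a then (if a = astar b ∧ 2 ≤ S.nB B b then 2 else 1) else 0 := by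
        intro b
        unfold cost
        simp
      have h0 : ∀ b ∈ B, S.cost B (fun _ => True) astar b a ≤ 2 := by
        intro b hb
        rw [hc b]
        split_ifs <;> omega
      have h00 : S.cost B (fun _ => True) astar b0 a ≤ 1 := by
        rw [hc b0]
        split_ifs <;> omega
      have h1 : ∑ b ∈ B, S.cost B (fun _ => True) astar b a ≤ 2 * (B.card - 1) + 1 := by
        rw [← Finset.sum_erase_add B _ hb0]
        have h2 : ∑ b ∈ B.erase b0, S.cost B (fun _ => True) astar b a ≤ ∑ b ∈ B.erase b0, 2 :=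
          Finset.sum_le_sum (fun b hb => h0 b (Finset.mem_of_mem_erase hb))
        rw [Finset.sum_const, smul_eq_mul, Finset.card_erase_of_mem hb0] at h2
        omega
      have h2 := hr a ha
      have h3 : 0 < B.card := Finset.card_pos.2 ⟨b0, hb0⟩
      omega

/-- everything from a level of large ranks on -/
theorem IsDepth.tail {d : ι → ℕ} (hd : S.IsDepth d) [Finite G] [Fintype ι] {f : ℕ}
    (hf : S.CBound f) (t : ℕ) (hp : ∀ i, f ≤ S.p i)
    (hr : ∀ a, d a = t → (f + 1) * (f + 1) ≤ S.r a) (hr' : ∀ a, d a = t + 1 → f ≤ S.r a) :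
    (Finset.univ.filter (fun i => t ≤ d i)).card ≤ f := by
  classical
  have hsplit : (Finset.univ.filter (fun i => t ≤ d i)).card =
      (Finset.univ.filter (fun i => d i = t)).card +
      (Finset.univ.filter (fun i => t + 1 ≤ d i)).card := by
    rw [← Finset.card_union_of_disjoint]
    · congr 1
      ext i
      simp only [Finset.mem_filter, Finset.mem_univ, true_and, Finset.mem_union]
      omega
    · rw [Finset.disjoint_left]
      intro i hi hi'
      simp only [Finset.mem_filter, Finset.mem_univ, true_and] at hi hi'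
      omega
  rw [hsplit]
  refine S.contra hf ?_ ?_ ?_
  · intro i hi hi'
    simp only [Finset.mem_filter, Finset.mem_univ, true_and] at hi hi'
    omega
  · intro i hi j hj
    simp only [Finset.mem_filter, Finset.mem_univ, true_and] at hi hj
    exact hd.anti (by omega)
  · intro B hB hBn hcard
    have hBd : ∀ b ∈ B, t + 1 ≤ d b := by
      intro b hb
      have := hB hb
      simpa using this
    obtain ⟨b0, hb0⟩ := hBn
    obtain ⟨a0, -, ha0⟩ := hd.above (i := b0) (t := t) (by have := hBd b0 hb0; omega)
    have hLpos : 0 < (Finset.univ.filter (fun i => d i = t)).card :=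
      Finset.card_pos.2 ⟨a0, by simp [ha0]⟩
    have hex : ∀ b, ∃ q a, t + 2 ≤ d b → (S.rel b q ∧ S.rel q a ∧ d a = t ∧
        ∀ c, S.rel b c → ¬ S.rel c q) := by
      intro b
      by_cases hb : t + 2 ≤ d b
      · obtain ⟨q, a, h⟩ := hd.cover t hb
        exact ⟨q, a, fun _ => h⟩
      · exact ⟨b, b, fun h => absurd h hb⟩
    choose q astar hqa using hex
    refine S.main_lemma (Finset.univ.filter (fun i => d i = t)) B (fun b => t + 2 ≤ d b) q astar
      ?_ ?_ ?_ ?_ ?_ ?_
    · intro i hi hi'
      have h1 := hBd i hi'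
      simp only [Finset.mem_filter, Finset.mem_univ, true_and] at hi
      omega
    · intro i hi j hj
      simp only [Finset.mem_filter, Finset.mem_univ, true_and] at hi hj
      exact hd.anti (by omega)
    · intro b hb a ha hrel
      simp only [Finset.mem_filter, Finset.mem_univ, true_and] at ha
      have h1 := hd.lt _ _ hrel
      have h2 := hBd b hb
      omega
    · intro b hb h2 hcov
      obtain ⟨h3, h4, h5, h6⟩ := hqa b hcov
      refine ⟨h3, h4, by simp [h5], fun c _ => h6 c, ?_⟩
      have h7 := S.nB_le_card hb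
      have h8 := hp (astar b)
      omega
    · intro b hb h2 hF
      have h3 := hBd b hb
      have h4 : d b = t + 1 := by omega
      refine ⟨fun c hc hrel => ?_, ?_⟩
      · have h5 := hd.lt _ _ hrel
        have h6 := hBd c hc
        omega
      · have h7 := S.nB_le_card hb
        have h8 := hr' b h4
        omega
    · intro a ha
      simp only [Finset.mem_filter, Finset.mem_univ, true_and] at ha
      have h3 : 0 < B.card := Finset.card_pos.2 ⟨b0, hb0⟩
      have h0 : ∀ b ∈ B, S.cost B (fun b => t + 2 ≤ d b) astar b a ≤ B.card + 1 := by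
        intro b hb
        have h7 := S.nB_le_card hb
        unfold cost
        split_ifs <;> omega
      have h1 : ∑ b ∈ B, S.cost B (fun b => t + 2 ≤ d b) astar b a ≤ B.card * (B.card + 1) := by
        have h2 := Finset.sum_le_sum h0
        rw [Finset.sum_const, smul_eq_mul] at h2
        exact h2
      have h2 := hr a ha
      have h4 : B.card ≤ f := by omega
      have h5 : B.card * (B.card + 1) ≤ f * (f + 1) := Nat.mul_le_mul h4 (by omega)
      have h6 : f * (f + 1) < (f + 1) * (f + 1) := by nlinarith
      omega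

theorem IsDepth.level {d : ι → ℕ} (hd : S.IsDepth d) [Fintype ι] {f : ℕ}
    (hf : S.CBound f) (t : ℕ) : (Finset.univ.filter (fun i => d i = t)).card ≤ f := by
  classical
  refine S.antichain_card hf _ ?_
  intro i hi j hj
  simp only [Finset.mem_filter, Finset.mem_univ, true_and] at hi hj
  exact hd.anti (by omega)

theorem card_split {d : ι → ℕ} [Fintype ι] (t : ℕ) :
    (Finset.univ.filter (fun i => t ≤ d i)).card =
      (Finset.univ.filter (fun i => d i = t)).card +
      (Finset.univ.filter (fun i => t + 1 ≤ d i)).card := by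
  classical
  rw [← Finset.card_union_of_disjoint]
  · congr 1
    ext i
    simp only [Finset.mem_filter, Finset.mem_univ, true_and, Finset.mem_union]
    omega
  · rw [Finset.disjoint_left]
    intro i hi hi'
    simp only [Finset.mem_filter, Finset.mem_univ, true_and] at hi hi'
    omega

variable (S)

/-- **Count, constant 4**: all primes of the system larger than `f` -/
theorem card_le_four [Finite G] [Fintype ι]
    (hrank : ∀ i j k, S.rel i j → S.rel j k → S.p k * S.r k ≤ S.r i)
    {f : ℕ} (hf : S.CBound f) (hp : ∀ i, f < S.p i) : Fintype.card ι ≤ 4 * f := by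
  classical
  obtain ⟨d, hd1, hd2⟩ := S.exists_depth
  have hd : S.IsDepth d := ⟨hd1, hd2⟩
  have h0 : Fintype.card ι = (Finset.univ.filter (fun i => 0 ≤ d i)).card := by
    rw [Finset.filter_true_of_mem (fun _ _ => Nat.zero_le _)]
    rfl
  have hp1 : ∀ i, f + 1 ≤ S.p i := hp
  have e0 := hd.level hf 0
  have e1 := hd.level hf 1
  have e2 := hd.pair hf 2 (fun a ha => hd.rank_ge hrank hp1 (by omega))
  have e4 := hd.tail hf 4 (fun i => (hp i).le) (fun a ha => hd.rank_ge2 hrank hp1 (by omega))
    (fun a ha => le_trans (Nat.le_succ f) (hd.rank_ge hrank hp1 (by omega)))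
  have s0 := card_split (d := d) 0
  have s1 := card_split (d := d) 1
  have s2 := card_split (d := d) 2
  have s3 := card_split (d := d) 3
  simp only [zero_add, Nat.reduceAdd] at s0 s1 s2 s3 e2 e4
  omega

/-- **Count, constant 11/3**: all primes of the system at least `2 f` -/
theorem card_le_eleven_thirds [Finite G] [Fintype ι]
    (hrank : ∀ i j k, S.rel i j → S.rel j k → S.p k * S.r k ≤ S.r i)
    {f : ℕ} (hf : S.CBound f) (hp : ∀ i, 2 * f ≤ S.p i) : 3 * Fintype.card ι ≤ 11 * f := by
  classical
  obtain ⟨d, hd1, hd2⟩ := S.exists_depth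
  have hd : S.IsDepth d := ⟨hd1, hd2⟩
  have h0 : Fintype.card ι = (Finset.univ.filter (fun i => 0 ≤ d i)).card := by
    rw [Finset.filter_true_of_mem (fun _ _ => Nat.zero_le _)]
    rfl
  have hfpos : ∀ i : ι, 1 ≤ f := by
    intro i
    by_contra hcon
    have := S.antichain_card hf {i} (by
      intro a ha b hb
      rw [Finset.mem_singleton] at ha hb
      rw [ha, hb]
      exact S.rel_irrefl i)
    rw [Finset.card_singleton] at this
    omega
  have hp1 : ∀ i, f ≤ S.p i := fun i => le_trans (by omega) (hp i)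
  have e0 := hd.level hf 0
  have e1 := hd.level hf 1
  have e2 := hd.pair hf 2 (fun a ha => lt_of_lt_of_le (by have := hfpos a; omega)
    (hd.rank_ge hrank hp (i := a) (by omega)))
  have e3 := hd.pair hf 3 (fun a ha => lt_of_lt_of_le (by have := hfpos a; omega)
    (hd.rank_ge hrank hp (i := a) (by omega)))
  have g2 := hd.skip hf 2 hp1 (fun a ha => hd.rank_ge hrank hp (by omega))
  have g3 := hd.skip hf 3 hp1 (fun a ha => hd.rank_ge hrank hp (by omega))
  have s0 := card_split (d := d) 0
  have s1 := card_split (d := d) 1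
  have s2 := card_split (d := d) 2
  have s3 := card_split (d := d) 3
  have s4 := card_split (d := d) 4
  simp only [zero_add, Nat.reduceAdd] at s0 s1 s2 s3 s4 e2 e3 g2 g3
  omega

end SSys

end MP78a5
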