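import Mathlib.NumberTheory.PrimeCounting

/-!
# MP_78a5c6_al, chapter (E): the arithmetic interface between the mixed count and the table

`cst u t` is the total cost of `u` free steps and `t` covering steps in the mixed count.
-/

namespace MP78a5

/-- total cost of `u` free steps (one level below) and `t` covering steps (two or more levels
below); `2 * t - 1` is truncated subtraction, so `cst u 0 = u`. -/
def cst (u t : ℕ) : ℕ := u * (1 + t) + (2 * t - 1)

/-- the constraints on the level sizes `x = |D₂|`, `y = |D₃|`, `z = |D₄|`, `w = |D_{≥5}|` of an
S-system with all primes at least `T` imply that there are at most `2 f - s` indices of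
depth at least two -/
def Good (f T s : ℕ) : Prop := ∀ x y z w : ℕ,
  (∀ u t, u ≤ y → t ≤ z + w → cst u t < T → x + u + t ≤ f) →
  (∀ u t, u ≤ z → t ≤ w → cst u t < 2 * T → y + u + t ≤ f) →
  z + w ≤ f → x + y + z + w + s ≤ 2 * f

end MP78a5
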