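import Pool.Agent.Lib_MP_78a5c6.MCount
import Pool.Agent.Lib_MP_78a5c6.NumDefs

/-!
# MP_78a5c6_al, chapter (E): the mixed count

`u` indices one level below the antichain `D_t` (free steps) and `v` indices at least two levels
below it (covering steps) can be added to `D_t` as soon as the ranks on `D_t` exceed
`cst u v = u (1 + v) + (2 v - 1)`.
-/

namespace MP78a5

theorem cst_mono {u u' t t' : ℕ} (hu : u' ≤ u) (ht : t' ≤ t) : cst u' t' ≤ cst u t := by
  unfold cst
  have h1 : u' * (1 + t') ≤ u * (1 + t) := Nat.mul_le_mul hu (by omega)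
  omega

namespace SSys

variable {G : Type*} [Group G] {ι : Type*} [LinearOrder ι] {S : SSys G ι}

/-- **mixed count** -/
theorem IsDepth.mixed {d : ι → ℕ} (hd : S.IsDepth d) [Finite G] [Fintype ι] {f : ℕ}
    (hf : S.CBound f) (t : ℕ) (hp : ∀ i, f ≤ S.p i) (hr1 : ∀ a, d a = t + 1 → f ≤ S.r a)
    (u v : ℕ) (hu : u ≤ (Finset.univ.filter (fun i => d i = t + 1)).card)
    (hv : v ≤ (Finset.univ.filter (fun i => t + 2 ≤ d i)).card)
    (hr : ∀ a, d a = t → cst u v < S.r a) :
    (Finset.univ.filter (fun i => d i = t)).card + u + v ≤ f := by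
  classical
  by_contra hcon
  have hlev := hd.level hf t
  set L := Finset.univ.filter (fun i => d i = t) with hL
  have hLd : ∀ a ∈ L, d a = t := by
    intro a ha
    simpa [hL] using ha
  -- shrink `u`, `v`
  obtain ⟨u', v', hu', hv', huv⟩ : ∃ u' v', u' ≤ u ∧ v' ≤ v ∧ L.card + u' + v' = f + 1 := by
    rcases le_or_gt (f + 1 - L.card) u with h | h
    · exact ⟨f + 1 - L.card, 0, h, Nat.zero_le _, by omega⟩
    · exact ⟨u, f + 1 - L.card - u, le_rfl, by omega, by omega⟩
  obtain ⟨B1, hB1, hB1c⟩ := Finset.exists_subset_card_eq (hu'.trans hu)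
  obtain ⟨B2, hB2, hB2c⟩ := Finset.exists_subset_card_eq (hv'.trans hv)
  have hd1 : ∀ b ∈ B1, d b = t + 1 := by
    intro b hb
    have := hB1 hb
    simpa using this
  have hd2 : ∀ b ∈ B2, t + 2 ≤ d b := by
    intro b hb
    have := hB2 hb
    simpa using this
  have hdisj : Disjoint B1 B2 := by
    rw [Finset.disjoint_left]
    intro b h1 h2
    have := hd1 b h1
    have := hd2 b h2
    omega
  set B := B1 ∪ B2 with hB
  have hBc : B.card = u' + v' := by
    rw [hB, Finset.card_union_of_disjoint hdisj, hB1c, hB2c]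
  have hdB : ∀ b ∈ B, t + 1 ≤ d b := by
    intro b hb
    rcases Finset.mem_union.1 hb with h | h
    · exact (hd1 b h).ge
    · have := hd2 b h
      omega
  have hBpos : 0 < B.card := by omega
  obtain ⟨b0, hb0⟩ := Finset.card_pos.1 hBpos
  obtain ⟨a0, -, ha0⟩ := hd.above (i := b0) (t := t) (by have := hdB b0 hb0; omega)
  have hLpos : 0 < L.card := Finset.card_pos.2 ⟨a0, by simp [hL, ha0]⟩
  have hBf : B.card ≤ f := by omega
  -- the numbers `nB`
  have hnB1 : ∀ b ∈ B1, S.nB B b ≤ 1 + v' := by
    intro b hb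
    unfold nB
    have h1 : (B.filter (fun b' => S.rel b' b)) ⊆ B2 := by
      intro x hx
      rw [Finset.mem_filter] at hx
      rcases Finset.mem_union.1 hx.1 with h | h
      · exact absurd hx.2 (hd.anti (by rw [hd1 x h, hd1 b hb]))
      · exact h
    have h2 := Finset.card_le_card h1
    omega
  have hnBf : ∀ b ∈ B, S.nB B b ≤ f := fun b hb => (S.nB_le_card hb).trans hBf
  -- the covering data
  have hex : ∀ b, ∃ q a, t + 2 ≤ d b → (S.rel b q ∧ S.rel q a ∧ d a = t ∧
      ∀ c, S.rel b c → ¬ S.rel c q) := by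
    intro b
    by_cases hb : t + 2 ≤ d b
    · obtain ⟨q, a, h⟩ := hd.cover t hb
      exact ⟨q, a, fun _ => h⟩
    · exact ⟨b, b, fun h => absurd h hb⟩
  choose q astar hqa using hex
  have hmain : ∃ T : S.State, ∀ i ∈ L ∪ B, T.X i ≠ ⊥ := by
    refine S.main_lemma L B (fun b => t + 2 ≤ d b) q astar ?_ ?_ ?_ ?_ ?_ ?_
    · intro i hi hi'
      have h1 := hdB i hi'
      have h2 := hLd i hi
      omega
    · intro i hi j hj
      exact hd.anti (by rw [hLd i hi, hLd j hj])
    · intro b hb a ha hrel
      have h1 := hd.lt _ _ hrel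
      have h2 := hdB b hb
      have h3 := hLd a ha
      omega
    · intro b hb h2 hcov
      obtain ⟨h3, h4, h5, h6⟩ := hqa b hcov
      refine ⟨h3, h4, by simp [hL, h5], fun c _ => h6 c, ?_⟩
      exact (hnBf b hb).trans (hp _)
    · intro b hb h2 hF
      have h3 := hdB b hb
      have h4 : d b = t + 1 := by omega
      refine ⟨fun c hc hrel => ?_, (hnBf b hb).trans (hr1 b h4)⟩
      have h5 := hd.lt _ _ hrel
      have h6 := hdB c hc
      omega
    · intro a ha
      have hda := hLd a ha
      have hmono := cst_mono hu' hv'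
      have hra := hr a hda
      have hsum : ∑ b ∈ B, S.cost B (fun b => t + 2 ≤ d b) astar b a =
          ∑ b ∈ B1, S.cost B (fun b => t + 2 ≤ d b) astar b a +
          ∑ b ∈ B2, S.cost B (fun b => t + 2 ≤ d b) astar b a := Finset.sum_union hdisj
      rw [hsum]
      have e1 : ∑ b ∈ B1, S.cost B (fun b => t + 2 ≤ d b) astar b a ≤ u' * (1 + v') := by
        have h0 : ∀ b ∈ B1, S.cost B (fun b => t + 2 ≤ d b) astar b a ≤ 1 + v' := by
          intro b hb
          have h7 := hnB1 b hb
          have h8 := hd1 b hb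
          unfold cost
          split_ifs <;> omega
        have h2 := Finset.sum_le_sum h0
        rw [Finset.sum_const, smul_eq_mul, hB1c] at h2
        exact h2
      have e2 : ∑ b ∈ B2, S.cost B (fun b => t + 2 ≤ d b) astar b a ≤ 2 * v' - 1 := by
        have hc : ∀ b ∈ B2, S.cost B (fun b => t + 2 ≤ d b) astar b a ≤
            if 2 ≤ S.nB B b then 2 else 1 := by
          intro b hb
          have h8 := hd2 b hb
          unfold cost
          split_ifs <;> omega
        rcases B2.eq_empty_or_nonempty with h | h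
        · rw [h]
          simp
        · -- the lowest index of `B2`
          have hmin := Finset.min'_mem B2 h
          have hone : S.nB B (B2.min' h) = 1 := by
            unfold nB
            rw [Finset.card_eq_zero.2]
            rw [Finset.filter_eq_empty_iff]
            intro x hx hrel
            rcases Finset.mem_union.1 hx with hx | hx
            · have h9 := hd.lt _ _ hrel
              have h10 := hd1 x hx
              have h11 := hd2 _ hmin
              omega
            · exact absurd hrel.1 (not_lt.2 (Finset.min'_le B2 x hx))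
          rw [← Finset.sum_erase_add B2 _ hmin]
          have h3 : ∑ b ∈ B2.erase (B2.min' h), S.cost B (fun b => t + 2 ≤ d b) astar b a ≤
              ∑ b ∈ B2.erase (B2.min' h), 2 := by
            refine Finset.sum_le_sum (fun b hb => ?_)
            have := hc b (Finset.mem_of_mem_erase hb)
            split_ifs at this <;> omega
          rw [Finset.sum_const, smul_eq_mul, Finset.card_erase_of_mem hmin, hB2c] at h3
          have h4 := hc _ hmin
          rw [hone, if_neg (by norm_num)] at h4
          have h5 : 0 < B2.card := Finset.card_pos.2 h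
          omega
      unfold cst at hmono hra
      omega
  obtain ⟨T, hT⟩ := hmain
  have h2 := T.card_le hf (L ∪ B) hT
  rw [Finset.card_union_of_disjoint (Finset.disjoint_left.2 (fun i hi hi' => by
    have h1 := hdB i hi'
    have h3 := hLd i hi
    omega))] at h2
  omega

/-- ranks at depth three: at least twice the bound for the primes -/
theorem IsDepth.rank_ge_two_mul {d : ι → ℕ} (hd : S.IsDepth d) [Finite G]
    (hrank : ∀ i j k, S.rel i j → S.rel j k → S.p k * S.r k ≤ S.r i)
    (hdvd : ∀ j k, S.rel j k → S.r j = 1 → S.p k ∣ S.p j - 1)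
    {N : ℕ} (hN : ∀ i, N ≤ S.p i) (hN3 : 3 ≤ N) {i : ι} (h : 3 ≤ d i) : 2 * N ≤ S.r i := by
  obtain ⟨a, ha, ha2⟩ := hd.above (i := i) (t := 2) (by omega)
  obtain ⟨j, hj, hj1⟩ := hd.above (i := a) (t := 1) (by omega)
  obtain ⟨k, hk, hk0⟩ := hd.above (i := j) (t := 0) (by omega)
  have h1 := hrank i a j ha hj
  have h2 := S.r_pos j
  have h3 := hN j
  rcases Nat.lt_or_ge (S.r j) 2 with h4 | h4
  · have h5 : S.r j = 1 := by omega
    have h6 := hdvd j k hk h5
    have h7 := hN k
    have hpj := S.prime j
    have hpk := S.prime k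
    -- `p k` odd, `p j` odd, so `2 p k ∣ p j - 1`
    have hoj : S.p j % 2 = 1 := by
      rcases hpj.eq_two_or_odd with h | h
      · omega
      · exact h
    have hok : S.p k % 2 = 1 := by
      rcases hpk.eq_two_or_odd with h | h
      · omega
      · exact h
    have h8 : 2 * S.p k ∣ S.p j - 1 := by
      refine Nat.Coprime.mul_dvd_of_dvd_of_dvd ?_ ?_ h6
      · rw [Nat.coprime_two_left, Nat.odd_iff]
        exact hok
      · omega
    have h9 := Nat.le_of_dvd (by omega) h8
    rw [h5, mul_one] at h1
    omega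
  · calc 2 * N ≤ S.p j * S.r j := by nlinarith
      _ ≤ S.r i := h1

variable (S)

/-- **the count with the arithmetic condition `Good`** -/
theorem card_add_le_of_good [Finite G] [Fintype ι]
    (hrank : ∀ i j k, S.rel i j → S.rel j k → S.p k * S.r k ≤ S.r i)
    (hdvd : ∀ j k, S.rel j k → S.r j = 1 → S.p k ∣ S.p j - 1)
    {f T s : ℕ} (hf : S.CBound f) (hp : ∀ i, T ≤ S.p i) (hfT : f < T) (hT : 3 ≤ T)
    (hgood : Good f T s) : Fintype.card ι + s ≤ 4 * f := by
  classical
  obtain ⟨d, hd1, hd2⟩ := S.exists_depth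
  have hd : S.IsDepth d := ⟨hd1, hd2⟩
  have h0 : Fintype.card ι = (Finset.univ.filter (fun i => 0 ≤ d i)).card := by
    rw [Finset.filter_true_of_mem (fun _ _ => Nat.zero_le _)]
    rfl
  have hpf : ∀ i, f ≤ S.p i := fun i => hfT.le.trans (hp i)
  have hpf1 : ∀ i, f + 1 ≤ S.p i := fun i => le_trans hfT (hp i)
  have e0 := hd.level hf 0
  have e1 := hd.level hf 1
  have e4 := hd.tail hf 4 hpf (fun a ha => hd.rank_ge2 hrank hpf1 (by omega))
    (fun a ha => le_trans (Nat.le_succ f) (hd.rank_ge hrank hpf1 (by omega)))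
  have s0 := card_split (d := d) 0
  have s1 := card_split (d := d) 1
  have s2 := card_split (d := d) 2
  have s3 := card_split (d := d) 3
  have s4 := card_split (d := d) 4
  have hg := hgood (Finset.univ.filter (fun i => d i = 2)).card
    (Finset.univ.filter (fun i => d i = 3)).card
    (Finset.univ.filter (fun i => d i = 4)).card
    (Finset.univ.filter (fun i => 5 ≤ d i)).card
    (fun u t hu ht hc => hd.mixed hf 2 hpf
      (fun a ha => le_trans (Nat.le_succ f) (hd.rank_ge hrank hpf1 (by omega))) u t hu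
      (by rw [s4]; exact ht)
      (fun a ha => lt_of_lt_of_le hc (hd.rank_ge hrank hp (by omega))))
    (fun u t hu ht hc => hd.mixed hf 3 hpf
      (fun a ha => le_trans (Nat.le_succ f) (hd.rank_ge hrank hpf1 (by omega))) u t hu ht
      (fun a ha => lt_of_lt_of_le hc (hd.rank_ge_two_mul hrank hdvd hp hT (by omega))))
    (by rw [← s4]; exact e4)
  simp only [zero_add, Nat.reduceAdd] at s0 s1 s2 s3 s4
  omega

end SSys

end MP78a5
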