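import Pool.Agent.Lib_MP_78a5c6.MTools

/-!
# MP_78a5c6_al, chapter (D): the step lemma `step_cover`
-/

namespace MP78a5

open Module Submodule

section aux

variable {G : Type*} [Group G]

/-- a proper subgroup of an elementary abelian group lies in a hyperplane -/
theorem exists_hyperplane [Finite G] {p : ℕ} (hp : p.Prime) (X S₀ : Subgroup G) (hS : S₀ ≤ X)
    (hne : S₀ ≠ X) (hc : ∀ x ∈ X, ∀ y ∈ X, x * y = y * x) (hpow : ∀ x ∈ X, x ^ p = 1) :
    ∃ K : Subgroup G, S₀ ≤ K ∧ K ≤ X ∧ (∃ y ∈ X, y ∉ K) ∧ Nat.card X ≤ p * Nat.card K := by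
  classical
  let T : Set (Subgroup G) := {M | S₀ ≤ M ∧ M ≤ X ∧ M ≠ X}
  have hT : T.Nonempty := ⟨S₀, le_rfl, hS, hne⟩
  have hfin : T.Finite := Set.toFinite T
  obtain ⟨K, ⟨⟨hSK, hKX, hKne⟩, hmax⟩⟩ := hfin.exists_maximal hT
  obtain ⟨y, hy, hyK⟩ : ∃ y ∈ X, y ∉ K := by
    by_contra hcon
    push Not at hcon
    exact hKne (le_antisymm hKX hcon)
  refine ⟨K, hSK, hKX, ⟨y, hy, hyK⟩, ?_⟩
  have hyp : y ^ p = 1 := hpow y hy
  let K' : Subgroup G :=
    { carrier := {x | ∃ k ∈ K, ∃ n : ℕ, x = k * y ^ n}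
      one_mem' := ⟨1, K.one_mem, 0, by simp⟩
      mul_mem' := by
        rintro _ _ ⟨k, hk, n, rfl⟩ ⟨k', hk', n', rfl⟩
        refine ⟨k * k', K.mul_mem hk hk', n + n', ?_⟩
        have h1 : y ^ n * k' = k' * y ^ n := hc _ (X.pow_mem hy n) _ (hKX hk')
        rw [pow_add]
        calc k * y ^ n * (k' * y ^ n') = k * (y ^ n * k') * y ^ n' := by group
          _ = k * (k' * y ^ n) * y ^ n' := by rw [h1]
          _ = k * k' * (y ^ n * y ^ n') := by group
      inv_mem' := by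
        rintro _ ⟨k, hk, n, rfl⟩
        refine ⟨k⁻¹, K.inv_mem hk, (p - 1) * n, ?_⟩
        have h1 : y ^ ((p - 1) * n) = (y ^ n)⁻¹ := by
          rw [eq_inv_iff_mul_eq_one, ← pow_add]
          have : (p - 1) * n + n = p * n := by
            obtain ⟨m, rfl⟩ : ∃ m, p = m + 1 := ⟨p - 1, by have := hp.pos; omega⟩
            simp only [Nat.add_sub_cancel]
            ring
          rw [this, pow_mul, hyp, one_pow]
        rw [h1, mul_inv_rev]
        exact hc _ (X.inv_mem (X.pow_mem hy n)) _ (X.inv_mem (hKX hk)) }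
  have hKK' : K ≤ K' := fun k hk => ⟨k, hk, 0, by simp⟩
  have hyK' : y ∈ K' := ⟨1, K.one_mem, 1, by simp⟩
  have hK'X : K' ≤ X := by
    rintro _ ⟨k, hk, n, rfl⟩
    exact X.mul_mem (hKX hk) (X.pow_mem hy n)
  have hK'eq : K' = X := by
    by_contra hne'
    exact hyK (hmax (y := K') ⟨hSK.trans hKK', hK'X, hne'⟩ hKK' hyK')
  -- surjection
  have hsurj : Function.Surjective (fun z : Fin p × K =>
      (⟨(z.2 : G) * y ^ (z.1 : ℕ), X.mul_mem (hKX z.2.2) (X.pow_mem hy _)⟩ : X)) := by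
    rintro ⟨x, hx⟩
    rw [← hK'eq] at hx
    obtain ⟨k, hk, n, rfl⟩ := hx
    refine ⟨(⟨n % p, Nat.mod_lt _ hp.pos⟩, ⟨k, hk⟩), ?_⟩
    apply Subtype.ext
    change k * y ^ (n % p) = k * y ^ n
    congr 1
    conv_rhs => rw [← Nat.mod_add_div n p, pow_add, pow_mul, hyp, one_pow, mul_one]
  have h2 := Nat.card_le_card_of_surjective _ hsurj
  rw [Nat.card_prod, Nat.card_fin] at h2
  exact h2

/-- powers prime to `p` of an element outside `K` are outside `K`. -/
theorem pow_notMem {p : ℕ} {K : Subgroup G} {y : G} (hy : y ^ p = 1) (hyK : y ∉ K) {n : ℕ}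
    (hn : n.Coprime p) : y ^ n ∉ K := by
  intro h
  apply hyK
  have h1 : y ^ p ∈ K := by rw [hy]; exact K.one_mem
  have h2 : y ^ (Nat.gcd n p : ℤ) ∈ K := by
    rw [Nat.gcd_eq_gcd_ab, zpow_add, zpow_mul, zpow_mul, zpow_natCast, zpow_natCast]
    exact K.mul_mem (K.zpow_mem h _) (K.zpow_mem h1 _)
  rw [hn] at h2
  simpa using h2

variable {F : Type*} [Field F]

/-- nonzero vectors in disjoint blocks of weight spaces are independent -/
theorem linearIndependent_blocks [Finite G] {n : ℕ} (Q : Subgroup G) (Ω : Fin n → Set (G → F))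
    (hΩ : ∀ j, ∀ v ∈ Ω j, ∀ v' ∈ Ω j, (∀ x ∈ Q, v x = v' x) → v = v')
    (hdisj : ∀ i j, i ≠ j → ∀ v ∈ Ω i, ∀ v' ∈ Ω j, ∃ x ∈ Q, v x ≠ v' x)
    (u : Fin n → (G → F)) (hu : ∀ j, u j ∈ ⨆ v : Ω j, wt Q (v : G → F)) (h0 : ∀ j, u j ≠ 0) :
    LinearIndependent F u := by
  classical
  have h1 := fun j => (Submodule.mem_iSup_iff_exists_finsupp _ _).1 (hu j)
  choose f hf hsum using h1
  have hli : LinearIndependent F (fun z : (Σ j : Fin n, {v : Ω j // v ∈ (f j).support}) =>
      f z.1 z.2.1) := by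
    refine linearIndependent_of_wt (A := Q) (χ := fun z => ((z.2.1 : Ω z.1) : G → F)) ?_ ?_ ?_
    · rintro ⟨j, v, hv⟩
      exact hf j v
    · rintro ⟨j, v, hv⟩
      exact Finsupp.mem_support_iff.1 hv
    · rintro ⟨j, v, hv⟩ ⟨j', v', hv'⟩ hne
      by_cases hj : j = j'
      · subst hj
        by_contra hcon
        push Not at hcon
        apply hne
        have h2 : v = v' := Subtype.ext (hΩ j v v.2 v' v'.2 hcon)
        subst h2
        rfl
      · exact hdisj j j' hj v v.2 v' v'.2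
  rw [Fintype.linearIndependent_iff] at hli ⊢
  intro c hc j
  have h2 : ∑ z : (Σ j : Fin n, {v : Ω j // v ∈ (f j).support}), c z.1 • f z.1 z.2.1 = 0 := by
    rw [Fintype.sum_sigma, ← hc]
    apply Finset.sum_congr rfl
    intro i _
    rw [← hsum i, Finsupp.sum, Finset.smul_sum]
    exact Finset.sum_coe_sort (f i).support (fun v => c i • f i v)
  have h3 := hli (fun z => c z.1) h2
  have hne : (f j).support.Nonempty := by
    rw [Finset.nonempty_iff_ne_empty]
    intro he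
    apply h0 j
    rw [← hsum j, Finsupp.sum, he, Finset.sum_empty]
  obtain ⟨v, hv⟩ := hne
  exact h3 ⟨j, v, hv⟩

end aux

namespace SSys

variable {G : Type*} [Group G] {ι : Type*} [LinearOrder ι] (S : SSys G ι)

theorem step_cover_proof [Finite G] [Finite ι] (T : S.State) (b : ι) (hb : T.X b = ⊥)
    (hnb : ∀ c, T.X c ≠ ⊥ → ¬ S.rel c b) (q a : ι) (hbq : S.rel b q) (hqa : S.rel q a)
    (ha : T.X a ≠ ⊥) (hcov : ∀ c, T.X c ≠ ⊥ → S.rel b c → ¬ S.rel c q) :
    ∃ T' : S.State, (∀ c, c ≠ b → T'.X c ≤ T.X c) ∧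
      (∀ c, c ≠ b → c ≠ a → S.rk c (T.X c) ≤ S.rk c (T'.X c) + 1) ∧
      S.rk a (T.X a) ≤ S.rk a (T'.X a) + 2 ∧
      (∀ c, c ≠ b → ¬ S.rel b c → T'.X c = T.X c) ∧
      S.p a ≤ S.rk b (T'.X b) := by
  classical
  have := Fintype.ofFinite ι
  have hp : Fact (S.p b).Prime := ⟨S.prime b⟩
  have hpa : Fact (S.p a).Prime := ⟨S.prime a⟩
  let F := AlgebraicClosure (ZMod (S.p b))
  have hba : S.rel b a := S.rel_trans hbq hqa
  have hab : a ≠ b := hba.1.ne'
  -- the restricted state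
  let T₁ : S.State :=
    { X := fun c => if S.rel b c then T.X c else ⊥
      le := by
        intro c
        split_ifs
        · exact T.le c
        · exact bot_le
      comm := by
        intro i j hij x hx y hy
        have hx' : x ∈ T.X i := by
          split_ifs at hx
          · exact hx
          · rw [Subgroup.mem_bot] at hx
            rw [hx]; exact (T.X i).one_mem
        have hy' : y ∈ T.X j := by
          split_ifs at hy
          · exact hy
          · rw [Subgroup.mem_bot] at hy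
            rw [hy]; exact (T.X j).one_mem
        exact T.comm i j hij x hx' y hy' }
  have hT₁p : ∀ c, S.rel b c → T₁.X c = T.X c := fun c hc => if_pos hc
  have hT₁n : ∀ c, ¬ S.rel b c → T₁.X c = ⊥ := fun c hc => if_neg hc
  have hT₁T : ∀ c, T₁.X c ≤ T.X c := by
    intro c
    by_cases hc : S.rel b c
    · rw [hT₁p c hc]
    · rw [hT₁n c hc]; exact bot_le
  have hb₁ : T₁.X b = ⊥ := hT₁n b (S.rel_irrefl b)
  have hnb₁ : ∀ c, T₁.X c ≠ ⊥ → ¬ S.rel c b := by
    intro c hc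
    refine hnb c (fun h => hc ?_)
    rw [eq_bot_iff, ← h]
    exact hT₁T c
  -- members of `T₁` normalise `Q = P q`
  have hQn : ∀ c, ∀ x ∈ T₁.X c, ∀ y ∈ S.P q, x * y * x⁻¹ ∈ S.P q := by
    intro c x hx y hy
    by_cases h0 : T₁.X c = ⊥
    · rw [h0, Subgroup.mem_bot] at hx
      rw [hx]
      simpa using hy
    · have hbc : S.rel b c := by
        by_contra hbc
        exact h0 (hT₁n c hbc)
      have h0' : T.X c ≠ ⊥ := by rw [← hT₁p c hbc]; exact h0
      have h1 : ¬ S.rel c q := hcov c h0' hbc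
      have hx' : x ∈ S.P c := T₁.le c hx
      by_cases hcq : c = q
      · subst hcq
        exact (S.P c).mul_mem ((S.P c).mul_mem hx' hy) ((S.P c).inv_mem hx')
      · by_cases hqc : S.rel q c
        · exact S.norm q c hqc.1 x hx' y hy
        · rw [S.commute_of_not_rel h1 hqc hx' hy]
          simpa using hy
  have hBQ : ∀ x ∈ T₁.A, ∀ y ∈ S.P q, x * y * x⁻¹ ∈ S.P q := by
    intro x hx
    refine Subgroup.iSup_induction T₁.X (C := fun x => ∀ y ∈ S.P q, x * y * x⁻¹ ∈ S.P q) hx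
      hQn ?_ ?_
    · intro y hy
      simpa using hy
    · intro x x' h h' y hy
      have h1 := h _ (h' y hy)
      have e : x * (x' * y * x'⁻¹) * x⁻¹ = x * x' * y * (x * x')⁻¹ := by group
      rwa [e] at h1
  have hBQ' : ∀ x ∈ T₁.A, ∀ y ∈ S.P q, x⁻¹ * y * x ∈ S.P q := by
    intro x hx y hy
    simpa using hBQ x⁻¹ (T₁.A.inv_mem hx) y hy
  have hBP := T₁.A_norm hnb₁
  have hBP' := T₁.A_norm' hnb₁
  -- a moved weight
  obtain ⟨y₀, hy₀, hy₀1⟩ : ∃ y ∈ T.X a, y ≠ 1 := by
    by_contra hcon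
    push Not at hcon
    exact ha ((Subgroup.eq_bot_iff_forall _).2 hcon)
  have hXaA : T.X a ≤ T₁.A := by
    rw [← hT₁p a hba]
    exact T₁.X_le_A a
  obtain ⟨w, hw, hwy⟩ := exists_Wts_moved (F := F) (p := S.p b) (S.P q) (S.P b) (S.comm q)
    (S.card_ne_zero hbq.1.ne F) (S.comm b) (S.pow b)
    (fun a ha x hx => S.conj_mem hbq.1.le ha hx) (fun x hx h => S.faithful hbq hx h)
    (g := y₀) (fun x hx => hBQ' y₀ (hXaA hy₀) x hx)
    (fun h => hy₀1 (S.faithful hqa (T.le a hy₀) h))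
  -- its stabiliser and a hyperplane
  let S₀ : Subgroup G :=
    { carrier := {x | x ∈ T.X a ∧ act F x w = w}
      one_mem' := ⟨(T.X a).one_mem, by simp⟩
      mul_mem' := by
        rintro x y ⟨hx, hx'⟩ ⟨hy, hy'⟩
        exact ⟨(T.X a).mul_mem hx hy, by rw [act_mul_apply, hy', hx']⟩
      inv_mem' := by
        rintro x ⟨hx, hx'⟩
        refine ⟨(T.X a).inv_mem hx, ?_⟩
        conv_lhs => rw [← hx']
        rw [act_inv_act] }
  have hS₀X : S₀ ≤ T.X a := fun x hx => hx.1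
  have hS₀ne : S₀ ≠ T.X a := by
    intro h
    apply hwy
    have : y₀ ∈ S₀ := by rw [h]; exact hy₀
    exact this.2
  obtain ⟨K, hS₀K, hKX, ⟨y, hy, hyK⟩, hKcard⟩ := exists_hyperplane (S.prime a) (T.X a) S₀ hS₀X
    hS₀ne (fun x hx y hy => S.comm a x (T.le a hx) y (T.le a hy))
    (fun x hx => S.pow a x (T.le a hx))
  have hyp : y ^ S.p a = 1 := S.pow a y (T.le a hy)
  have hyA : y ∈ T₁.A := hXaA hy
  have hKrk : S.rk a (T.X a) ≤ S.rk a K + 1 := by
    rw [S.card_eq_rk (T.le a), S.card_eq_rk (hKX.trans (T.le a)), mul_comm, ← pow_succ] at hKcard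
    exact (Nat.pow_le_pow_iff_right (S.prime a).one_lt).1 hKcard
  -- the state `T₂` with `K` in place of `X a`
  let T₂ : S.State :=
    { X := fun c => if c = a then K else T₁.X c
      le := by
        intro c
        by_cases hc : c = a
        · subst hc
          simp only [if_true]
          exact hKX.trans (T.le c)
        · simp only [hc, if_false]
          exact T₁.le c
      comm := by
        intro i j hij x hx y hy
        have hx' : x ∈ T₁.X i := by
          by_cases hi : i = a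
          · subst hi
            simp only [if_true] at hx
            rw [hT₁p i hba]
            exact hKX hx
          · simpa only [hi, if_false] using hx
        have hy' : y ∈ T₁.X j := by
          by_cases hj : j = a
          · subst hj
            simp only [if_true] at hy
            rw [hT₁p j hba]
            exact hKX hy
          · simpa only [hj, if_false] using hy
        exact T₁.comm i j hij x hx' y hy' }
  have hT₂a : T₂.X a = K := if_pos rfl
  have hT₂n : ∀ c, c ≠ a → T₂.X c = T₁.X c := fun c hc => if_neg hc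
  have hT₂T₁ : ∀ c, T₂.X c ≤ T₁.X c := by
    intro c
    by_cases hc : c = a
    · subst hc
      rw [hT₂a, hT₁p c hba]
      exact hKX
    · rw [hT₂n c hc]
  have hA₂A₁ : T₂.A ≤ T₁.A := iSup_mono hT₂T₁
  -- the exponent `e`
  let e : ℕ := ∏ c ∈ Finset.univ.erase a, S.p c
  have hecop : e.Coprime (S.p a) := by
    apply Nat.Coprime.prod_left
    intro c hc
    rw [Nat.coprime_primes (S.prime c) (S.prime a)]
    exact fun h => (Finset.mem_erase.1 hc).1 (S.inj h)
  have hmK : ∀ m ∈ T₂.A, m ^ e ∈ K := by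
    intro m hm
    have h : m ∈ T₂.A ∧ m ^ e ∈ K := by
      refine Subgroup.iSup_induction T₂.X (C := fun m => m ∈ T₂.A ∧ m ^ e ∈ K) hm ?_
        ⟨T₂.A.one_mem, by rw [one_pow]; exact K.one_mem⟩ ?_
      · intro c x hx
        refine ⟨T₂.X_le_A c hx, ?_⟩
        by_cases hc : c = a
        · subst hc
          rw [hT₂a] at hx
          exact K.pow_mem hx e
        · have h1 : S.p c ∣ e :=
            Finset.dvd_prod_of_mem _ (Finset.mem_erase.2 ⟨hc, Finset.mem_univ c⟩)
          obtain ⟨m, hm⟩ := h1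
          rw [hm, pow_mul, S.pow c x (T₂.le c hx), one_pow]
          exact K.one_mem
      · rintro x y ⟨hx, hx'⟩ ⟨hy, hy'⟩
        refine ⟨T₂.A.mul_mem hx hy, ?_⟩
        have hc : Commute x y := T₂.A_comm x hx y hy
        rw [hc.mul_pow]
        exact K.mul_mem hx' hy'
    exact h.2
  -- the key disjointness
  have hkey : ∀ m ∈ T₂.A, ∀ j : ℕ, j.Coprime (S.p a) → act F (m * y ^ j) w ≠ w := by
    intro m hm j hj h
    have hpw : ∀ n : ℕ, act F ((m * y ^ j) ^ n) w = w := by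
      intro n
      induction n with
      | zero => simp
      | succ n ih => rw [pow_succ, act_mul_apply, h, ih]
    have h1 := hpw e
    have hc : Commute m (y ^ j) := T₁.A_comm m (hA₂A₁ hm) _ (T₁.A.pow_mem hyA j)
    rw [hc.mul_pow, ← pow_mul] at h1
    have h2 : m ^ e * y ^ (j * e) ∈ S₀ :=
      ⟨(T.X a).mul_mem (hKX (hmK m hm)) ((T.X a).pow_mem hy _), h1⟩
    have h3 : y ^ (j * e) ∈ K := by
      have := K.mul_mem (K.inv_mem (hmK m hm)) (hS₀K h2)
      simpa using this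
    exact pow_notMem hyp hyK (Nat.Coprime.mul_left hj hecop) h3
  -- the invariant space
  let Ω₀ : Set (G → F) := {v | ∃ s ∈ T₂.A, v = act F s w}
  let U : Submodule F (G → F) := ⨆ v : Ω₀, V F (S.P b) ⊓ wt (S.P q) (v : G → F)
  have hUV : U ≤ V F (S.P b) := iSup_le (fun v => inf_le_left)
  have hUinv : ∀ t ∈ T₂.A, ∀ f ∈ U, act F t f ∈ U := by
    intro t ht f hf
    have h1 : U ≤ U.comap (act F t) := by
      refine iSup_le ?_
      rintro ⟨_, s, hs, rfl⟩ f ⟨hf, hf'⟩
      rw [Submodule.mem_comap]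
      have h2 : act F t f ∈ V F (S.P b) ⊓ wt (S.P q) (act F (t * s) w) := by
        refine ⟨act_mem_V hf (hBP t (hA₂A₁ ht)) (hBP' t (hA₂A₁ ht)), ?_⟩
        rw [act_mul_apply]
        exact act_mem_wt hf' (hBQ' t (hA₂A₁ ht))
      exact (le_iSup (fun v : Ω₀ => V F (S.P b) ⊓ wt (S.P q) (v : G → F))
        ⟨act F (t * s) w, t * s, T₂.A.mul_mem ht hs, rfl⟩) h2
    exact h1 hf
  have hU0 : U ≠ ⊥ := by
    intro h
    obtain ⟨-, f, hfV, hfw, hf0⟩ := hw
    apply hf0
    have h1 : f ∈ U := (le_iSup (fun v : Ω₀ => V F (S.P b) ⊓ wt (S.P q) (v : G → F))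
      ⟨w, 1, T₂.A.one_mem, by simp⟩) ⟨hfV, hfw⟩
    rw [h] at h1
    exact (Submodule.mem_bot F).1 h1
  obtain ⟨χ, -, u, huU, huχ, hu0⟩ := exists_wt_mem (F := F) T₂.A T₂.A_comm
    (T₁.card_ne_zero b hb₁ F hA₂A₁) U hUinv hU0
  -- the vectors `y ^ j u`
  let u' : Fin (S.p a) → (G → F) := fun j => act F (y ^ (j : ℕ)) u
  have hyjA : ∀ j : ℕ, y ^ j ∈ T₁.A := fun j => T₁.A.pow_mem hyA j
  have hu'V : ∀ j, u' j ∈ V F (S.P b) := fun j =>
    act_mem_V (hUV huU) (hBP _ (hyjA j)) (hBP' _ (hyjA j))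
  have hu'χ : ∀ j, ∀ t ∈ T₂.A, act F t (u' j) = χ t • u' j := by
    intro j t ht
    change act F t (act F (y ^ (j : ℕ)) u) = _
    rw [← act_mul_apply, T₁.A_comm t (hA₂A₁ ht) _ (hyjA j), act_mul_apply, huχ t ht, map_smul]
  let Ω : Fin (S.p a) → Set (G → F) := fun j => {v | ∃ s ∈ T₂.A, v = act F (y ^ (j : ℕ) * s) w}
  have hΩW : ∀ j, ∀ v ∈ Ω j, v ∈ Wts F (S.P q) (S.P b) := by
    rintro j _ ⟨s, hs, rfl⟩
    have h1 : y ^ (j : ℕ) * s ∈ T₁.A := T₁.A.mul_mem (hyjA j) (hA₂A₁ hs)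
    exact act_mem_Wts hw (hBQ _ h1) (hBQ' _ h1) (hBP _ h1) (hBP' _ h1)
  have hli : LinearIndependent F u' := by
    refine linearIndependent_blocks (S.P q) Ω ?_ ?_ u' ?_ ?_
    · intro j v hv v' hv' h
      exact Wts_ext (hΩW j v hv) (hΩW j v' hv') h
    · intro i j hij v hv v' hv'
      by_contra hcon
      push Not at hcon
      have h1 := Wts_ext (hΩW i v hv) (hΩW j v' hv') hcon
      obtain ⟨s, hs, rfl⟩ := hv
      obtain ⟨t, ht, rfl⟩ := hv'
      -- wlog `j < i` in the exponents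
      have hmain : ∀ (i j : ℕ) (s t : G), s ∈ T₂.A → t ∈ T₂.A → j < i → i < S.p a →
          act F (y ^ i * s) w ≠ act F (y ^ j * t) w := by
        intro i j s t hs ht hji hip h
        refine hkey (t⁻¹ * s) (T₂.A.mul_mem (T₂.A.inv_mem ht) hs) (i - j) ?_ ?_
        · rw [Nat.coprime_comm, Nat.Prime.coprime_iff_not_dvd (S.prime a)]
          intro hd
          have := Nat.le_of_dvd (by omega) hd
          omega
        · have h2 : t⁻¹ * s * y ^ (i - j) = (y ^ j * t)⁻¹ * (y ^ i * s) := by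
            have h3 : y ^ i = y ^ j * y ^ (i - j) := by rw [← pow_add]; congr 1; omega
            have h4 : s * y ^ (i - j) = y ^ (i - j) * s :=
              T₁.A_comm s (hA₂A₁ hs) _ (hyjA (i - j))
            rw [h3, mul_assoc, h4]
            group
          rw [h2, act_mul_apply, h, ← act_mul_apply, inv_mul_cancel, act_one]
          rfl
      rcases lt_trichotomy (i : ℕ) (j : ℕ) with hlt | heq | hlt
      · exact hmain j i t s ht hs hlt j.2 h1.symm
      · exact hij (Fin.ext heq)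
      · exact hmain i j s t hs ht hlt i.2 h1
    · intro j
      have h1 : U ≤ (⨆ v : Ω j, wt (S.P q) (v : G → F)).comap (act F (y ^ (j : ℕ))) := by
        refine iSup_le ?_
        rintro ⟨_, s, hs, rfl⟩ f ⟨-, hf'⟩
        rw [Submodule.mem_comap]
        have h2 : act F (y ^ (j : ℕ)) f ∈ wt (S.P q) (act F (y ^ (j : ℕ) * s) w) := by
          rw [act_mul_apply]
          exact act_mem_wt hf' (hBQ' _ (hyjA j))
        exact (le_iSup (fun v : Ω j => wt (S.P q) (v : G → F))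
          ⟨act F (y ^ (j : ℕ) * s) w, s, hs, rfl⟩) h2
      exact h1 huU
    · intro j h
      apply hu0
      apply act_injective F (y ^ (j : ℕ))
      rw [map_zero]
      exact h
  -- the new subgroups
  have hχ1 : χ 1 = 1 := wt_one huχ hu0
  have hχm : ∀ c, ∀ x ∈ T₂.X c, ∀ y ∈ T₂.X c, χ (x * y) = χ x * χ y :=
    fun c x hx y hy => wt_mul huχ hu0 (T₂.X_le_A c hx) (T₂.X_le_A c hy)
  let X' : ι → Subgroup G := fun c => if S.rel b c then ker1 (T₂.X c) χ hχ1 (hχm c) else T.X c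
  have hX'p : ∀ c, S.rel b c → X' c = ker1 (T₂.X c) χ hχ1 (hχm c) := fun c hc => if_pos hc
  have hX'n : ∀ c, ¬ S.rel b c → X' c = T.X c := fun c hc => if_neg hc
  have hX'T : ∀ c, X' c ≤ T.X c := by
    intro c
    by_cases hc : S.rel b c
    · rw [hX'p c hc]
      exact fun x hx => hT₁T c (hT₂T₁ c hx.1)
    · rw [hX'n c hc]
  obtain ⟨T', hT', hkb⟩ := T.finish hb hnb X' (fun c _ => hX'T c) u' hli hu'V (by
    intro j c _ x hx
    by_cases hc : S.rel b c
    · rw [hX'p c hc] at hx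
      rw [hu'χ j x (T₂.X_le_A c hx.1), hx.2, one_smul]
    · rw [hX'n c hc] at hx
      exact act_eq_self (hu'V j) (fun z hz => T.X_cent hnb hc hx hz))
  refine ⟨T', ?_, ?_, ?_, ?_, hkb⟩
  · intro c hc
    rw [hT' c hc]
    exact hX'T c
  · intro c hc hca
    rw [hT' c hc]
    by_cases hbc : S.rel b c
    · rw [hX'p c hbc]
      have h1 := rk_le_rk_ker1 (S := S) (T₂.le c) χ hχ1 (hχm c)
      have h2 : T₂.X c = T.X c := by rw [hT₂n c hca, hT₁p c hbc]
      calc S.rk c (T.X c) = S.rk c (T₂.X c) := by rw [h2]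
        _ ≤ _ := h1
    · rw [hX'n c hbc]
      exact Nat.le_succ _
  · rw [hT' a hab, hX'p a hba]
    have h1 := rk_le_rk_ker1 (S := S) (T₂.le a) χ hχ1 (hχm a)
    have h2 : S.rk a (T₂.X a) = S.rk a K := by rw [hT₂a]
    omega
  · intro c hc hbc
    rw [hT' c hc, hX'n c hbc]

end SSys

end MP78a5
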