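import Pool.Agent.Lib_MP_78a5c6.MTools

/-!
# MP_78a5c6_al, chapter (D): the step lemma `step_free`
-/

namespace MP78a5

open Module Submodule

namespace SSys

variable {G : Type*} [Group G] {ι : Type*} [LinearOrder ι] (S : SSys G ι)

theorem step_free_proof [Finite G] [Finite ι] (T : S.State) (b : ι) (hb : T.X b = ⊥)
    (hnb : ∀ c, T.X c ≠ ⊥ → ¬ S.rel c b) (k : ℕ) (hk : k ≤ S.r b) :
    ∃ T' : S.State, (∀ c, c ≠ b → T'.X c ≤ T.X c) ∧
      (∀ c, c ≠ b → S.rk c (T.X c) ≤ S.rk c (T'.X c) + k) ∧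
      (∀ c, c ≠ b → ¬ S.rel b c → T'.X c = T.X c) ∧
      k ≤ S.rk b (T'.X b) := by
  classical
  have hp : Fact (S.p b).Prime := ⟨S.prime b⟩
  let F := AlgebraicClosure (ZMod (S.p b))
  have hdim : finrank F (V F (S.P b)) = S.r b :=
    finrank_V (p := S.p b) (S.P b) (S.comm b) (S.pow b) (S.card_P b)
  obtain ⟨u, χ, hu, huV, huw⟩ := exists_linearIndependent_wt (F := F) T.A T.A_comm
    (T.card_ne_zero b hb F le_rfl) (V F (S.P b))
    (fun a ha f hf => act_mem_V hf (T.A_norm hnb a ha) (T.A_norm' hnb a ha))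
    (k := k) (by rw [hdim]; exact hk)
  have hu0 : ∀ i, u i ≠ 0 := fun i => hu.ne_zero i
  have hX : ∀ c, ∃ X' : Subgroup G,
      (∀ x, x ∈ X' ↔ x ∈ T.X c ∧ ∀ i ∈ (Finset.univ : Finset (Fin k)), χ i x = 1) ∧
      S.rk c (T.X c) ≤ S.rk c X' + (Finset.univ : Finset (Fin k)).card := by
    intro c
    refine exists_common_kernel (S := S) (T.le c) Finset.univ χ
      (fun i _ => wt_one (huw i) (hu0 i)) (fun i _ a ha b hb => ?_)
    exact wt_mul (huw i) (hu0 i) (T.X_le_A c ha) (T.X_le_A c hb)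
  choose X' hX' hrk using hX
  have hX'le : ∀ c, X' c ≤ T.X c := fun c x hx => ((hX' c x).1 hx).1
  obtain ⟨T', hT', hkb⟩ := T.finish hb hnb X' (fun c _ => hX'le c) u hu huV (by
    intro i c _ a ha
    have h1 := (hX' c a).1 ha
    rw [huw i a (T.X_le_A c h1.1), h1.2 i (Finset.mem_univ i), one_smul])
  refine ⟨T', ?_, ?_, ?_, hkb⟩
  · intro c hc
    rw [hT' c hc]
    exact hX'le c
  · intro c hc
    rw [hT' c hc]
    have := hrk c
    simpa using this
  · intro c hc hbc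
    rw [hT' c hc]
    apply le_antisymm (hX'le c)
    intro x hx
    rw [hX' c x]
    refine ⟨hx, fun i _ => ?_⟩
    have h1 := huw i x (T.X_le_A c hx)
    rw [act_eq_self (huV i) (fun y hy => T.X_cent hnb hbc hx hy)] at h1
    have h2 : (1 : F) • u i = χ i x • u i := by rw [one_smul]; exact h1
    exact (smul_left_injective F (hu0 i) h2).symm

end SSys

end MP78a5
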