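import Pool.Agent.Lib_MP_78a5c6.MDefs

/-!
# MP_78a5c6_al, chapter (D): ranks of subgroups, antichain states, depth
-/

namespace MP78a5

namespace SSys

variable {G : Type*} [Group G] {ι : Type*} [LinearOrder ι] (S : SSys G ι)

theorem card_eq_rk [Finite G] {i : ι} {X : Subgroup G} (hX : X ≤ S.P i) :
    Nat.card X = S.p i ^ S.rk i X := by
  have : Fact (S.p i).Prime := ⟨S.prime i⟩
  have hp : IsPGroup (S.p i) X := (S.isPGroup i).to_le hX
  obtain ⟨n, hn⟩ := IsPGroup.iff_card.1 hp
  unfold rk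
  rw [hn, Nat.Prime.factorization_pow (S.prime i)]
  simp

theorem rk_P (i : ι) : S.rk i (S.P i) = S.r i := rfl

theorem rk_bot (i : ι) : S.rk i (⊥ : Subgroup G) = 0 := by
  unfold rk
  simp

theorem rk_eq_zero [Finite G] {i : ι} {X : Subgroup G} (hX : X ≤ S.P i) :
    S.rk i X = 0 ↔ X = ⊥ := by
  constructor
  · intro h
    have h1 := S.card_eq_rk hX
    rw [h, pow_zero] at h1
    exact Subgroup.card_eq_one.1 h1
  · rintro rfl
    exact S.rk_bot i

theorem rk_mono [Finite G] {i : ι} {X Y : Subgroup G} (hXY : X ≤ Y) (hY : Y ≤ S.P i) :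
    S.rk i X ≤ S.rk i Y := by
  have h1 := S.card_eq_rk (hXY.trans hY)
  have h2 := S.card_eq_rk hY
  have h3 : Nat.card X ≤ Nat.card Y := Nat.card_le_card_of_injective (Subgroup.inclusion hXY)
    (Subgroup.inclusion_injective hXY)
  rw [h1, h2] at h3
  exact (Nat.pow_le_pow_iff_right (S.prime i).one_lt).1 h3

/-- a nontrivial member of a state from its rank -/
theorem State.ne_bot {S : SSys G ι} (T : S.State) {i : ι} (h : 0 < S.rk i (T.X i)) :
    T.X i ≠ ⊥ := by
  intro h0
  rw [h0, S.rk_bot] at h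
  exact lt_irrefl _ h

/-- the number of nontrivial members of a state is bounded by `f` -/
theorem State.card_le {S : SSys G ι} {f : ℕ}
    (hf : ∀ (s : Finset ι) (x : ι → G), (∀ i ∈ s, x i ∈ S.P i ∧ x i ≠ 1) →
      (∀ i ∈ s, ∀ j ∈ s, x i * x j = x j * x i) → s.card ≤ f)
    (T : S.State) (A : Finset ι) (hA : ∀ i ∈ A, T.X i ≠ ⊥) : A.card ≤ f := by
  classical
  have h1 : ∀ i, ∃ x : G, x ∈ T.X i ∧ (i ∈ A → x ≠ 1) := by
    intro i
    by_cases hi : i ∈ A
    · obtain ⟨x, hx, hx1⟩ := (Subgroup.ne_bot_iff_exists_ne_one).1 (hA i hi) |>.elim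
        (fun a ha => (⟨a.1, a.2, fun h => ha (Subtype.ext h)⟩ : ∃ x : G, x ∈ T.X i ∧ x ≠ 1))
      exact ⟨x, hx, fun _ => hx1⟩
    · exact ⟨1, (T.X i).one_mem, fun h => absurd h hi⟩
  choose x hx hx1 using h1
  refine hf A x (fun i hi => ⟨T.le i (hx i), hx1 i hi⟩) (fun i _ j _ => ?_)
  by_cases hij : i = j
  · subst hij; rfl
  · exact T.comm i j hij _ (hx i) _ (hx j)

/-- the state of an antichain -/
theorem exists_antichain_state (L : Finset ι) (hL : ∀ i ∈ L, ∀ j ∈ L, ¬ S.rel i j) :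
    ∃ T : S.State, (∀ i ∈ L, T.X i = S.P i) ∧ ∀ i, i ∉ L → T.X i = ⊥ := by
  classical
  refine ⟨⟨fun i => if i ∈ L then S.P i else ⊥, ?_, ?_⟩, ?_, ?_⟩
  · intro i
    split_ifs
    · exact le_rfl
    · exact bot_le
  · intro i j _ x hx y hy
    split_ifs at hx with hi
    · split_ifs at hy with hj
      · exact S.commute_of_not_rel (hL i hi j hj) (hL j hj i hi) hx hy
      · rw [Subgroup.mem_bot] at hy
        rw [hy]; simp
    · rw [Subgroup.mem_bot] at hx
      rw [hx]; simp
  · intro i hi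
    exact if_pos hi
  · intro i hi
    exact if_neg hi

/-- an antichain has at most `f` elements -/
theorem antichain_card {f : ℕ}
    (hf : ∀ (s : Finset ι) (x : ι → G), (∀ i ∈ s, x i ∈ S.P i ∧ x i ≠ 1) →
      (∀ i ∈ s, ∀ j ∈ s, x i * x j = x j * x i) → s.card ≤ f)
    (L : Finset ι) (hL : ∀ i ∈ L, ∀ j ∈ L, ¬ S.rel i j) : L.card ≤ f := by
  obtain ⟨T, h1, -⟩ := S.exists_antichain_state L hL
  refine T.card_le hf L (fun i hi => ?_)
  rw [h1 i hi]
  exact S.ne_bot i

/-- a depth function (`d i` = length of the longest chain above `i`) -/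
theorem exists_depth [Finite ι] : ∃ d : ι → ℕ, (∀ i j, S.rel i j → d j < d i) ∧
    ∀ i k, d i = k + 1 → ∃ j, S.rel i j ∧ d j = k := by
  classical
  have := Fintype.ofFinite ι
  have hwf : WellFounded (fun a b : ι => b < a) := (Finite.to_wellFoundedGT (α := ι)).wf
  let F : (i : ι) → ((j : ι) → i < j → ℕ) → ℕ := fun i rec =>
    (Finset.univ : Finset ι).sup (fun j => if h : S.rel i j then rec j h.1 + 1 else 0)
  let d : ι → ℕ := hwf.fix F
  have hd : ∀ i, d i = (Finset.univ : Finset ι).sup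
      (fun j => if S.rel i j then d j + 1 else 0) := by
    intro i
    have h := hwf.fix_eq F i
    change d i = F i (fun j _ => d j) at h
    rw [h]
    change (Finset.univ : Finset ι).sup _ = _
    congr 1
  refine ⟨d, ?_, ?_⟩
  · intro i j hij
    have h1 : (if S.rel i j then d j + 1 else 0) ≤ d i := by
      rw [hd i]
      exact Finset.le_sup (f := fun j => if S.rel i j then d j + 1 else 0) (Finset.mem_univ j)
    rw [if_pos hij] at h1
    omega
  · intro i k hik
    rw [hd i] at hik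
    have hne : (Finset.univ : Finset ι).Nonempty := ⟨i, Finset.mem_univ i⟩
    obtain ⟨j, -, hj⟩ := Finset.exists_mem_eq_sup _ hne (fun j => if S.rel i j then d j + 1 else 0)
    rw [hj] at hik
    by_cases hij : S.rel i j
    · rw [if_pos hij] at hik
      exact ⟨j, hij, by omega⟩
    · rw [if_neg hij] at hik
      omega

end SSys

end MP78a5
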