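import Pool.Agent.Lib_MP_78a5c6.MStep
import Pool.Agent.Lib_MP_78a5c6.MState

/-!
# MP_78a5c6_al, chapter (D): the Main Lemma

`L` is an antichain, `B` a set of indices disjoint from `L`, no element of which lies above an
element of `L`. The elements of `B` are added to the antichain state of `L` in descending order of
indices; `nB b` is the rank given to `X b`, one more than the number of elements of `B` below `b`.
-/

namespace MP78a5

namespace SSys

variable {G : Type*} [Group G] {ι : Type*} [LinearOrder ι] (S : SSys G ι)

open Classical in
/-- one more than the number of elements of `B` below `b` -/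
noncomputable def nB (B : Finset ι) (b : ι) : ℕ := 1 + (B.filter (fun b' => S.rel b' b)).card

open Classical in
/-- what the step at `b` costs at `x ∈ L` -/
noncomputable def cost (B : Finset ι) (cov : ι → Prop) (astar : ι → ι) (b x : ι) : ℕ :=
  if S.rel b x then
    (if cov b then (if x = astar b ∧ 2 ≤ S.nB B b then 2 else 1) else S.nB B b) else 0

theorem one_le_nB (B : Finset ι) (b : ι) : 1 ≤ S.nB B b := by
  unfold nB; omega

open Classical in
/-- the **Main Lemma** -/
theorem main_lemma [Finite G] [Finite ι] (L B : Finset ι) (cov : ι → Prop) (q astar : ι → ι)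
    (hdisj : ∀ i ∈ L, i ∉ B) (hanti : ∀ i ∈ L, ∀ j ∈ L, ¬ S.rel i j)
    (htop : ∀ b ∈ B, ∀ a ∈ L, ¬ S.rel a b)
    (hcov : ∀ b ∈ B, 2 ≤ S.nB B b → cov b → S.rel b (q b) ∧ S.rel (q b) (astar b) ∧
      astar b ∈ L ∧ (∀ c ∈ L ∪ B, S.rel b c → ¬ S.rel c (q b)) ∧ S.nB B b ≤ S.p (astar b))
    (hfree : ∀ b ∈ B, 2 ≤ S.nB B b → ¬ cov b →
      (∀ c ∈ B, ¬ S.rel b c) ∧ S.nB B b ≤ S.r b)
    (hcost : ∀ a ∈ L, ∑ b ∈ B, S.cost B cov astar b a < S.r a) :
    ∃ T : S.State, ∀ i ∈ L ∪ B, T.X i ≠ ⊥ := by
  -- the induction
  have key : ∀ s : Finset ι, s ⊆ B → (∀ c ∈ B, ∀ b ∈ s, b < c → c ∈ s) →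
      ∃ T : S.State, (∀ c, c ∉ L ∪ s → T.X c = ⊥) ∧
        (∀ a ∈ L, S.r a ≤ S.rk a (T.X a) + ∑ b ∈ s, S.cost B cov astar b a) ∧
        (∀ c ∈ s, S.nB B c ≤ S.rk c (T.X c) + (s.filter (fun b' => S.rel b' c)).card) := by
    intro s
    induction s using Finset.induction_on_min with
    | empty =>
      intro _ _
      obtain ⟨T, h1, h2⟩ := S.exists_antichain_state L hanti
      refine ⟨T, ?_, ?_, ?_⟩
      · intro c hc
        exact h2 c (by simpa using hc)
      · intro a ha
        rw [h1 a ha]
        simp [rk_P]
      · intro c hc
        simp at hc
    | insert b s hbs ih =>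
      intro hsub hup
      have hbB : b ∈ B := hsub (Finset.mem_insert_self b s)
      have hsB : s ⊆ B := fun x hx => hsub (Finset.mem_insert_of_mem hx)
      have hbs' : b ∉ s := fun h => lt_irrefl b (hbs b h)
      have hbL : b ∉ L := fun h => hdisj b h hbB
      obtain ⟨T, h0, h1, h2⟩ := ih hsB (by
        intro c hc x hx hxc
        rcases Finset.mem_insert.1 (hup c hc x (Finset.mem_insert_of_mem hx) hxc) with h | h
        · exact absurd (h ▸ hxc) (not_lt.2 (hbs x hx).le)
        · exact h)
      have hXb : T.X b = ⊥ := h0 b (by simp [hbL, hbs'])
      have hmem : ∀ c, T.X c ≠ ⊥ → c ∈ L ∪ s := by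
        intro c hc
        by_contra hcon
        exact hc (h0 c hcon)
      have hnb : ∀ c, T.X c ≠ ⊥ → ¬ S.rel c b := by
        intro c hc hrel
        rcases Finset.mem_union.1 (hmem c hc) with h | h
        · exact htop b hbB c h hrel
        · exact lt_asymm hrel.1 (hbs c h)
      have hne : ∀ c ∈ L, c ≠ b := fun c hc h => hbL (h ▸ hc)
      have hne' : ∀ c ∈ s, c ≠ b := fun c hc h => hbs' (h ▸ hc)
      have hfilt1 : ∀ c, S.rel b c → ((insert b s).filter (fun b' => S.rel b' c)).card
          = (s.filter (fun b' => S.rel b' c)).card + 1 := by
        intro c hc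
        rw [Finset.filter_insert, if_pos hc, Finset.card_insert_of_notMem]
        simp [hbs']
      have hfilt2 : ∀ c, ¬ S.rel b c → ((insert b s).filter (fun b' => S.rel b' c)).card
          = (s.filter (fun b' => S.rel b' c)).card := by
        intro c hc
        rw [Finset.filter_insert, if_neg hc]
      by_cases hcase : cov b ∧ 2 ≤ S.nB B b
      · -- the covering step
        obtain ⟨hq, hqa, haL, hc3, hp⟩ := hcov b hbB hcase.2 hcase.1
        have hane : T.X (astar b) ≠ ⊥ := by
          refine T.ne_bot ?_
          have e1 := h1 _ haL
          have e2 := hcost _ haL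
          have e3 : ∑ b' ∈ s, S.cost B cov astar b' (astar b)
              ≤ ∑ b' ∈ B, S.cost B cov astar b' (astar b) :=
            Finset.sum_le_sum_of_subset hsB
          omega
        obtain ⟨T', t1, t2, t3, t4, t5⟩ := S.step_cover T b hXb hnb (q b) (astar b) hq hqa hane
          (fun c hc hbc => hc3 c (Finset.union_subset_union_right hsB (hmem c hc)) hbc)
        refine ⟨T', ?_, ?_, ?_⟩
        · intro c hc
          have hc1 : c ≠ b := by
            rintro rfl
            exact hc (by simp)
          have hc2 : c ∉ L ∪ s := by
            intro h
            apply hc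
            rcases Finset.mem_union.1 h with h | h
            · exact Finset.mem_union_left _ h
            · exact Finset.mem_union_right _ (Finset.mem_insert_of_mem h)
          have := t1 c hc1
          rw [h0 c hc2] at this
          exact le_bot_iff.1 this
        · intro a ha
          rw [Finset.sum_insert hbs']
          have e1 := h1 a ha
          by_cases hrel : S.rel b a
          · by_cases haa : a = astar b
            · have hc : S.cost B cov astar b a = 2 := by
                unfold cost
                rw [if_pos hrel, if_pos hcase.1, if_pos ⟨haa, hcase.2⟩]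
              subst haa
              omega
            · have hc : S.cost B cov astar b a = 1 := by
                unfold cost
                rw [if_pos hrel, if_pos hcase.1, if_neg (fun h => haa h.1)]
              have := t2 a (hne a ha) haa
              omega
          · have := t4 a (hne a ha) hrel
            rw [this]
            omega
        · intro c hc
          rcases Finset.mem_insert.1 hc with rfl | hc
          · omega
          · have hca : c ≠ astar b := fun h => hdisj _ haL (h ▸ hsB hc)
            have e1 := h2 c hc
            by_cases hrel : S.rel b c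
            · rw [hfilt1 c hrel]
              have := t2 c (hne' c hc) hca
              omega
            · rw [hfilt2 c hrel, t4 c (hne' c hc) hrel]
              exact e1
      · -- the free step
        have hk : S.nB B b ≤ S.r b := by
          by_cases h2' : 2 ≤ S.nB B b
          · exact (hfree b hbB h2' (fun h => hcase ⟨h, h2'⟩)).2
          · have := S.r_pos b
            omega
        obtain ⟨T', t1, t2, t3, t4⟩ := S.step_free T b hXb hnb (S.nB B b) hk
        refine ⟨T', ?_, ?_, ?_⟩
        · intro c hc
          have hc1 : c ≠ b := by
            rintro rfl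
            exact hc (by simp)
          have hc2 : c ∉ L ∪ s := by
            intro h
            apply hc
            rcases Finset.mem_union.1 h with h | h
            · exact Finset.mem_union_left _ h
            · exact Finset.mem_union_right _ (Finset.mem_insert_of_mem h)
          have := t1 c hc1
          rw [h0 c hc2] at this
          exact le_bot_iff.1 this
        · intro a ha
          rw [Finset.sum_insert hbs']
          have e1 := h1 a ha
          by_cases hrel : S.rel b a
          · have hc : S.cost B cov astar b a = S.nB B b := by
              unfold cost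
              rw [if_pos hrel]
              by_cases hcb : cov b
              · have h2' : ¬ 2 ≤ S.nB B b := fun h => hcase ⟨hcb, h⟩
                rw [if_pos hcb, if_neg (fun h => h2' h.2)]
                have := S.one_le_nB B b
                omega
              · rw [if_neg hcb]
            have := t2 a (hne a ha)
            omega
          · have := t3 a (hne a ha) hrel
            rw [this]
            omega
        · intro c hc
          rcases Finset.mem_insert.1 hc with rfl | hc
          · omega
          · have e1 := h2 c hc
            by_cases hrel : S.rel b c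
            · rw [hfilt1 c hrel]
              have h2' : ¬ 2 ≤ S.nB B b := by
                intro h2'
                exact (hfree b hbB h2' (fun h => hcase ⟨h, h2'⟩)).1 c (hsB hc) hrel
              have := t2 c (hne' c hc)
              omega
            · rw [hfilt2 c hrel, t3 c (hne' c hc) hrel]
              exact e1
  obtain ⟨T, -, h1, h2⟩ := key B (Finset.Subset.refl _) (fun c hc _ _ _ => hc)
  refine ⟨T, fun i hi => T.ne_bot ?_⟩
  rcases Finset.mem_union.1 hi with hi | hi
  · have e1 := h1 i hi
    have e2 := hcost i hi
    omega
  · have e1 := h2 i hi
    unfold nB at e1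
    have e2 : (B.filter (fun b' => S.rel b' i)).card = (B.filter (fun b' => S.rel b' i)).card := rfl
    omega

end SSys

end MP78a5
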