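import Pool.Agent.Lib_MP_78a5c6.Weights3

/-!
# MP_78a5c6_al, chapter (B): the set of weights, faithfulness
-/

namespace MP78a5

open Module Submodule

variable {G : Type*} [Group G] {F : Type*} [Field F]

/-- the weights of `Q` on `V F P` (normalised: zero outside `Q`). -/
def Wts (F : Type*) [Field F] (Q P : Subgroup G) : Set (G → F) :=
  {w | (∀ x, x ∉ Q → w x = 0) ∧ ∃ f ∈ V F P, f ∈ wt Q w ∧ f ≠ 0}

theorem mem_Wts {Q P : Subgroup G} {w : G → F} :
    w ∈ Wts F Q P ↔ (∀ x, x ∉ Q → w x = 0) ∧ ∃ f ∈ V F P, f ∈ wt Q w ∧ f ≠ 0 := Iff.rfl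

/-- two weights which agree on `Q` are equal. -/
theorem Wts_ext {Q P : Subgroup G} {w w' : G → F} (hw : w ∈ Wts F Q P) (hw' : w' ∈ Wts F Q P)
    (h : ∀ x ∈ Q, w x = w' x) : w = w' := by
  ext x
  by_cases hx : x ∈ Q
  · exact h x hx
  · rw [hw.1 x hx, hw'.1 x hx]

theorem Wts_mul {Q P : Subgroup G} {w : G → F} (hw : w ∈ Wts F Q P) {a b : G} (ha : a ∈ Q)
    (hb : b ∈ Q) : w (a * b) = w a * w b := by
  obtain ⟨-, f, -, hf, h0⟩ := hw
  exact wt_mul hf h0 ha hb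

theorem Wts_one {Q P : Subgroup G} {w : G → F} (hw : w ∈ Wts F Q P) : w 1 = 1 := by
  obtain ⟨-, f, -, hf, h0⟩ := hw
  exact wt_one hf h0

/-- elements normalising `Q` and `P` permute the weights. -/
theorem act_mem_Wts {Q P : Subgroup G} {w : G → F} (hw : w ∈ Wts F Q P) {g : G}
    (hQ : ∀ x ∈ Q, g * x * g⁻¹ ∈ Q) (hQ' : ∀ x ∈ Q, g⁻¹ * x * g ∈ Q)
    (hP : ∀ x ∈ P, g * x * g⁻¹ ∈ P) (hP' : ∀ x ∈ P, g⁻¹ * x * g ∈ P) :
    act F g w ∈ Wts F Q P := by
  obtain ⟨hsupp, f, hf, hfw, h0⟩ := hw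
  refine ⟨fun x hx => ?_, act F g f, act_mem_V hf hP hP', act_mem_wt hfw hQ', ?_⟩
  · rw [act_apply]
    apply hsupp
    intro h
    apply hx
    have := hQ _ h
    have e : g * (g⁻¹ * x * g) * g⁻¹ = x := by group
    rwa [e] at this
  · intro h
    apply h0
    apply act_injective F g
    rw [h, map_zero]

/-- the number of weights is at most the dimension. -/
theorem Wts_finite_and_card [Finite G] (Q P : Subgroup G) :
    (Wts F Q P).Finite ∧ (Wts F Q P).ncard ≤ finrank F (V F P) := by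
  classical
  choose f hfV hfw hf0 using fun w : Wts F Q P => w.2.2
  have hli : LinearIndependent F f := by
    refine linearIndependent_of_wt (A := Q) (χ := fun w : Wts F Q P => (w : G → F)) hfw hf0 ?_
    intro w w' hne
    by_contra hcon
    push Not at hcon
    exact hne (Subtype.ext (Wts_ext w.2 w'.2 hcon))
  have h1 : LinearIndependent F (fun w => (⟨f w, hfV w⟩ : V F P)) := by
    rw [← LinearMap.linearIndependent_iff (V F P).subtype (Submodule.ker_subtype _)]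
    exact hli
  have hfin : Finite (Wts F Q P) := h1.finite
  have hft : Fintype (Wts F Q P) := Fintype.ofFinite _
  refine ⟨hfin, ?_⟩
  have h2 := h1.fintype_card_le_finrank
  rw [← Nat.card_eq_fintype_card, Nat.card_coe_set_eq] at h2
  exact h2

/-- an element of `Q` which does not centralise `P` is not in the kernel of some weight. -/
theorem exists_Wts_ne_one [IsAlgClosed F] [Finite G] {p : ℕ} [Fact p.Prime] [CharP F p]
    (Q P : Subgroup G)
    (hQ : ∀ x ∈ Q, ∀ y ∈ Q, x * y = y * x) (hF : (Nat.card Q : F) ≠ 0)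
    (hc : ∀ x ∈ P, ∀ y ∈ P, x * y = y * x) (hp : ∀ x ∈ P, x ^ p = 1)
    (hn : ∀ a ∈ Q, ∀ x ∈ P, a * x * a⁻¹ ∈ P) {x : G} (hx : x ∈ Q)
    (hne : ¬ ∀ y ∈ P, x * y = y * x) : ∃ w ∈ Wts F Q P, w x ≠ 1 := by
  by_contra hcon
  push Not at hcon
  apply hne
  have hn' : ∀ a ∈ Q, ∀ x ∈ P, a⁻¹ * x * a ∈ P := by
    intro a ha y hy
    simpa using hn a⁻¹ (Q.inv_mem ha) y hy
  have h1 : V F P ≤ LinearMap.ker (act F x - 1) := by
    refine le_of_wt_le Q hQ hF _ (fun a ha f hf => act_mem_V hf (hn a ha) (hn' a ha)) _ ?_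
    rintro χ hχ f ⟨hf, hfw⟩
    rw [LinearMap.mem_ker, LinearMap.sub_apply, Module.End.one_apply, hfw x hx]
    by_cases h0 : f = 0
    · rw [h0]; simp
    · rw [hcon χ ⟨hχ, f, hf, hfw, h0⟩, one_smul, sub_self]
  have h2 : ∀ f ∈ V F P, act F x f = f := by
    intro f hf
    have := h1 hf
    rw [LinearMap.mem_ker, LinearMap.sub_apply, Module.End.one_apply] at this
    exact sub_eq_zero.1 this
  intro y hy
  by_contra hxy
  have hz : x⁻¹ * y * x * y⁻¹ ∈ P := P.mul_mem (hn' x hx y hy) (P.inv_mem hy)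
  have hz1 : x⁻¹ * y * x * y⁻¹ ≠ 1 := by
    intro h
    apply hxy
    rw [mul_inv_eq_one] at h
    calc x * y = x * (x⁻¹ * y * x) := by rw [h]
      _ = y * x := by group
  obtain ⟨f, hf, hfz⟩ := exists_V_ne (F := F) (p := p) P hc hp hz hz1
  apply hfz
  rw [hf.2 _ (hn' x hx y hy) _ (P.inv_mem hy)]
  have h3 := congrFun (h2 f hf) y
  rw [act_apply] at h3
  rw [h3, ← hf.2 y hy _ (P.inv_mem hy), mul_inv_cancel]
  exact V_one hf

/-- If `Q` acts faithfully on `P`, an element `g` which normalises `Q` and does not centralise `Q`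
moves some weight of `Q` on `P`. -/
theorem exists_Wts_moved [IsAlgClosed F] [Finite G] {p : ℕ} [Fact p.Prime] [CharP F p]
    (Q P : Subgroup G)
    (hQ : ∀ x ∈ Q, ∀ y ∈ Q, x * y = y * x) (hF : (Nat.card Q : F) ≠ 0)
    (hc : ∀ x ∈ P, ∀ y ∈ P, x * y = y * x) (hp : ∀ x ∈ P, x ^ p = 1)
    (hn : ∀ a ∈ Q, ∀ x ∈ P, a * x * a⁻¹ ∈ P)
    (hfaith : ∀ x ∈ Q, (∀ y ∈ P, x * y = y * x) → x = 1) {g : G}
    (hg : ∀ x ∈ Q, g⁻¹ * x * g ∈ Q) (hne : ¬ ∀ x ∈ Q, g * x = x * g) :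
    ∃ w ∈ Wts F Q P, act F g w ≠ w := by
  push Not at hne
  obtain ⟨q, hq, hgq⟩ := hne
  have hz : g⁻¹ * q * g * q⁻¹ ∈ Q := Q.mul_mem (hg q hq) (Q.inv_mem hq)
  have hz1 : g⁻¹ * q * g * q⁻¹ ≠ 1 := by
    intro h
    apply hgq
    rw [mul_inv_eq_one] at h
    calc g * q = g * (g⁻¹ * q * g) := by rw [h]
      _ = q * g := by group
  obtain ⟨w, hw, hwz⟩ := exists_Wts_ne_one (F := F) (p := p) Q P hQ hF hc hp hn hz
    (fun h => hz1 (hfaith _ hz h))
  refine ⟨w, hw, fun h => hwz ?_⟩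
  have h3 := congrFun h q
  rw [act_apply] at h3
  rw [Wts_mul hw (hg q hq) (Q.inv_mem hq), h3, ← Wts_mul hw hq (Q.inv_mem hq), mul_inv_cancel,
    Wts_one hw]

end MP78a5
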