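import Pool.Agent.Lib_MP_78a5c6.SBasic
import Pool.Agent.Lib_MP_78a5c6.Weights4

/-!
# MP_78a5c6_al, chapter (B): the rank lemma
-/

namespace MP78a5

open Module Submodule

/-- `q * d ≤ q ^ d` for `q ≥ 2`, `d ≥ 1`. -/
theorem mul_le_pow_self {q d : ℕ} (hq : 2 ≤ q) (hd : 1 ≤ d) : q * d ≤ q ^ d := by
  induction d, hd using Nat.le_induction with
  | base => simp
  | succ d hd ih =>
    have h1 : 1 ≤ q ^ d := Nat.one_le_pow _ _ (by omega)
    calc q * (d + 1) = q * d + q := by ring
      _ ≤ q * d + q * d := by nlinarith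
      _ ≤ q ^ d + q ^ d := by omega
      _ = 2 * q ^ d := by ring
      _ ≤ q * q ^ d := Nat.mul_le_mul_right _ hq
      _ = q ^ (d + 1) := by ring

/-- A faithful action of an elementary abelian group of rank `s` needs at least `q s` points. -/
theorem mul_le_card_of_faithful {B Ω : Type*} [Group B] [Finite B] [MulAction B Ω]
    (hcomm : ∀ a b : B, a * b = b * a) {q : ℕ} (hq : q.Prime) :
    ∀ (s : ℕ) (S : Subgroup B) (T : Finset Ω), Nat.card S = q ^ s →
      (∀ b : B, ∀ t ∈ T, b • t ∈ T) → (∀ b ∈ S, (∀ t ∈ T, b • t = t) → b = 1) →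
      q * s ≤ T.card := by
  classical
  intro s
  induction s using Nat.strong_induction_on with
  | _ s ih =>
  intro S T hS hT hfaith
  rcases Nat.eq_zero_or_pos s with rfl | hs
  · simp
  -- a point moved by `S`
  have hS1 : S ≠ ⊥ := by
    rintro rfl
    rw [Subgroup.card_bot] at hS
    exact (Nat.one_lt_pow hs.ne' hq.one_lt).ne hS
  obtain ⟨b0, hb0, hb01⟩ : ∃ b0 : B, b0 ∈ S ∧ b0 ≠ 1 := by
    by_contra hcon
    push Not at hcon
    exact hS1 ((Subgroup.eq_bot_iff_forall S).2 hcon)
  obtain ⟨t, ht, hbt⟩ : ∃ t ∈ T, b0 • t ≠ t := by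
    by_contra hcon
    push Not at hcon
    exact hb01 (hfaith b0 hb0 hcon)
  let S' : Subgroup B := S ⊓ MulAction.stabilizer B t
  have hS'S : S' ≤ S := inf_le_left
  have hpg : IsPGroup q S := IsPGroup.of_card hS
  obtain ⟨s', hs'⟩ : ∃ s', Nat.card S' = q ^ s' := by
    have : Fact q.Prime := ⟨hq⟩
    exact IsPGroup.iff_card.1 (hpg.to_le hS'S)
  have hlt : s' < s := by
    have h1 : Nat.card S' < Nat.card S := by
      refine lt_of_le_of_ne (Nat.card_le_card_of_injective (Subgroup.inclusion hS'S)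
        (Subgroup.inclusion_injective hS'S)) ?_
      intro h
      have h2 : S' = S := Subgroup.eq_of_le_of_card_ge hS'S h.ge
      have h3 : b0 ∈ S' := by rw [h2]; exact hb0
      exact hbt h3.2
    rw [hs', hS] at h1
    exact (Nat.pow_lt_pow_iff_right hq.one_lt).1 h1
  -- the orbit
  let O : Finset Ω := T.filter (fun u => u ∈ MulAction.orbit B t)
  let T' : Finset Ω := T.filter (fun u => u ∉ MulAction.orbit B t)
  have hTcard : O.card + T'.card = T.card := Finset.card_filter_add_card_filter_not _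
  have hT' : q * s' ≤ T'.card := by
    refine ih s' hlt S' T' hs' ?_ ?_
    · intro b u hu
      rw [Finset.mem_filter] at hu ⊢
      refine ⟨hT b u hu.1, ?_⟩
      intro h
      apply hu.2
      obtain ⟨c, hc⟩ := h
      refine ⟨b⁻¹ * c, ?_⟩
      have hc' : c • t = b • u := hc
      change (b⁻¹ * c) • t = u
      rw [mul_smul, hc', inv_smul_smul]
    · intro b hb hfix
      refine hfaith b hb.1 ?_
      intro u hu
      by_cases huO : u ∈ MulAction.orbit B t
      · obtain ⟨c, rfl⟩ := huO
        have h1 : b • t = t := hb.2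
        change b • c • t = c • t
        rw [← mul_smul, hcomm b c, mul_smul, h1]
      · exact hfix u (Finset.mem_filter.2 ⟨hu, huO⟩)
  have hO : q ^ (s - s') ≤ O.card := by
    -- the `S`-orbit is contained in `O`
    have h1 : (MulAction.orbit S t).ncard ≤ O.card := by
      rw [← Set.ncard_coe_finset]
      apply Set.ncard_le_ncard
      · rintro _ ⟨c, rfl⟩
        rw [Finset.mem_coe, Finset.mem_filter]
        exact ⟨hT c t ht, ⟨(c : B), rfl⟩⟩
      · exact Finset.finite_toSet O
    have h2 : (MulAction.stabilizer S t).index = (MulAction.orbit S t).ncard :=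
      MulAction.index_stabilizer S t
    have h3 : Nat.card (MulAction.stabilizer S t) * (MulAction.stabilizer S t).index =
        Nat.card S := Subgroup.card_mul_index _
    have h4 : Nat.card (MulAction.stabilizer S t) = Nat.card S' := by
      refine Nat.card_congr ⟨fun x => ⟨((x : S) : B), (x : S).2, x.2⟩,
        fun y => ⟨⟨y, y.2.1⟩, y.2.2⟩, ?_, ?_⟩
      · intro x; rfl
      · intro y; rfl
    rw [h4, hs', hS, h2] at h3
    have h5 : q ^ s = q ^ s' * q ^ (s - s') := by
      rw [← pow_add]; congr 1; omega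
    rw [h5] at h3
    have h6 := Nat.eq_of_mul_eq_mul_left (pow_pos hq.pos s') h3
    omega
  have h7 := mul_le_pow_self hq.two_le (show 1 ≤ s - s' by omega)
  calc q * s = q * s' + q * (s - s') := by rw [← mul_add]; congr 1; omega
    _ ≤ T'.card + O.card := by omega
    _ = T.card := by omega

namespace SSys

variable {G : Type*} [Group G] {ι : Type*} [LinearOrder ι] (S : SSys G ι)

theorem card_ne_zero [Finite G] {i j : ι} (h : i ≠ j) (F : Type*) [Field F] [CharP F (S.p i)] :
    (Nat.card (S.P j) : F) ≠ 0 := by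
  rw [S.card_P, Ne, CharP.cast_eq_zero_iff F (S.p i)]
  intro h1
  have h2 := (S.prime i).dvd_of_dvd_pow h1
  exact h (S.inj ((Nat.prime_dvd_prime_iff_eq (S.prime i) (S.prime j)).1 h2))

/-- **The rank lemma.** -/
theorem rank_lemma [Finite G] {i j k : ι} (hij : S.rel i j) (hjk : S.rel j k) :
    S.p k * S.r k ≤ S.r i := by
  classical
  have hpi : Fact (S.p i).Prime := ⟨S.prime i⟩
  let F := AlgebraicClosure (ZMod (S.p i))
  have hik : i < k := hij.1.trans hjk.1
  obtain ⟨hfin, hcard⟩ := Wts_finite_and_card (F := F) (S.P j) (S.P i)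
  have hdim : finrank F (V F (S.P i)) = S.r i :=
    finrank_V (p := S.p i) (S.P i) (S.comm i) (S.pow i) (S.card_P i)
  rw [hdim] at hcard
  refine le_trans ?_ hcard
  -- the action of `P k` on the functions
  let I : MulAction (S.P k) (G → F) :=
    { smul := fun g f => act F (g : G) f
      one_smul := fun f => by
        change act F ((1 : S.P k) : G) f = f
        simp
      mul_smul := fun g h f => act_mul_apply F (g : G) (h : G) f }
  have hsm : ∀ (g : S.P k) (f : G → F), g • f = act F (g : G) f := fun _ _ => rfl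
  have hmem : ∀ w, w ∈ hfin.toFinset ↔ w ∈ Wts F (S.P j) (S.P i) := fun w => hfin.mem_toFinset
  have hmain := mul_le_card_of_faithful (B := S.P k) (Ω := G → F)
    (fun a b => Subtype.ext (S.comm k a a.2 b b.2)) (S.prime k) (S.r k) ⊤ hfin.toFinset
    (by rw [Subgroup.card_top]; exact S.card_P k)
    (by
      intro b w hw
      rw [hmem] at hw ⊢
      exact act_mem_Wts hw (fun x hx => S.conj_mem hjk.1.le b.2 hx)
        (fun x hx => S.conj_mem' hjk.1.le b.2 hx) (fun x hx => S.conj_mem hik.le b.2 hx)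
        (fun x hx => S.conj_mem' hik.le b.2 hx))
    (by
      intro b _ hb
      by_contra hb1
      obtain ⟨w, hw, hne⟩ := exists_Wts_moved (F := F) (p := S.p i) (S.P j) (S.P i) (S.comm j)
        (S.card_ne_zero hij.1.ne F) (S.comm i) (S.pow i)
        (fun a ha x hx => S.conj_mem hij.1.le ha hx) (fun x hx h => S.faithful hij hx h)
        (g := (b : G)) (fun x hx => S.conj_mem' hjk.1.le b.2 hx)
        (fun h => hb1 (Subtype.ext (S.faithful hjk b.2 h)))
      exact hne (hb w ((hmem w).2 hw)))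
  rw [Set.ncard_eq_toFinset_card _ hfin]
  exact hmain

/-- if `P j` has rank one and `k` is above `j` then `p k ∣ p j - 1`. -/
theorem dvd_sub_one_of_r_eq_one [Finite G] {j k : ι} (hjk : S.rel j k) (hr : S.r j = 1) :
    S.p k ∣ S.p j - 1 := by
  classical
  have hpj : Fact (S.p j).Prime := ⟨S.prime j⟩
  obtain ⟨hlt, x, hx, y, hy, hne⟩ := hjk
  have hy1 : y ≠ 1 := by
    rintro rfl
    apply hne
    simp
  have hoy : orderOf y = S.p j := S.orderOf_eq hy hy1
  have hcard : Nat.card (S.P j) = S.p j := by rw [S.card_P, hr, pow_one]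
  have hz : Subgroup.zpowers y = S.P j := by
    apply Subgroup.eq_of_le_of_card_ge
    · rw [Subgroup.zpowers_le]
      exact hy
    · rw [Nat.card_zpowers, hoy, hcard]
  have hconj : x * y * x⁻¹ ∈ Subgroup.zpowers y := by
    rw [hz]
    exact S.norm j k hlt x hx y hy
  obtain ⟨t, ht⟩ : ∃ t : ℕ, y ^ t = x * y * x⁻¹ := by
    rw [← mem_powers_iff_mem_zpowers] at hconj
    exact hconj
  have hpow : ∀ n : ℕ, x ^ n * y * (x ^ n)⁻¹ = y ^ (t ^ n) := by
    intro n
    induction n with
    | zero => simp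
    | succ n ih =>
      have h1 : x ^ (n + 1) * y * (x ^ (n + 1))⁻¹ = x * (x ^ n * y * (x ^ n)⁻¹) * x⁻¹ := by
        rw [pow_succ']
        group
      have h2 : x * y ^ (t ^ n) * x⁻¹ = (x * y * x⁻¹) ^ (t ^ n) := (conj_pow).symm
      rw [h1, ih, h2, ← ht, ← pow_mul, pow_succ']
  have hq := hpow (S.p k)
  rw [S.pow k x hx] at hq
  have h1 : y ^ (t ^ S.p k) = y ^ 1 := by rw [← hq]; simp
  rw [pow_eq_pow_iff_modEq, hoy] at h1
  have h2 : ((t : ZMod (S.p j))) ^ S.p k = 1 := by
    have := (ZMod.natCast_eq_natCast_iff _ _ _).2 h1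
    simpa using this
  have h3 : (t : ZMod (S.p j)) ≠ 1 := by
    intro h
    apply hne
    have h4 : y ^ t = y ^ 1 := by
      rw [pow_eq_pow_iff_modEq, hoy]
      exact (ZMod.natCast_eq_natCast_iff _ _ _).1 (by simpa using h)
    rw [ht, pow_one, mul_inv_eq_iff_eq_mul] at h4
    exact h4
  have hpk : Fact (S.p k).Prime := ⟨S.prime k⟩
  have h5 : orderOf (t : ZMod (S.p j)) = S.p k := orderOf_eq_prime h2 h3
  have h6 : (t : ZMod (S.p j)) ≠ 0 := by
    intro h
    rw [h, zero_pow (S.prime k).ne_zero] at h2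
    exact zero_ne_one h2
  have h7 := ZMod.orderOf_dvd_card_sub_one h6
  rwa [h5] at h7

end SSys

end MP78a5
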