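import Pool.Agent.Lib_MP_78a5c6.SBasic

/-!
# MP_78a5c6_al, chapter (B): existence of S-systems in finite solvable groups
-/

namespace MP78a5

universe u

open scoped commutatorElement

/-- A nontrivial finite solvable group has a nontrivial normal elementary abelian subgroup. -/
theorem exists_normal_elementary (G : Type*) [Group G] [Finite G] [Group.IsSolvable G] [Nontrivial G] :
    ∃ (p : ℕ) (N : Subgroup G), p.Prime ∧ N.Normal ∧ N ≠ ⊥ ∧
      (∀ x ∈ N, ∀ y ∈ N, x * y = y * x) ∧ ∀ x ∈ N, x ^ p = 1 := by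
  classical
  have hex : ∃ k, derivedSeries G k = ⊥ := Group.IsSolvable.solvable
  obtain ⟨k, hk⟩ : ∃ k, Nat.find hex = k + 1 := by
    have h0 : Nat.find hex ≠ 0 := by
      intro h
      have h1 := Nat.find_spec hex
      rw [h] at h1
      simp at h1
    exact Nat.exists_eq_succ_of_ne_zero h0
  have hk1 : derivedSeries G (k + 1) = ⊥ := by
    have := Nat.find_spec hex
    rwa [hk] at this
  have hk0 : derivedSeries G k ≠ ⊥ := Nat.find_min hex (by omega)
  set A := derivedSeries G k with hA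
  have hAn : A.Normal := derivedSeries_normal G k
  have hcomm : ∀ x ∈ A, ∀ y ∈ A, x * y = y * x := by
    intro x hx y hy
    have h1 : ⁅x, y⁆ ∈ derivedSeries G (k + 1) := by
      rw [derivedSeries_succ]
      exact Subgroup.commutator_mem_commutator hx hy
    rw [hk1, Subgroup.mem_bot, commutatorElement_eq_one_iff_mul_comm] at h1
    exact h1
  have hAc : 1 < Nat.card A := by
    rw [Subgroup.one_lt_card_iff_ne_bot]
    exact hk0
  obtain ⟨p, hp, hpd⟩ := Nat.exists_prime_and_dvd hAc.ne'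
  have hfp : Fact p.Prime := ⟨hp⟩
  let N : Subgroup G :=
    { carrier := {x | x ∈ A ∧ x ^ p = 1}
      one_mem' := ⟨A.one_mem, one_pow p⟩
      mul_mem' := by
        rintro a b ⟨ha, ha'⟩ ⟨hb, hb'⟩
        refine ⟨A.mul_mem ha hb, ?_⟩
        have hc : Commute a b := hcomm a ha b hb
        rw [hc.mul_pow, ha', hb', one_mul]
      inv_mem' := by
        rintro a ⟨ha, ha'⟩
        refine ⟨A.inv_mem ha, ?_⟩
        rw [inv_pow, ha', inv_one] }
  refine ⟨p, N, hp, ?_, ?_, ?_, ?_⟩
  · constructor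
    rintro n ⟨hn, hn'⟩ g
    refine ⟨hAn.conj_mem n hn g, ?_⟩
    rw [conj_pow, hn', mul_one, mul_inv_cancel]
  · obtain ⟨x, hx⟩ := exists_prime_orderOf_dvd_card' (G := A) p hpd
    intro hbot
    have h1 : (x : G) ∈ N := by
      refine ⟨x.2, ?_⟩
      have : x ^ p = 1 := by rw [← hx]; exact pow_orderOf_eq_one x
      exact_mod_cast congrArg (Subtype.val) this
    rw [hbot, Subgroup.mem_bot] at h1
    have h2 : x = 1 := Subtype.ext h1
    rw [h2, orderOf_one] at hx
    exact hp.one_lt.ne hx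
  · rintro x ⟨hx, -⟩ y ⟨hy, -⟩
    exact hcomm x hx y hy
  · rintro x ⟨-, hx⟩
    exact hx

/-- lifting an S-system along a homomorphism which is bijective on a subgroup. -/
def SSys.lift {G G' : Type*} [Group G] [Group G'] {ι : Type*} [LinearOrder ι] (S : SSys G' ι)
    (π : G →* G') (K : Subgroup G) (hinj : ∀ x ∈ K, π x = 1 → x = 1)
    (hsurj : ∀ i, ∀ y ∈ S.P i, ∃ x ∈ K, π x = y) : SSys G ι where
  p := S.p
  P := fun i => K ⊓ (S.P i).comap π
  prime := S.prime
  inj := S.inj
  ne_bot := by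
    intro i h
    apply S.ne_bot i
    rw [Subgroup.eq_bot_iff_forall]
    intro y hy
    obtain ⟨x, hx, rfl⟩ := hsurj i y hy
    have h1 : x ∈ K ⊓ (S.P i).comap π := ⟨hx, hy⟩
    rw [h, Subgroup.mem_bot] at h1
    rw [h1, map_one]
  comm := by
    rintro i x ⟨hx, hx'⟩ y ⟨hy, hy'⟩
    have h1 : x * y * x⁻¹ * y⁻¹ = 1 := by
      refine hinj _ (K.mul_mem (K.mul_mem (K.mul_mem hx hy) (K.inv_mem hx)) (K.inv_mem hy)) ?_
      have := S.comm i _ hx' _ hy'
      rw [map_mul, map_mul, map_mul, map_inv, map_inv, this]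
      group
    calc x * y = (x * y * x⁻¹ * y⁻¹) * (y * x) := by group
      _ = y * x := by rw [h1, one_mul]
  pow := by
    rintro i x ⟨hx, hx'⟩
    refine hinj _ (K.pow_mem hx _) ?_
    rw [map_pow]
    exact S.pow i _ hx'
  norm := by
    rintro i j hij x ⟨hx, hx'⟩ y ⟨hy, hy'⟩
    refine ⟨K.mul_mem (K.mul_mem hx hy) (K.inv_mem hx), ?_⟩
    change π (x * y * x⁻¹) ∈ S.P i
    rw [map_mul, map_mul, map_inv]
    exact S.norm i j hij _ hx' _ hy'
  irr := by
    intro i Q hQ hn
    rcases S.irr i (Q.map π) (by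
      rintro y ⟨x, hx, rfl⟩
      exact (hQ hx).2) (by
      rintro j hj x hx y ⟨y0, hy0, rfl⟩
      obtain ⟨x0, hx0, rfl⟩ := hsurj j x hx
      refine ⟨x0 * y0 * x0⁻¹, hn j hj x0 ⟨hx0, hx⟩ y0 hy0, ?_⟩
      rw [map_mul, map_mul, map_inv]) with h | h
    · left
      rw [Subgroup.eq_bot_iff_forall]
      intro x hx
      refine hinj x (hQ hx).1 ?_
      have : π x ∈ Q.map π := ⟨x, hx, rfl⟩
      rw [h] at this
      exact this
    · right
      apply le_antisymm hQ
      rintro x ⟨hx, hx'⟩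
      have : π x ∈ Q.map π := by rw [h]; exact hx'
      obtain ⟨q, hq, hqx⟩ := this
      have h1 : x * q⁻¹ = 1 := by
        refine hinj _ (K.mul_mem hx (K.inv_mem (hQ hq).1)) ?_
        rw [map_mul, map_inv, hqx, mul_inv_cancel]
      have : x = q := mul_inv_eq_one.1 h1
      rw [this]
      exact hq

theorem SSys.lift_P_le {G G' : Type*} [Group G] [Group G'] {ι : Type*} [LinearOrder ι]
    (S : SSys G' ι)
    (π : G →* G') (K : Subgroup G) (hinj : ∀ x ∈ K, π x = 1 → x = 1)
    (hsurj : ∀ i, ∀ y ∈ S.P i, ∃ x ∈ K, π x = y) (i : ι) :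
    (S.lift π K hinj hsurj).P i ≤ K := inf_le_left

/-- adding a bottom subgroup to an S-system. -/
def SSys.cons {G : Type*} [Group G] {m : ℕ} (S : SSys G (Fin m)) (p : ℕ) (N : Subgroup G)
    (hp : p.Prime) (hpi : ∀ i, S.p i ≠ p) (hN : N ≠ ⊥) (hcomm : ∀ x ∈ N, ∀ y ∈ N, x * y = y * x)
    (hpow : ∀ x ∈ N, x ^ p = 1) (hnorm : ∀ j, ∀ x ∈ S.P j, ∀ y ∈ N, x * y * x⁻¹ ∈ N)
    (hirr : ∀ Q ≤ N, (∀ j, ∀ x ∈ S.P j, ∀ y ∈ Q, x * y * x⁻¹ ∈ Q) → Q = ⊥ ∨ Q = N) :
    SSys G (Fin (m + 1)) where
  p := Fin.cons p S.p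
  P := Fin.cons N S.P
  prime := by
    intro i
    refine Fin.cases ?_ (fun i => ?_) i
    · simpa using hp
    · simpa using S.prime i
  inj := by
    rw [Fin.cons_injective_iff]
    refine ⟨?_, S.inj⟩
    rintro ⟨i, hi⟩
    exact hpi i hi
  ne_bot := by
    intro i
    refine Fin.cases ?_ (fun i => ?_) i
    · simpa using hN
    · simpa using S.ne_bot i
  comm := by
    intro i
    refine Fin.cases ?_ (fun i => ?_) i
    · simpa using hcomm
    · simpa using S.comm i
  pow := by
    intro i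
    refine Fin.cases ?_ (fun i => ?_) i
    · simpa using hpow
    · simpa using S.pow i
  norm := by
    intro i j
    refine Fin.cases ?_ (fun i => ?_) i
    · refine Fin.cases ?_ (fun j => ?_) j
      · intro h
        exact absurd h (lt_irrefl _)
      · intro _
        simpa using hnorm j
    · refine Fin.cases ?_ (fun j => ?_) j
      · intro h
        exact absurd h (Fin.not_lt_zero _)
      · intro h
        simpa using S.norm i j (by simpa using h)
  irr := by
    intro i
    refine Fin.cases ?_ (fun i => ?_) i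
    · intro Q hQ h
      simp only [Fin.cons_zero] at hQ ⊢
      refine hirr Q hQ ?_
      intro j x hx y hy
      exact h j.succ (Fin.succ_pos j) x (by simpa using hx) y hy
    · intro Q hQ h
      simp only [Fin.cons_succ] at hQ ⊢
      refine S.irr i Q hQ ?_
      intro j hj x hx y hy
      exact h j.succ (by simpa using hj) x (by simpa using hx) y hy

/-- existence of a minimal nontrivial invariant subgroup. -/
theorem exists_minimal_invariant {G : Type*} [Group G] [Finite G] (N : Subgroup G) (hN : N ≠ ⊥)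
    (X : Set G) (hX : ∀ x ∈ X, ∀ y ∈ N, x * y * x⁻¹ ∈ N) :
    ∃ M ≤ N, M ≠ ⊥ ∧ (∀ x ∈ X, ∀ y ∈ M, x * y * x⁻¹ ∈ M) ∧
      ∀ Q ≤ M, (∀ x ∈ X, ∀ y ∈ Q, x * y * x⁻¹ ∈ Q) → Q = ⊥ ∨ Q = M := by
  classical
  let T : Set (Subgroup G) := {M | M ≤ N ∧ M ≠ ⊥ ∧ ∀ x ∈ X, ∀ y ∈ M, x * y * x⁻¹ ∈ M}
  have hT : T.Nonempty := ⟨N, le_rfl, hN, hX⟩
  have hfin : T.Finite := Set.toFinite T
  obtain ⟨M, hM⟩ := hfin.exists_minimal hT
  obtain ⟨⟨hMN, hM0, hMX⟩, hmin⟩ := hM
  refine ⟨M, hMN, hM0, hMX, ?_⟩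
  intro Q hQ hQX
  by_cases h : Q = ⊥
  · exact Or.inl h
  · right
    exact le_antisymm hQ (hmin (y := Q) ⟨hQ.trans hMN, h, hQX⟩ hQ)

/-- Schur-Zassenhaus for a subgroup of the quotient. -/
theorem exists_lift_subgroup {G : Type*} [Group G] [Finite G] (N : Subgroup G) [hNn : N.Normal]
    (H' : Subgroup (G ⧸ N)) (hco : (Nat.card N).Coprime (Nat.card H')) :
    ∃ K : Subgroup G, (∀ x ∈ K, QuotientGroup.mk' N x = 1 → x = 1) ∧
      (∀ y ∈ H', ∃ x ∈ K, QuotientGroup.mk' N x = y) ∧
      Nat.card K = Nat.card H' ∧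
      ∃ H₁ : Subgroup G, N ≤ H₁ ∧ K ≤ H₁ ∧ Nat.card H₁ = Nat.card N * Nat.card H' := by
  set π := QuotientGroup.mk' N with hπ
  let H₁ : Subgroup G := H'.comap π
  have hNH : N ≤ H₁ := by
    intro x hx
    change π x ∈ H'
    have : π x = 1 := by
      rw [hπ, QuotientGroup.mk'_apply, QuotientGroup.eq_one_iff]
      exact hx
    rw [this]
    exact H'.one_mem
  have hmap : H₁.map π = H' := Subgroup.map_comap_eq_self_of_surjective
    (QuotientGroup.mk'_surjective N) H'
  let N₁ : Subgroup H₁ := N.subgroupOf H₁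
  have hN₁n : N₁.Normal := Subgroup.normal_subgroupOf
  have hindex : N₁.index = Nat.card H' := by
    change N.relIndex H₁ = _
    have h1 : N = (⊥ : Subgroup (G ⧸ N)).comap π := by
      rw [MonoidHom.comap_bot]; simp [hπ]
    conv_lhs => rw [h1]
    rw [Subgroup.relIndex_comap, hmap, Subgroup.relIndex_bot_left]
  have hcard : Nat.card N₁ = Nat.card N :=
    Nat.card_congr (Subgroup.subgroupOfEquivOfLe hNH).toEquiv
  obtain ⟨K₁, hK₁⟩ := Subgroup.exists_right_complement'_of_coprime (N := N₁) (by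
    rw [hindex, hcard]; exact hco)
  refine ⟨K₁.map H₁.subtype, ?_, ?_, ?_, H₁, hNH, ?_, ?_⟩
  · rintro x ⟨k, hk, rfl⟩ hx
    have hkN : k ∈ N₁ := by
      rw [Subgroup.mem_subgroupOf]
      rw [hπ, QuotientGroup.mk'_apply, QuotientGroup.eq_one_iff] at hx
      exact hx
    have hdis := hK₁.disjoint
    have : k ∈ (⊥ : Subgroup H₁) := by
      rw [← disjoint_iff.1 hdis]
      exact ⟨hkN, hk⟩
    rw [Subgroup.mem_bot] at this
    rw [this]
    rfl
  · intro y hy
    obtain ⟨x, rfl⟩ := QuotientGroup.mk'_surjective N y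
    have hx : x ∈ H₁ := hy
    have hsup := hK₁.sup_eq_top
    have hmem : (⟨x, hx⟩ : H₁) ∈ N₁ ⊔ K₁ := by rw [hsup]; trivial
    rw [Subgroup.mem_sup_of_normal_left] at hmem
    obtain ⟨n, hn, k, hk, hnk⟩ := hmem
    refine ⟨k, ⟨k, hk, rfl⟩, ?_⟩
    have h1 : (n : G) * (k : G) = x := by
      have := congrArg (Subtype.val) hnk
      simpa using this
    have h2 : π (n : G) = 1 := by
      rw [hπ, QuotientGroup.mk'_apply, QuotientGroup.eq_one_iff]
      exact hn
    rw [← h1, map_mul, h2, one_mul]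
  · rw [Subgroup.card_map_of_injective H₁.subtype_injective]
    rw [← hindex]
    exact hK₁.symm.index_eq_card.symm
  · rintro x ⟨k, hk, rfl⟩
    exact k.2
  · rw [← hcard, ← hindex, Subgroup.card_mul_index]

theorem exists_SSys_aux (n : ℕ) : ∀ (G : Type u) [Group G] [Finite G] [Group.IsSolvable G],
    Nat.card G ≤ n → ∀ ρ : Finset ℕ, (∀ p ∈ ρ, p.Prime ∧ p ∣ Nat.card G) →
    ∃ (m : ℕ) (S : SSys G (Fin m)) (H : Subgroup G), (∀ i, S.P i ≤ H) ∧
      (∀ q, q.Prime → q ∣ Nat.card H → q ∈ ρ) ∧ (∀ q, q ∈ ρ ↔ ∃ i, S.p i = q) := by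
  classical
  induction n with
  | zero =>
    intro G _ _ _ h
    exact absurd h (by have := Nat.card_pos (α := G); omega)
  | succ n ih =>
    intro G _ _ _ hcard ρ hρ
    rcases subsingleton_or_nontrivial G with hsub | hnon
    · have h1 : Nat.card G = 1 := Nat.card_unique
      have hρ0 : ∀ q, q ∉ ρ := by
        intro q hq
        have := hρ q hq
        rw [h1, Nat.dvd_one] at this
        exact this.1.one_lt.ne' this.2
      refine ⟨0, ⟨fun i => i.elim0, fun i => i.elim0, fun i => i.elim0, fun i => i.elim0,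
        fun i => i.elim0, fun i => i.elim0, fun i => i.elim0, fun i => i.elim0,
        fun i => i.elim0⟩, ⊥, fun i => i.elim0, ?_, ?_⟩
      · intro q hq hd
        rw [Subgroup.card_bot, Nat.dvd_one] at hd
        exact absurd hd hq.one_lt.ne'
      · intro q
        constructor
        · intro h
          exact absurd h (hρ0 q)
        · rintro ⟨i, -⟩
          exact i.elim0
    obtain ⟨p, N, hp, hNn, hN0, hNc, hNp⟩ := exists_normal_elementary G
    have hfp : Fact p.Prime := ⟨hp⟩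
    have hNpg : IsPGroup p N := fun x => ⟨1, by ext; simpa using hNp x x.2⟩
    obtain ⟨a, ha⟩ := IsPGroup.iff_card.1 hNpg
    have hcardG : Nat.card (G ⧸ N) * Nat.card N = Nat.card G :=
      (Subgroup.card_eq_card_quotient_mul_card_subgroup N).symm
    have hN1 : 1 < Nat.card N := by
      rw [Subgroup.one_lt_card_iff_ne_bot]; exact hN0
    have hQpos : 0 < Nat.card (G ⧸ N) := Nat.card_pos
    have hQ : Nat.card (G ⧸ N) ≤ n := by
      have : Nat.card (G ⧸ N) < Nat.card G := by
        rw [← hcardG]; nlinarith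
      omega
    -- the primes of the quotient
    obtain ⟨m, S', H', hSH, hHρ, hp'⟩ := ih (G ⧸ N) hQ (ρ.erase p) (by
      intro q hq
      rw [Finset.mem_erase] at hq
      refine ⟨(hρ q hq.2).1, ?_⟩
      have h1 := (hρ q hq.2).2
      rw [← hcardG] at h1
      rcases ((hρ q hq.2).1.dvd_mul).1 h1 with h | h
      · exact h
      · exfalso
        rw [ha] at h
        have := (hρ q hq.2).1.dvd_of_dvd_pow h
        exact hq.1 ((Nat.prime_dvd_prime_iff_eq (hρ q hq.2).1 hp).1 this))
    have hco : (Nat.card N).Coprime (Nat.card H') := by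
      rw [ha]
      apply Nat.Coprime.pow_left
      rw [Nat.Prime.coprime_iff_not_dvd hp]
      intro h
      have := hHρ p hp h
      simp at this
    obtain ⟨K, hKinj, hKsurj, hKcard, H₁, hNH₁, hKH₁, hH₁card⟩ := exists_lift_subgroup N H' hco
    have hs : ∀ i, ∀ y ∈ S'.P i, ∃ x ∈ K, QuotientGroup.mk' N x = y :=
      fun i y hy => hKsurj y (hSH i hy)
    let S₁ : SSys G (Fin m) := S'.lift (QuotientGroup.mk' N) K hKinj hs
    have hS₁K : ∀ i, S₁.P i ≤ K := fun i => S'.lift_P_le _ K hKinj hs i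
    have hS₁p : ∀ i, S₁.p i = S'.p i := fun i => rfl
    by_cases hpρ : p ∈ ρ
    · -- add a minimal invariant subgroup of `N`
      obtain ⟨M, hMN, hM0, hMX, hMirr⟩ := exists_minimal_invariant N hN0
        {x | ∃ j, x ∈ S₁.P j} (fun x _ y hy => hNn.conj_mem y hy x)
      let S : SSys G (Fin (m + 1)) := S₁.cons p M hp (by
          intro i hi
          have : p ∈ ρ.erase p := (hp' p).2 ⟨i, hi⟩
          simp at this) hM0
        (fun x hx y hy => hNc x (hMN hx) y (hMN hy)) (fun x hx => hNp x (hMN hx))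
        (fun j x hx y hy => hMX x ⟨j, hx⟩ y hy)
        (fun Q hQ h => hMirr Q hQ (by
          rintro x ⟨j, hx⟩ y hy
          exact h j x hx y hy))
      have hSp0 : S.p 0 = p := rfl
      have hSps : ∀ i : Fin m, S.p i.succ = S₁.p i := fun i => rfl
      have hSP0 : S.P 0 = M := rfl
      have hSPs : ∀ i : Fin m, S.P i.succ = S₁.P i := fun i => rfl
      refine ⟨m + 1, S, H₁, ?_, ?_, ?_⟩
      · intro i
        refine Fin.cases ?_ (fun i => ?_) i
        · rw [hSP0]
          exact hMN.trans hNH₁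
        · rw [hSPs]
          exact (hS₁K i).trans hKH₁
      · intro q hq hd
        rw [hH₁card, hq.dvd_mul, ha] at hd
        rcases hd with hd | hd
        · rw [(Nat.prime_dvd_prime_iff_eq hq hp).1 (hq.dvd_of_dvd_pow hd)]
          exact hpρ
        · exact Finset.mem_of_mem_erase (hHρ q hq hd)
      · intro q
        constructor
        · intro hq
          by_cases hqp : q = p
          · exact ⟨0, by rw [hSp0, hqp]⟩
          · obtain ⟨i, hi⟩ := (hp' q).1 (Finset.mem_erase.2 ⟨hqp, hq⟩)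
            exact ⟨i.succ, by rw [hSps, hS₁p, hi]⟩
        · rintro ⟨i, hi⟩
          revert hi
          refine Fin.cases ?_ (fun i => ?_) i
          · intro hi
            rw [← hi, hSp0]
            exact hpρ
          · intro hi
            rw [hSps, hS₁p] at hi
            exact Finset.mem_of_mem_erase ((hp' q).2 ⟨i, hi⟩)
    · rw [Finset.erase_eq_of_notMem hpρ] at hHρ hp'
      refine ⟨m, S₁, K, hS₁K, ?_, ?_⟩
      · intro q hq hd
        rw [hKcard] at hd
        exact hHρ q hq hd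
      · intro q
        rw [hp' q]
        exact Iff.rfl

/-- **Existence of S-systems.** A finite solvable group `G` and a set `ρ` of primes dividing
`|G|`: there is an S-system in `G` with set of primes `ρ`. -/
theorem exists_SSys {G : Type*} [Group G] [Finite G] [Group.IsSolvable G] (ρ : Finset ℕ)
    (hρ : ∀ p ∈ ρ, p.Prime ∧ p ∣ Nat.card G) :
    ∃ S : SSys G (Fin ρ.card), ∀ q, q ∈ ρ ↔ ∃ i, S.p i = q := by
  classical
  obtain ⟨m, S, -, -, -, h⟩ := exists_SSys_aux (Nat.card G) G le_rfl ρ hρ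
  have hm : ρ.card = m := by
    have h1 : ρ = Finset.univ.image S.p := by
      ext q
      rw [h q]
      simp
    rw [h1, Finset.card_image_of_injective _ S.inj]
    simp
  subst hm
  exact ⟨S, h⟩

end MP78a5
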