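import Pool.Agent.Lib_MP_78a5c6.MCount2
import Pool.Agent.Lib_MP_78a5c6.SExists
import Pool.Agent.Lib_MP_78a5c6.Rank

/-!
# MP_78a5c6_al, chapter (E): from S-systems to the number of primes of a solvable group

Only the primes at least `T` are put in the S-system; the smaller ones are counted by
`Nat.primeCounting' T`.
-/

namespace MP78a5

/-- `f` bounds the number of pairwise commuting elements of different prime orders -/
def CommBound (H : Type*) [Group H] (f : ℕ) : Prop :=
  ∀ (ι : Type) (s : Finset ι) (p : ι → ℕ), (∀ i ∈ s, (p i).Prime) → Set.InjOn p s →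
    ∀ x : ι → H, (∀ i ∈ s, orderOf (x i) = p i) → (∀ i ∈ s, ∀ j ∈ s, x i * x j = x j * x i) →
    s.card ≤ f

theorem CommBound.cBound {H : Type*} [Group H] {f : ℕ} (hf : CommBound H f)
    {ι : Type} [LinearOrder ι] (S : SSys H ι) : S.CBound f := by
  intro s x hx hc
  exact hf ι s S.p (fun i _ => S.prime i) (fun i _ j _ h => S.inj h) x
    (fun i hi => S.orderOf_eq (hx i hi).1 (hx i hi).2) hc

/-- a solvable group with the arithmetic condition `Good` has at most `4 f` primes -/
theorem card_primeFactors_le_of_good {H : Type*} [Group H] [Finite H] [Group.IsSolvable H]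
    {f T : ℕ} (hf : CommBound H f) (hT : 3 ≤ T) (hfT : f < T)
    (hgood : Good f T (Nat.primeCounting' T)) : (Nat.card H).primeFactors.card ≤ 4 * f := by
  classical
  obtain ⟨S, hS⟩ := exists_SSys (G := H) ((Nat.card H).primeFactors.filter (fun q => T ≤ q))
    (by
      intro p hp
      rw [Finset.mem_filter, Nat.mem_primeFactors] at hp
      exact ⟨hp.1.1, hp.1.2.1⟩)
  have hp : ∀ i, T ≤ S.p i := by
    intro i
    have := (hS (S.p i)).2 ⟨i, rfl⟩
    exact (Finset.mem_filter.1 this).2
  have h1 := S.card_add_le_of_good (fun i j k h1 h2 => S.rank_lemma h1 h2)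
    (fun j k h1 h2 => S.dvd_sub_one_of_r_eq_one h1 h2) (hf.cBound S) hp hfT hT hgood
  rw [Fintype.card_fin] at h1
  have h2 : ((Nat.card H).primeFactors.filter (fun q => ¬ T ≤ q)).card ≤
      Nat.primeCounting' T := by
    unfold Nat.primeCounting'
    rw [Nat.count_eq_card_filter_range]
    refine Finset.card_le_card ?_
    intro q hq
    rw [Finset.mem_filter, Nat.mem_primeFactors] at hq
    rw [Finset.mem_filter, Finset.mem_range]
    exact ⟨by omega, hq.1.1⟩
  have h3 := Finset.card_filter_add_card_filter_not (s := (Nat.card H).primeFactors)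
    (fun q => T ≤ q)
  omega

/-- **The bound for solvable groups**, from the existence of a good `T` for every `f` -/
theorem card_primeFactors_le {H : Type*} [Group H] [Finite H] [Group.IsSolvable H] {f : ℕ}
    (hf : CommBound H f)
    (hgood : ∀ f : ℕ, 1 ≤ f → ∃ T, 3 ≤ T ∧ f < T ∧ Good f T (Nat.primeCounting' T)) :
    (Nat.card H).primeFactors.card ≤ 4 * f := by
  classical
  rcases (Nat.card H).primeFactors.eq_empty_or_nonempty with h | ⟨p, hp⟩
  · rw [h]
    simp
  · have hpp := Nat.mem_primeFactors.1 hp
    have : Fact p.Prime := ⟨hpp.1⟩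
    obtain ⟨x, hx⟩ := exists_prime_orderOf_dvd_card' (G := H) p hpp.2.1
    have h1 := hf Unit {()} (fun _ => p) (fun _ _ => hpp.1) (by
      intro a _ b _ _
      rfl) (fun _ => x) (fun _ _ => hx) (fun _ _ _ _ => rfl)
    rw [Finset.card_singleton] at h1
    obtain ⟨T, hT, hfT, hg⟩ := hgood f h1
    exact card_primeFactors_le_of_good hf hT hfT hg

end MP78a5
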