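import Pool.Agent.Lib_MP_78a5c6.MFree
import Pool.Agent.Lib_MP_78a5c6.MCover

/-!
# MP_78a5c6_al, chapter (D): the two step lemmas (helper54)

`b` is a new index: `X b = ⊥` and no `c` with `X c ≠ ⊥` lies below `b`. So every `X c` (`c ≠ b`)
normalises `P b` (either `c` lies above `b`, or `X c` and `P b` commute). `A` = product of the
`X c`, `c ≠ b`, abelian of order prime to `p b`. `W = Hom(P b, F)`, `F` an algebraic closure of
`ZMod (p b)`, is a direct sum of simultaneous eigenspaces of `A`.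

`step_free`: take `k` independent eigenvectors `u_i ∈ W` with characters `χ_i : A → Fˣ`, put
`X' c = {x ∈ X c | ∀ i, χ_i x = 1}` (index at most `(p c)^k`, because `χ_i (X c)` is cyclic of
exponent `p c`; `X' c = X c` if `c` does not lie above `b`, because then `X c` acts trivially on
`W`), `X' b = C_(P b)(X')`. The `u_i` are fixed by all `X' c`, so they restrict injectively to
`C_(P b)(X')` (averaging), hence its rank is at least `k`.

`step_cover`: `Q = P q` acts faithfully on `P b`, all `X c` with `c` above `b` normalise `Q` and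
permute the weights of `Q` on `W` (`c = q`: trivially; `c` unrelated to `q`: trivially; `c` above
`q`; `c` strictly between `b` and `q` is excluded by `hcov`). `X a ≠ ⊥` does not centralise `Q`,
so it moves a weight `w`. Let `K ≥ Stab_(X a)(w)` be a subgroup of index `p a` of `X a`,
`A'' = K * prod_(c ≠ a, b) X c` (it contains `Stab_A(w)`: the `p a`-part of `t` is a power of `t`),
`y ∈ X a` outside `K`. The sets `y^j A'' w`, `j < p a`, are disjoint
(`y^j a w = w → y^j a ∈ Stab_A(w) ≤ A''`). `U = sum of W_w'` over `w' ∈ A'' w` is `A''`-invariant;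
let `u ∈ U` be a common eigenvector of `A''`, character `χ`. Then `u, y u, ..., y^(p a - 1) u` lie in
different blocks, so they are independent, and they have the same `A''`-character `χ`. Put
`X' c = {x ∈ X c | χ x = 1}` for `c ≠ a, b`, `X' a = {x ∈ K | χ x = 1}`, `X' b = C_(P b)(X')`.
-/

namespace MP78a5

namespace SSys

variable {G : Type*} [Group G] {ι : Type*} [LinearOrder ι] (S : SSys G ι)

theorem step_free [Finite G] [Finite ι] (T : S.State) (b : ι) (hb : T.X b = ⊥)
    (hnb : ∀ c, T.X c ≠ ⊥ → ¬ S.rel c b) (k : ℕ) (hk : k ≤ S.r b) :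
    ∃ T' : S.State, (∀ c, c ≠ b → T'.X c ≤ T.X c) ∧
      (∀ c, c ≠ b → S.rk c (T.X c) ≤ S.rk c (T'.X c) + k) ∧
      (∀ c, c ≠ b → ¬ S.rel b c → T'.X c = T.X c) ∧
      k ≤ S.rk b (T'.X b) := by
  exact S.step_free_proof T b hb hnb k hk

theorem step_cover [Finite G] [Finite ι] (T : S.State) (b : ι) (hb : T.X b = ⊥)
    (hnb : ∀ c, T.X c ≠ ⊥ → ¬ S.rel c b) (q a : ι) (hbq : S.rel b q) (hqa : S.rel q a)
    (ha : T.X a ≠ ⊥) (hcov : ∀ c, T.X c ≠ ⊥ → S.rel b c → ¬ S.rel c q) :
    ∃ T' : S.State, (∀ c, c ≠ b → T'.X c ≤ T.X c) ∧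
      (∀ c, c ≠ b → c ≠ a → S.rk c (T.X c) ≤ S.rk c (T'.X c) + 1) ∧
      S.rk a (T.X a) ≤ S.rk a (T'.X a) + 2 ∧
      (∀ c, c ≠ b → ¬ S.rel b c → T'.X c = T.X c) ∧
      S.p a ≤ S.rk b (T'.X b) := by
  exact S.step_cover_proof T b hb hnb q a hbq hqa ha hcov

end SSys

end MP78a5
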