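import Pool.Agent.Lib_MP_78a5c6.MState
import Pool.Agent.Lib_MP_78a5c6.Rank

/-!
# MP_78a5c6_al, chapter (D): common tools for the step lemmas
-/

namespace MP78a5

open Module Submodule

namespace SSys

variable {G : Type*} [Group G] {ι : Type*} [LinearOrder ι] {S : SSys G ι}

/-- the product of the members of a state -/
def State.A (T : S.State) : Subgroup G := ⨆ c, T.X c

theorem State.X_le_A (T : S.State) (c : ι) : T.X c ≤ T.A := le_iSup T.X c

theorem State.X_comm (T : S.State) (c c' : ι) {x y : G} (hx : x ∈ T.X c) (hy : y ∈ T.X c') :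
    x * y = y * x := by
  by_cases h : c = c'
  · subst h
    exact S.comm c x (T.le c hx) y (T.le c hy)
  · exact T.comm c c' h x hx y hy

theorem State.A_comm (T : S.State) : ∀ x ∈ T.A, ∀ y ∈ T.A, x * y = y * x := by
  have h : T.A ≤ Subgroup.centralizer (T.A : Set G) := by
    refine iSup_le (fun c => ?_)
    rw [Subgroup.le_centralizer_iff]
    refine iSup_le (fun c' => ?_)
    intro x hx
    rw [Subgroup.mem_centralizer_iff]
    intro y hy
    exact T.X_comm c c' hy hx
  intro x hx y hy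
  exact ((Subgroup.mem_centralizer_iff.1 (h hx)) y hy).symm

theorem State.A_pow [Fintype ι] (T : S.State) (b : ι) (hb : T.X b = ⊥) :
    ∀ x ∈ T.A, x ^ (∏ c ∈ Finset.univ.erase b, S.p c) = 1 := by
  intro x hx
  have h : x ∈ T.A ∧ x ^ (∏ c ∈ Finset.univ.erase b, S.p c) = 1 := by
    refine Subgroup.iSup_induction T.X (C := fun x => x ∈ T.A ∧
      x ^ (∏ c ∈ Finset.univ.erase b, S.p c) = 1) hx ?_ ⟨T.A.one_mem, one_pow _⟩ ?_
    · intro c x hx
      refine ⟨T.X_le_A c hx, ?_⟩
      by_cases hc : c = b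
      · subst hc
        rw [hb, Subgroup.mem_bot] at hx
        rw [hx, one_pow]
      · have h1 : S.p c ∣ ∏ c ∈ Finset.univ.erase b, S.p c :=
          Finset.dvd_prod_of_mem _ (Finset.mem_erase.2 ⟨hc, Finset.mem_univ c⟩)
        obtain ⟨m, hm⟩ := h1
        rw [hm, pow_mul, S.pow c x (T.le c hx), one_pow]
    · rintro x y ⟨hx, hx'⟩ ⟨hy, hy'⟩
      refine ⟨T.A.mul_mem hx hy, ?_⟩
      have hc : Commute x y := T.A_comm x hx y hy
      rw [hc.mul_pow, hx', hy', one_mul]
  exact h.2

theorem State.not_dvd_card_A [Finite G] [Finite ι] (T : S.State) (b : ι) (hb : T.X b = ⊥) :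
    ¬ S.p b ∣ Nat.card T.A := by
  classical
  have := Fintype.ofFinite ι
  intro h
  have hp : Fact (S.p b).Prime := ⟨S.prime b⟩
  obtain ⟨x, hx⟩ := exists_prime_orderOf_dvd_card' (G := T.A) (S.p b) h
  have h1 : x ^ (∏ c ∈ Finset.univ.erase b, S.p c) = 1 := by
    apply Subtype.ext
    simpa using T.A_pow b hb x x.2
  have h2 := orderOf_dvd_of_pow_eq_one h1
  rw [hx] at h2
  obtain ⟨c, hc, hdvd⟩ := ((S.prime b).prime.dvd_finsetProd_iff _).1 h2
  have h3 := (Nat.prime_dvd_prime_iff_eq (S.prime b) (S.prime c)).1 hdvd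
  exact (Finset.mem_erase.1 hc).1 (S.inj h3).symm

theorem State.card_ne_zero [Finite G] [Finite ι] (T : S.State) (b : ι) (hb : T.X b = ⊥)
    (F : Type*) [Field F] [CharP F (S.p b)] {A' : Subgroup G} (hA' : A' ≤ T.A) :
    (Nat.card A' : F) ≠ 0 := by
  rw [Ne, CharP.cast_eq_zero_iff F (S.p b)]
  intro h
  exact T.not_dvd_card_A b hb (h.trans (Subgroup.card_dvd_of_le hA'))

/-- members of the state normalise `P b` -/
theorem State.X_norm (T : S.State) {b : ι}
    (hnb : ∀ c, T.X c ≠ ⊥ → ¬ S.rel c b) (c : ι) {a x : G} (ha : a ∈ T.X c) (hx : x ∈ S.P b) :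
    a * x * a⁻¹ ∈ S.P b := by
  by_cases h0 : T.X c = ⊥
  · rw [h0, Subgroup.mem_bot] at ha
    rw [ha]
    simpa using hx
  · by_cases hbc : S.rel b c
    · exact S.norm b c hbc.1 a (T.le c ha) x hx
    · have h1 := S.commute_of_not_rel (hnb c h0) hbc (T.le c ha) hx
      rw [h1]
      simpa using hx

/-- members of the state which do not lie above `b` centralise `P b` -/
theorem State.X_cent (T : S.State) {b : ι}
    (hnb : ∀ c, T.X c ≠ ⊥ → ¬ S.rel c b) {c : ι} (hc : ¬ S.rel b c) {a x : G} (ha : a ∈ T.X c)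
    (hx : x ∈ S.P b) : a * x = x * a := by
  by_cases h0 : T.X c = ⊥
  · rw [h0, Subgroup.mem_bot] at ha
    rw [ha]
    simp
  · exact S.commute_of_not_rel (hnb c h0) hc (T.le c ha) hx

theorem State.A_norm (T : S.State) {b : ι}
    (hnb : ∀ c, T.X c ≠ ⊥ → ¬ S.rel c b) : ∀ a ∈ T.A, ∀ x ∈ S.P b, a * x * a⁻¹ ∈ S.P b := by
  intro a ha
  refine Subgroup.iSup_induction T.X (C := fun a => ∀ x ∈ S.P b, a * x * a⁻¹ ∈ S.P b) ha
    ?_ ?_ ?_
  · intro c a ha x hx
    exact T.X_norm hnb c ha hx
  · intro x hx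
    simpa using hx
  · intro a a' h h' x hx
    have h1 := h _ (h' x hx)
    have e : a * (a' * x * a'⁻¹) * a⁻¹ = a * a' * x * (a * a')⁻¹ := by group
    rwa [e] at h1

theorem State.A_norm' (T : S.State) {b : ι}
    (hnb : ∀ c, T.X c ≠ ⊥ → ¬ S.rel c b) : ∀ a ∈ T.A, ∀ x ∈ S.P b, a⁻¹ * x * a ∈ S.P b := by
  intro a ha x hx
  simpa using T.A_norm hnb a⁻¹ (T.A.inv_mem ha) x hx

/-- the new state: `X' c` for `c ≠ b` and `C_(P b)(X')`. -/
theorem State.finish [Finite G] [Finite ι] (T : S.State) {b : ι} (hb : T.X b = ⊥)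
    (hnb : ∀ c, T.X c ≠ ⊥ → ¬ S.rel c b) {F : Type*} [Field F] [CharP F (S.p b)]
    (X' : ι → Subgroup G) (hX' : ∀ c, c ≠ b → X' c ≤ T.X c) {k : ℕ} (u : Fin k → (G → F))
    (hu : LinearIndependent F u) (huV : ∀ i, u i ∈ V F (S.P b))
    (hfix : ∀ i, ∀ c, c ≠ b → ∀ a ∈ X' c, act F a (u i) = u i) :
    ∃ T' : S.State, (∀ c, c ≠ b → T'.X c = X' c) ∧ k ≤ S.rk b (T'.X b) := by
  classical
  let X'' : ι → Subgroup G := fun c => if c = b then ⊥ else X' c
  have hX''b : ∀ c, c = b → X'' c = ⊥ := fun c hc => if_pos hc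
  have hX''c : ∀ c, c ≠ b → X'' c = X' c := fun c hc => if_neg hc
  have hX''T : ∀ c, X'' c ≤ T.X c := by
    intro c
    by_cases hc : c = b
    · rw [hX''b c hc]; exact bot_le
    · rw [hX''c c hc]; exact hX' c hc
  let A' : Subgroup G := ⨆ c, X'' c
  have hA'A : A' ≤ T.A := iSup_mono hX''T
  let C : Subgroup G := S.P b ⊓ Subgroup.centralizer (A' : Set G)
  have hC : ∀ x, x ∈ C ↔ x ∈ S.P b ∧ ∀ a ∈ A', a * x = x * a := by
    intro x
    simp only [C, Subgroup.mem_inf, Subgroup.mem_centralizer_iff]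
    rfl
  let T' : S.State :=
    { X := fun c => if c = b then C else X' c
      le := by
        intro c
        by_cases hc : c = b
        · simp only [hc, if_true]
          exact inf_le_left
        · simp only [hc, if_false]
          exact (hX' c hc).trans (T.le c)
      comm := by
        intro c c' hcc' x hx y hy
        by_cases hc : c = b
        · have hc' : c' ≠ b := by
            rintro rfl
            exact hcc' hc
          simp only [hc, if_true] at hx
          simp only [hc', if_false] at hy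
          have h1 : y ∈ A' := by
            have : y ∈ X'' c' := by rw [hX''c c' hc']; exact hy
            exact (le_iSup X'' c') this
          exact (((hC x).1 hx).2 y h1).symm
        · simp only [hc, if_false] at hx
          by_cases hc' : c' = b
          · simp only [hc', if_true] at hy
            have h1 : x ∈ A' := by
              have : x ∈ X'' c := by rw [hX''c c hc]; exact hx
              exact (le_iSup X'' c) this
            exact ((hC y).1 hy).2 x h1
          · simp only [hc', if_false] at hy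
            exact T.comm c c' hcc' x (hX' c hc hx) y (hX' c' hc' hy) }
  have hT'b : T'.X b = C := if_pos rfl
  have hT'c : ∀ c, c ≠ b → T'.X c = X' c := fun c hc => if_neg hc
  refine ⟨T', hT'c, ?_⟩
  rw [hT'b]
  have hp : Fact (S.p b).Prime := ⟨S.prime b⟩
  refine le_rank_centralizer (p := S.p b) (S.P b) A' (S.comm b) (S.pow b)
    (T.card_ne_zero b hb F hA'A) (fun a ha x hx => T.A_norm hnb a (hA'A ha) x hx) u hu huV
    ?_ C hC (S.card_eq_rk inf_le_left)
  intro i a ha
  refine Subgroup.iSup_induction X'' (C := fun a => act F a (u i) = u i) ha ?_ ?_ ?_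
  · intro c a ha
    by_cases hc : c = b
    · rw [hX''b c hc, Subgroup.mem_bot] at ha
      rw [ha]; simp
    · rw [hX''c c hc] at ha
      exact hfix i c hc a ha
  · simp
  · intro a a' h h'
    rw [act_mul_apply, h', h]

/-- a weight kills a subgroup of corank at most one -/
theorem rk_le_rk_ker1 [Finite G] {F : Type*} [Field F] {c : ι} {X : Subgroup G} (hX : X ≤ S.P c)
    (χ : G → F) (h1 : χ 1 = 1) (hm : ∀ a ∈ X, ∀ b ∈ X, χ (a * b) = χ a * χ b) :
    S.rk c X ≤ S.rk c (ker1 X χ h1 hm) + 1 := by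
  have h2 := card_le_mul_card_ker1 X χ h1 hm (S.prime c).pos (fun y hy => S.pow c y (hX hy))
  have h3 : ker1 X χ h1 hm ≤ S.P c := fun y hy => hX hy.1
  rw [S.card_eq_rk hX, S.card_eq_rk h3, mul_comm, ← pow_succ] at h2
  exact (Nat.pow_le_pow_iff_right (S.prime c).one_lt).1 h2

/-- finitely many weights -/
theorem exists_common_kernel [Finite G] {F : Type*} [Field F] {c : ι} {X : Subgroup G}
    (hX : X ≤ S.P c) {κ : Type*} (s : Finset κ) (χ : κ → G → F) (h1 : ∀ i ∈ s, χ i 1 = 1)
    (hm : ∀ i ∈ s, ∀ a ∈ X, ∀ b ∈ X, χ i (a * b) = χ i a * χ i b) :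
    ∃ X' : Subgroup G, (∀ x, x ∈ X' ↔ x ∈ X ∧ ∀ i ∈ s, χ i x = 1) ∧
      S.rk c X ≤ S.rk c X' + s.card := by
  classical
  induction s using Finset.induction_on with
  | empty => exact ⟨X, fun x => by simp, by simp⟩
  | insert j s hj ih =>
    obtain ⟨X', hX', hrk⟩ := ih (fun i hi => h1 i (Finset.mem_insert_of_mem hi))
      (fun i hi => hm i (Finset.mem_insert_of_mem hi))
    have hX'X : X' ≤ X := fun x hx => ((hX' x).1 hx).1
    have h2 := rk_le_rk_ker1 (S := S) (hX'X.trans hX) (χ j) (h1 j (Finset.mem_insert_self j s))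
      (fun a ha b hb => hm j (Finset.mem_insert_self j s) a (hX'X ha) b (hX'X hb))
    refine ⟨ker1 X' (χ j) (h1 j (Finset.mem_insert_self j s))
      (fun a ha b hb => hm j (Finset.mem_insert_self j s) a (hX'X ha) b (hX'X hb)), ?_, ?_⟩
    · intro x
      rw [mem_ker1, hX' x]
      simp only [Finset.mem_insert, forall_eq_or_imp]
      tauto
    · rw [Finset.card_insert_of_notMem hj]
      omega

end SSys

end MP78a5
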