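import Pool.Agent.Lib_MP_78a5c6.NumDefs
import Mathlib.Tactic

/-!
# MP_78a5c6_al, chapter (E): the arithmetic for large `f`

`T = ⌈5 f / 3⌉` works as soon as the number `s` of primes below `T` satisfies `5 s + 6 ≤ T`.
-/

set_option autoImplicit false

namespace MP78a5

theorem good_large {f T s : ℕ} (hf : 1 ≤ f) (h1 : 5 * f ≤ 3 * T) (h2 : 3 * T ≤ 5 * f + 2)
    (hs : 5 * s + 6 ≤ T) : Good f T s := by
  intro x y z w C2 C3 hzw
  have a1 := C3 z 0 le_rfl (Nat.zero_le _) (by unfold cst; omega)
  have a2 := C3 0 w (Nat.zero_le _) le_rfl (by unfold cst; omega)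
  have a4 := C2 y 0 le_rfl (Nat.zero_le _) (by unfold cst; omega)
  have a5 := C2 0 (min (z + w) (T / 2)) (Nat.zero_le _) (min_le_left _ _) (by
    have := min_le_right (z + w) (T / 2)
    unfold cst
    omega)
  rcases le_total (z + w) (T / 2) with h | h
  · rw [min_eq_left h] at a5
    omega
  · rw [min_eq_right h] at a5
    omega

end MP78a5
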