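import Mathlib

/-!
# MP_78a5c6_al: the bound `5 π'(T) + 6 ≤ T` for `T ≥ 391`

Below `2049`: a loop over the numbers prime to `43#`; above: doubling with central binomial
coefficients.
-/

namespace MP78a5

open Nat Finset

/-- the product of the primes up to `43` -/
def NPM : ℕ := 13082761331670030

/-- the primes up to `43` and the numbers `≥ 44` prime to `NPM` -/
def NPg (n : ℕ) : Bool :=
  if n < 44 then [2, 3, 5, 7, 11, 13, 17, 19, 23, 29, 31, 37, 41, 43].contains n
  else Nat.gcd n NPM == 1

/-- check `5 c + 6 ≤ T` for `T = 391, ...`, where `c` is the number of `n < T` with `NPg n`. -/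
def NPloop : ℕ → ℕ → ℕ → Bool
  | 0, _, _ => true
  | k + 1, T, c => (T < 391 || 5 * c + 6 ≤ T) && NPloop k (T + 1) (if NPg T then c + 1 else c)

theorem NPg_of_prime {p : ℕ} (hp : p.Prime) : NPg p = true := by
  unfold NPg
  by_cases h : p < 44
  · rw [if_pos h]
    revert hp
    interval_cases p <;> decide
  · rw [if_neg h, beq_iff_eq]
    change Nat.Coprime p NPM
    rw [Nat.Prime.coprime_iff_not_dvd hp]
    intro hd
    have hM : NPM = 2 * 3 * 5 * 7 * 11 * 13 * 17 * 19 * 23 * 29 * 31 * 37 * 41 * 43 := by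
      unfold NPM; norm_num
    rw [hM] at hd
    simp only [hp.dvd_mul] at hd
    have hle : ∀ q : ℕ, 0 < q → q < 44 → ¬ p ∣ q := fun q hq hq' hd' => by
      have := Nat.le_of_dvd hq hd'
      omega
    have h2 := hle 2 (by norm_num) (by norm_num)
    have h3 := hle 3 (by norm_num) (by norm_num)
    have h5 := hle 5 (by norm_num) (by norm_num)
    have h7 := hle 7 (by norm_num) (by norm_num)
    have h11 := hle 11 (by norm_num) (by norm_num)
    have h13 := hle 13 (by norm_num) (by norm_num)
    have h17 := hle 17 (by norm_num) (by norm_num)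
    have h19 := hle 19 (by norm_num) (by norm_num)
    have h23 := hle 23 (by norm_num) (by norm_num)
    have h29 := hle 29 (by norm_num) (by norm_num)
    have h31 := hle 31 (by norm_num) (by norm_num)
    have h37 := hle 37 (by norm_num) (by norm_num)
    have h41 := hle 41 (by norm_num) (by norm_num)
    have h43 := hle 43 (by norm_num) (by norm_num)
    tauto

theorem NPloop_spec : ∀ (k T : ℕ), NPloop k T (Nat.count (fun n => NPg n = true) T) = true →
    ∀ T', T ≤ T' → T' < T + k → 391 ≤ T' → 5 * Nat.count (fun n => NPg n = true) T' + 6 ≤ T' := by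
  intro k
  induction k with
  | zero =>
    intro T _ T' h1 h2 _
    omega
  | succ k ih =>
    intro T h T' h1 h2 h3
    rw [NPloop, Bool.and_eq_true] at h
    rcases Nat.eq_or_lt_of_le h1 with h4 | h4
    · subst h4
      have h5 := h.1
      simp only [Bool.or_eq_true, decide_eq_true_eq] at h5
      omega
    · have h5 := h.2
      have h6 : (if NPg T = true then Nat.count (fun n => NPg n = true) T + 1
          else Nat.count (fun n => NPg n = true) T) =
          Nat.count (fun n => NPg n = true) (T + 1) := by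
        rw [Nat.count_succ]
        split_ifs <;> rfl
      rw [h6] at h5
      exact ih (T + 1) h5 T' h4 (by omega) h3

theorem NPloop_true : NPloop 2060 0 0 = true := by decide +kernel

theorem primeCounting'_le_small (T : ℕ) (h1 : 391 ≤ T) (h2 : T < 2060) :
    5 * Nat.primeCounting' T + 6 ≤ T := by
  have h3 := NPloop_spec 2060 0 (by rw [Nat.count_zero]; exact NPloop_true) T (Nat.zero_le _)
    (by omega) h1
  have h4 : Nat.primeCounting' T ≤ Nat.count (fun n => NPg n = true) T := by
    unfold Nat.primeCounting'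
    exact Nat.count_mono_left (fun k _ hk => NPg_of_prime hk)
  omega

/-- primes between `m + 1` and `m + n` -/
theorem pow_card_le {m n : ℕ} (h : n ≤ m) :
    (m + 1) ^ (Nat.primeCounting' (m + n + 1) - Nat.primeCounting' (m + 1)) ≤
      Nat.choose (m + n) m := by
  have h1 : Nat.primeCounting' (m + n + 1) =
      Nat.primeCounting' (m + 1) + ((Ico (m + 1) (m + n + 1)).filter Nat.Prime).card := by
    unfold Nat.primeCounting'
    rw [Nat.count_eq_card_filter_range, Nat.count_eq_card_filter_range, ← Ico_zero_eq_range,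
      ← Ico_zero_eq_range, ← Ico_union_Ico_eq_Ico (Nat.zero_le (m + 1)) (by omega : m + 1 ≤ m + n + 1),
      filter_union, card_union_of_disjoint]
    exact disjoint_filter_filter (Ico_disjoint_Ico_consecutive _ _ _)
  rw [h1, Nat.add_sub_cancel_left]
  have h2 : (∏ p ∈ (Ico (m + 1) (m + n + 1)).filter Nat.Prime, p) ∣ Nat.choose (m + n) m :=
    prod_primes_dvd _ (fun _ hk ↦ (mem_filter.1 hk).2.prime) fun p hp ↦ by
      rw [mem_filter, mem_Ico] at hp
      exact hp.2.dvd_choose_add hp.1.1 (h.trans_lt (m.lt_succ_self.trans_le hp.1.1))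
        (Nat.lt_succ_iff.1 hp.1.2)
  calc (m + 1) ^ ((Ico (m + 1) (m + n + 1)).filter Nat.Prime).card
      = ∏ p ∈ (Ico (m + 1) (m + n + 1)).filter Nat.Prime, (m + 1) := by rw [prod_const]
    _ ≤ ∏ p ∈ (Ico (m + 1) (m + n + 1)).filter Nat.Prime, p := by
        apply prod_le_prod'
        intro p hp
        rw [mem_filter, mem_Ico] at hp
        exact hp.1.1
    _ ≤ Nat.choose (m + n) m := Nat.le_of_dvd (Nat.choose_pos (by omega)) h2

theorem primeCounting'_le_of_pow {a b N m : ℕ} (hm : 1024 ≤ m + 1) (hab : a ≤ b)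
    (h : (m + 1) ^ (b - a) ≤ 4 ^ N) : 5 * b ≤ 5 * a + N := by
  have h1 : 2 ^ (10 * (b - a)) ≤ 2 ^ (2 * N) := by
    calc 2 ^ (10 * (b - a)) = 1024 ^ (b - a) := by rw [pow_mul]; norm_num
      _ ≤ (m + 1) ^ (b - a) := Nat.pow_le_pow_left hm _
      _ ≤ 4 ^ N := h
      _ = 2 ^ (2 * N) := by rw [pow_mul]; norm_num
  have h2 := (Nat.pow_le_pow_iff_right (by norm_num : 1 < 2)).1 h1
  omega

theorem primeCounting'_le (T : ℕ) (hT : 391 ≤ T) : 5 * Nat.primeCounting' T + 6 ≤ T := by
  induction T using Nat.strong_induction_on with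
  | _ T ih =>
  rcases Nat.lt_or_ge T 2060 with hs | hs
  · exact primeCounting'_le_small T hT hs
  -- `T = x + 1`, `x = 2 n` or `x = 2 n + 1`
  rcases Nat.even_or_odd T with ⟨n, hn⟩ | ⟨n, hn⟩
  · -- `T = 2 n`, primes `≤ 2 n - 1 = n + (n - 1)`
    obtain ⟨m, rfl⟩ : ∃ m, n = m + 1 := ⟨n - 1, by omega⟩
    -- `T = (m + 1) + m + 1`
    have hT' : T = (m + 1) + m + 1 := by omega
    have h1 := pow_card_le (m := m + 1) (n := m) (by omega)
    rw [← hT'] at h1
    have h2 : Nat.choose (m + 1 + m) (m + 1) ≤ 4 ^ m := by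
      have := Nat.choose_middle_le_pow m
      have e : m + 1 + m = 2 * m + 1 := by ring
      rw [e]
      have e2 : Nat.choose (2 * m + 1) (m + 1) = Nat.choose (2 * m + 1) m := by
        rw [← Nat.choose_symm_of_eq_add]
        omega
      rw [e2]
      exact this
    have h3 := primeCounting'_le_of_pow (m := m + 1) (by omega)
      (Nat.monotone_primeCounting' (show m + 1 + 1 ≤ T by omega)) (h1.trans h2)
    have h4 := ih (m + 1 + 1) (by omega) (by omega)
    omega
  · -- `T = 2 n + 1`
    have h1 := pow_card_le (m := n) (n := n) le_rfl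
    have hT' : T = n + n + 1 := by omega
    rw [← hT'] at h1
    have h2 : Nat.choose (n + n) n ≤ 4 ^ n := by
      have e : n + n = 2 * n := by ring
      rw [e, ← Nat.centralBinom_eq_two_mul_choose]
      exact Nat.centralBinom_le_four_pow n
    have h3 := primeCounting'_le_of_pow (m := n) (by omega)
      (Nat.monotone_primeCounting' (show n + 1 ≤ T by omega)) (h1.trans h2)
    have h4 := ih (n + 1) (by omega) (by omega)
    omega

end MP78a5
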