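import Pool.Agent.Lib_MP_78a5c6.NumSmall
import Pool.Agent.Lib_MP_78a5c6.NumLarge
import Pool.Agent.Lib_MP_78a5c6.NumPi

/-!
# MP_78a5c6_al, chapter (E): the choice of `T` for every `f`
-/

set_option autoImplicit false

namespace MP78a5

theorem exists_good (f : ℕ) (hf : 1 ≤ f) :
    ∃ T, 3 ≤ T ∧ f < T ∧ Good f T (Nat.primeCounting' T) := by
  rcases lt_or_ge f 235 with h | h
  · exact good_small f hf h
  · exact ⟨(5 * f + 2) / 3, by omega, by omega,
      good_large hf (by omega) (by omega) (primeCounting'_le _ (by omega))⟩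

end MP78a5
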