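import Pool.Agent.Lib_MP_78a5c6.NumDefs
import Mathlib.Tactic

/-!
# MP_78a5c6_al, chapter (E): the arithmetic for `f < 235`

`Good f T s` is checked for a table of `27` values of `T`.  With `Z = z + w` the constraints on
`y, z, w` give `y + Z ≤ f + ee T Z`, and then `x` is bounded by one suitable pair `(u, t)`.
-/

set_option autoImplicit false

namespace MP78a5

/-- an upper bound for `y + Z - f` -/
def ee (T Z : ℕ) : ℕ :=
  bif Nat.ble (8 * T + 12) ((Z + 3) * (Z + 3)) then
    1 + ((Z + 3) * (Z + 3) - (8 * T + 12)) / (2 * (Z + 3)) else 0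

/-- the pair `(u, min Z ((T + 2) / (u + 2) - 1))` bounds `x` well enough -/
def candN (f T s Z X u : ℕ) : Bool :=
  Nat.ble u X && (Nat.ble (u + 1) T && (Nat.ble 1 ((T + 2) / (u + 2)) &&
    Nat.ble (X + Z + s) (f + u + min Z ((T + 2) / (u + 2) - 1))))

/-- check at `Z`, where `X` bounds `y` -/
def chkX (f T s Z X : ℕ) : Bool :=
  Nat.ble (X + Z + s) (f + min X (T - 1)) || (List.range 13).any (fun u => candN f T s Z X u)

/-- check at `Z` -/
def chkZ (f T s Z : ℕ) : Bool := chkX f T s Z (f - Z + ee T Z)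

theorem cst_le_of {u t T : ℕ} (h : (t + 1) * (u + 2) ≤ T + 2) (hu : u < T) : cst u t < T := by
  unfold cst
  rcases Nat.eq_zero_or_pos t with rfl | ht
  · simpa using hu
  · have : u * (1 + t) + (2 * t - 1) + 3 = (t + 1) * (u + 2) := by
      have h1 : 2 * t - 1 + 3 = 2 * t + 2 := by omega
      rw [add_assoc, h1]; ring
    omega

theorem lt_of_cst_ge {u t R : ℕ} (ht : 1 ≤ t) (h : R ≤ cst u t) : R + 3 ≤ (u + 2) * (t + 1) := by
  unfold cst at h
  have : u * (1 + t) + (2 * t - 1) + 3 = (u + 2) * (t + 1) := by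
    have h1 : 2 * t - 1 + 3 = 2 * t + 2 := by omega
    rw [add_assoc, h1]; ring
  omega

/-- the bound for `y + z + w` -/
theorem le_ee {f T y z w : ℕ} (hT : f < T)
    (h3 : ∀ u t, u ≤ z → t ≤ w → cst u t < 2 * T → y + u + t ≤ f) (hzw : z + w ≤ f) :
    y + (z + w) ≤ f + ee T (z + w) := by
  by_contra hcon
  push Not at hcon
  obtain ⟨δ, hδ⟩ : ∃ δ, y + (z + w) = f + 1 + δ := ⟨y + (z + w) - (f + 1), by omega⟩
  have h1 := h3 z 0 le_rfl (Nat.zero_le _) (by unfold cst; omega)
  have h2 := h3 0 w (Nat.zero_le _) le_rfl (by unfold cst; omega)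
  have e1 : 2 * T + 3 ≤ (z - δ + 2) * (w + 1) := by
    refine lt_of_cst_ge (by omega) ?_
    by_contra h
    have := h3 (z - δ) w (by omega) le_rfl (by omega)
    omega
  have e2 : 2 * T + 3 ≤ (z + 2) * (w - δ + 1) := by
    refine lt_of_cst_ge (by omega) ?_
    by_contra h
    have := h3 z (w - δ) le_rfl (by omega) (by omega)
    omega
  obtain ⟨z', rfl⟩ : ∃ z', z = z' + δ := ⟨z - δ, by omega⟩
  obtain ⟨w', rfl⟩ : ∃ w', w = w' + δ := ⟨w - δ, by omega⟩
  rw [Nat.add_sub_cancel] at e1 e2
  have key : 2 * (z' + δ + (w' + δ) + 3) * δ + (8 * T + 12) ≤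
      (z' + δ + (w' + δ) + 3) * (z' + δ + (w' + δ) + 3) := by
    zify at e1 e2 ⊢
    nlinarith [sq_nonneg ((z' : ℤ) + 2 - (w' + 1))]
  have hle : δ + 1 ≤ ee T (z' + δ + (w' + δ)) := by
    unfold ee
    have hb : Nat.ble (8 * T + 12) ((z' + δ + (w' + δ) + 3) * (z' + δ + (w' + δ) + 3)) = true := by
      rw [Nat.ble_eq]
      exact le_trans (Nat.le_add_left _ _) key
    rw [hb]
    simp only [cond_true]
    have hq : δ ≤ ((z' + δ + (w' + δ) + 3) * (z' + δ + (w' + δ) + 3) - (8 * T + 12)) /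
        (2 * (z' + δ + (w' + δ) + 3)) := by
      rw [Nat.le_div_iff_mul_le (by omega)]
      have := key
      rw [mul_comm δ]
      omega
    omega
  omega

theorem good_of_chk {f T s : ℕ} (hT : f < T) (h : ∀ Z ≤ f, chkZ f T s Z = true) :
    Good f T s := by
  intro x y z w C2 C3 hzw
  have hy := le_ee hT C3 hzw
  have hc := h (z + w) hzw
  unfold chkZ at hc
  generalize hX : f - (z + w) + ee T (z + w) = X at hc
  have hyX : y ≤ X := by omega
  have fin : ∀ u t, u ≤ X → t ≤ z + w → cst u t < T → X + (z + w) + s ≤ f + u + t →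
      x + y + z + w + s ≤ 2 * f := by
    intro u t hu ht hc hb
    rcases le_total u y with huy | huy
    · have := C2 u t huy ht hc
      omega
    · have hc' : cst y t < T := by
        refine lt_of_le_of_lt ?_ hc
        unfold cst
        exact Nat.add_le_add_right (Nat.mul_le_mul_right _ huy) _
      have := C2 y t le_rfl ht hc'
      omega
  unfold chkX at hc
  rw [Bool.or_eq_true] at hc
  rcases hc with hc | hc
  · rw [Nat.ble_eq] at hc
    refine fin (min X (T - 1)) 0 (min_le_left _ _) (Nat.zero_le _) ?_ (by omega)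
    have := min_le_right X (T - 1)
    unfold cst
    omega
  · rw [List.any_eq_true] at hc
    obtain ⟨u, -, hu⟩ := hc
    unfold candN at hu
    simp only [Bool.and_eq_true, Nat.ble_eq] at hu
    obtain ⟨h1, h2, h3, h4⟩ := hu
    refine fin u (min (z + w) ((T + 2) / (u + 2) - 1)) h1 (min_le_left _ _) ?_ h4
    refine cst_le_of ?_ (by omega)
    have h5 := min_le_right (z + w) ((T + 2) / (u + 2) - 1)
    have h6 : (T + 2) / (u + 2) * (u + 2) ≤ T + 2 := Nat.div_mul_le_self _ _
    have h7 : min (z + w) ((T + 2) / (u + 2) - 1) + 1 ≤ (T + 2) / (u + 2) := by omega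
    exact le_trans (Nat.mul_le_mul_right _ h7) h6

/-- the primes below `400` -/
def pl : List ℕ := [2, 3, 5, 7, 11, 13, 17, 19, 23, 29, 31, 37, 41, 43, 47, 53, 59, 61, 67, 71, 73,
  79, 83, 89, 97, 101, 103, 107, 109, 113, 127, 131, 137, 139, 149, 151, 157, 163, 167, 173, 179,
  181, 191, 193, 197, 199, 211, 223, 227, 229, 233, 239, 241, 251, 257, 263, 269, 271, 277, 281,
  283, 293, 307, 311, 313, 317, 331, 337, 347, 349, 353, 359, 367, 373, 379, 383, 389, 397]

/-- `n` is in the list, at most `1`, or divisible by a smaller number of the list -/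
def plchk (n : ℕ) : Bool := Nat.ble n 1 || (pl.any (fun p => Nat.beq p n) ||
  [2, 3, 5, 7, 11, 13, 17, 19].any (fun d => Nat.ble (d + 1) n && Nat.beq (n % d) 0))

theorem plchk_all : (List.range 400).all plchk = true := by decide +kernel

theorem mem_pl {n : ℕ} (h : n < 400) (hp : n.Prime) : n ∈ pl := by
  have h1 := plchk_all
  rw [List.all_eq_true] at h1
  have h2 := h1 n (List.mem_range.2 h)
  unfold plchk at h2
  rw [Bool.or_eq_true, Bool.or_eq_true, Nat.ble_eq, List.any_eq_true, List.any_eq_true] at h2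
  rcases h2 with h2 | ⟨p, hp1, hp2⟩ | ⟨d, hd1, hd2⟩
  · exact absurd hp.two_le (by omega)
  · have hp3 := Nat.eq_of_beq_eq_true hp2
    rwa [← hp3]
  · exfalso
    rw [Bool.and_eq_true, Nat.ble_eq] at hd2
    have hd : d ∣ n := Nat.dvd_of_mod_eq_zero (Nat.eq_of_beq_eq_true hd2.2)
    have hd' : 2 ≤ d := by
      simp only [List.mem_cons, List.mem_nil_iff, or_false] at hd1
      omega
    rcases (Nat.dvd_prime hp).1 hd with h | h <;> omega

/-- the number of members of the list below `T` -/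
def pcnt (T : ℕ) : ℕ := (pl.filter (fun p => Nat.ble (p + 1) T)).length

theorem primeCounting'_le_pcnt {T : ℕ} (hT : T ≤ 400) : Nat.primeCounting' T ≤ pcnt T := by
  unfold Nat.primeCounting' pcnt
  rw [Nat.count_eq_card_filter_range]
  have h1 : (Finset.range T).filter Nat.Prime ⊆
      (pl.filter (fun p => Nat.ble (p + 1) T)).toFinset := by
    intro n hn
    rw [Finset.mem_filter, Finset.mem_range] at hn
    rw [List.mem_toFinset, List.mem_filter]
    exact ⟨mem_pl (by omega) hn.2, by rw [Nat.ble_eq]; omega⟩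
  exact le_trans (Finset.card_le_card h1) (List.toFinset_card_le _)

/-- the table: `(h, T)`, use `T` for `f ≤ h` (first possible entry) -/
def tab : List (ℕ × ℕ) := [(2, 3), (5, 7), (8, 11), (11, 17), (14, 23), (18, 29), (22, 37),
  (25, 41), (27, 47), (31, 53), (35, 59), (41, 71), (48, 83), (60, 101), (76, 127), (89, 149),
  (98, 163), (104, 173), (108, 179), (116, 193), (137, 223), (146, 241), (161, 263), (172, 283),
  (193, 311), (225, 359), (234, 373)]

/-- check of one `f` -/
def chkf (f : ℕ) : Bool :=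
  tab.any (fun a => Nat.ble f a.1 && (Nat.ble (f + 1) a.2 && (Nat.ble 3 a.2 &&
    (Nat.ble a.2 400 && (List.range (f + 1)).all (fun Z => chkZ f a.2 (pcnt a.2) Z)))))

theorem chkf_all : (List.range 234).all (fun f => chkf (f + 1)) = true := by decide +kernel

theorem good_small (f : ℕ) (hf : 1 ≤ f) (hf2 : f < 235) :
    ∃ T, 3 ≤ T ∧ f < T ∧ Good f T (Nat.primeCounting' T) := by
  have h := chkf_all
  rw [List.all_eq_true] at h
  have h1 := h (f - 1) (List.mem_range.2 (by omega))
  rw [Nat.sub_add_cancel hf] at h1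
  unfold chkf at h1
  rw [List.any_eq_true] at h1
  obtain ⟨⟨a, T⟩, -, ha⟩ := h1
  simp only [Bool.and_eq_true, Nat.ble_eq, List.all_eq_true, List.mem_range] at ha
  obtain ⟨-, h2, h3, h4, h5⟩ := ha
  refine ⟨T, h3, h2, ?_⟩
  have h6 : Good f T (pcnt T) := good_of_chk h2 (fun Z hZ => h5 Z (by omega))
  have h7 := primeCounting'_le_pcnt h4
  intro x y z w c2 c3 c4
  have := h6 x y z w c2 c3 c4
  omega

end MP78a5
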