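import Pool.Agent.Lib_MP_78a5c6.PSolv
import Pool.Agent.Lib_MP_78a5c6.MRed
import Pool.Agent.Lib_MP_78a5c6.AMain
import Pool.Agent.Lib_MP_78a5c6.NumGood

/-!
# MP_78a5c6_al: solvable subgroups and `p`-solvable primes
-/

namespace MP78a5

/-- `f = σ(G)` bounds commuting elements of different prime orders in every subgroup of `G` -/
theorem commBound_sig {G : Type} [Group G] [Finite G] (H : Subgroup G) : CommBound H (sig G) := by
  intro ι s p hp hinj x hx hc
  refine card_le_sig_of_comm s p hp hinj (fun i => (x i : G)) (fun i hi => ?_)
    (fun i hi j hj => ?_)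
  · rw [Subgroup.orderOf_coe]
    exact hx i hi
  · exact_mod_cast congrArg Subtype.val (hc i hi j hj)

/-- every solvable subgroup of a finite group `G` has at most `4 σ(G)` primes -/
theorem card_primeFactors_subgroup_le {G : Type} [Group G] [Finite G] (H : Subgroup G)
    [Group.IsSolvable H] : (Nat.card H).primeFactors.card ≤ 4 * sig G :=
  card_primeFactors_le (commBound_sig H) exists_good

open Classical in
/-- a finite group `G` is `p`-solvable for at most `4 σ(G)` primes `p` dividing `|G|` -/
theorem card_pSolvable_le (G : Type) [Group G] [Finite G] :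
    ((Nat.card G).primeFactors.filter (fun p => PSolvable p G)).card ≤ 4 * sig G := by
  obtain ⟨H, hHs, hH⟩ := exists_solvable_aux (Nat.card G) G le_rfl
    ((Nat.card G).primeFactors.filter (fun p => PSolvable p G)) (by
      intro p hp
      rw [Finset.mem_filter, Nat.mem_primeFactors] at hp
      exact ⟨hp.1.1, hp.1.2.1, hp.2⟩)
  have h1 : (Nat.card H).primeFactors =
      (Nat.card G).primeFactors.filter (fun p => PSolvable p G) := by
    ext q
    rw [Nat.mem_primeFactors]
    constructor
    · rintro ⟨hq, hd, -⟩
      exact (hH q hq).1 hd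
    · intro hq
      have hqp : q.Prime := by
        rw [Finset.mem_filter, Nat.mem_primeFactors] at hq
        exact hq.1.1
      exact ⟨hqp, (hH q hqp).2 hq, Nat.card_pos.ne'⟩
  rw [← h1]
  exact card_primeFactors_subgroup_le H

end MP78a5
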