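import Pool.Agent.Lib_MP_78a5c6.PFinal

/-!
# MP_78a5c6_al: the constant 11/3 for large primes
-/

namespace MP78a5

/-- at most `11 f / 3` primes `p ≥ 2 f` in a finite solvable group -/
theorem card_large_primeFactors_le {H : Type*} [Group H] [Finite H] [Group.IsSolvable H]
    {f : ℕ} (hf : CommBound H f) :
    3 * ((Nat.card H).primeFactors.filter (fun q => 2 * f ≤ q)).card ≤ 11 * f := by
  classical
  obtain ⟨S, hS⟩ := exists_SSys (G := H) ((Nat.card H).primeFactors.filter (fun q => 2 * f ≤ q))
    (by
      intro p hp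
      rw [Finset.mem_filter, Nat.mem_primeFactors] at hp
      exact ⟨hp.1.1, hp.1.2.1⟩)
  have hp : ∀ i, 2 * f ≤ S.p i := by
    intro i
    have := (hS (S.p i)).2 ⟨i, rfl⟩
    exact (Finset.mem_filter.1 this).2
  have h1 := S.card_le_eleven_thirds (fun i j k h1 h2 => S.rank_lemma h1 h2) (hf.cBound S) hp
  rw [Fintype.card_fin] at h1
  exact h1

/-- **the constant 11/3** for the primes `p ≥ 2 σ(G)` -/
theorem card_large_subgroup_le {G : Type} [Group G] [Finite G] (H : Subgroup G)
    [Group.IsSolvable H] :
    3 * ((Nat.card H).primeFactors.filter (fun q => 2 * sig G ≤ q)).card ≤ 11 * sig G :=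
  card_large_primeFactors_le (commBound_sig H)

end MP78a5
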