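import Pool.Agent.Lib_MP_78a5c6.SExists
import Mathlib.GroupTheory.Nilpotent

/-!
# MP_78a5c6_al: `p`-solvable groups

If the finite group `G` is `p`-solvable for every `p` in a set `ρ` of prime divisors of `|G|`, it
has a solvable subgroup `H` with `π(H) = ρ`.
-/

namespace MP78a5

universe u

/-- `G` is `p`-solvable: the order of every chief factor `N / M` of `G` is a power of `p` or prime
to `p`. (`M < N` normal subgroups of `G`, no normal subgroup strictly between;
`M.relIndex N = |N : M|`.) -/
def PSolvable (p : ℕ) (G : Type*) [Group G] : Prop :=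
  ∀ M N : Subgroup G, M.Normal → N.Normal → M < N →
    (∀ K : Subgroup G, K.Normal → M ≤ K → K ≤ N → K = M ∨ K = N) →
    (∃ k, M.relIndex N = p ^ k) ∨ ¬ p ∣ M.relIndex N

theorem PSolvable.quotient {p : ℕ} {G : Type*} [Group G] (h : PSolvable p G) (N₀ : Subgroup G)
    [N₀.Normal] : PSolvable p (G ⧸ N₀) := by
  intro M N hM hN hMN hchief
  have hsurj : Function.Surjective (QuotientGroup.mk' N₀) := QuotientGroup.mk'_surjective N₀
  have h1 := h (M.comap (QuotientGroup.mk' N₀)) (N.comap (QuotientGroup.mk' N₀))
    (hM.comap _) (hN.comap _) (Subgroup.comap_lt_comap_of_surjective hsurj |>.2 hMN) (by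
      intro K hK hMK hKN
      have hker : (QuotientGroup.mk' N₀).ker ≤ K := by
        refine le_trans ?_ hMK
        intro x hx
        rw [MonoidHom.mem_ker] at hx
        rw [Subgroup.mem_comap, hx]
        exact M.one_mem
      have hKc : (K.map (QuotientGroup.mk' N₀)).comap (QuotientGroup.mk' N₀) = K :=
        Subgroup.comap_map_eq_self hker
      have hKn : (K.map (QuotientGroup.mk' N₀)).Normal := hK.map _ hsurj
      rcases hchief (K.map (QuotientGroup.mk' N₀)) hKn (by
          rw [← Subgroup.comap_le_comap_of_surjective hsurj, hKc]; exact hMK) (by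
          rw [← Subgroup.comap_le_comap_of_surjective hsurj, hKc]; exact hKN) with h | h
      · left
        rw [← hKc, h]
      · right
        rw [← hKc, h])
  rw [Subgroup.relIndex_comap, Subgroup.map_comap_eq_self_of_surjective hsurj] at h1
  exact h1

/-- a finite solvable group is `p`-solvable for every prime `p` -/
theorem pSolvable_of_isSolvable {G : Type*} [Group G] [Finite G] [Group.IsSolvable G] {p : ℕ}
    (hp : p.Prime) : PSolvable p G := by
  classical
  intro M N hM hN hMN hchief
  -- pass to the quotient by `M`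
  have hsurj : Function.Surjective (QuotientGroup.mk' M) := QuotientGroup.mk'_surjective M
  set V := N.map (QuotientGroup.mk' M) with hV
  have hVn : V.Normal := hN.map _ hsurj
  have hker : (QuotientGroup.mk' M).ker = M := QuotientGroup.ker_mk' M
  have hVc : V.comap (QuotientGroup.mk' M) = N :=
    Subgroup.comap_map_eq_self (by rw [hker]; exact hMN.le)
  have hrel : M.relIndex N = Nat.card V := by
    have h3 : M = (⊥ : Subgroup (G ⧸ M)).comap (QuotientGroup.mk' M) := by
      rw [MonoidHom.comap_bot, hker]
    conv_lhs => rw [h3]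
    rw [Subgroup.relIndex_comap, Subgroup.relIndex_bot_left]
  have hVne : V ≠ ⊥ := by
    intro h
    rw [h] at hVc
    have : (⊥ : Subgroup (G ⧸ M)).comap (QuotientGroup.mk' M) = M := by
      rw [MonoidHom.comap_bot, hker]
    rw [this] at hVc
    exact hMN.ne hVc
  have hVmin : ∀ K : Subgroup (G ⧸ M), K.Normal → K ≤ V → K = ⊥ ∨ K = V := by
    intro K hK hKV
    rcases hchief (K.comap (QuotientGroup.mk' M)) (hK.comap _) (by
        intro x hx
        rw [Subgroup.mem_comap]
        have : QuotientGroup.mk' M x = 1 := by
          rw [← MonoidHom.mem_ker, hker]; exact hx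
        rw [this]
        exact K.one_mem) (by
        rw [← hVc]
        exact Subgroup.comap_mono hKV) with h | h
    · left
      have h2 := congrArg (Subgroup.map (QuotientGroup.mk' M)) h
      rw [Subgroup.map_comap_eq_self_of_surjective hsurj] at h2
      rw [h2, Subgroup.map_eq_bot_iff, hker]
    · right
      have h2 := congrArg (Subgroup.map (QuotientGroup.mk' M)) h
      rw [Subgroup.map_comap_eq_self_of_surjective hsurj] at h2
      exact h2
  -- `V` is abelian
  have hVs : Group.IsSolvable V := inferInstance
  have hVnt : Nontrivial V := (Subgroup.nontrivial_iff_ne_bot V).2 hVne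
  have hcomm : ∀ x ∈ V, ∀ y ∈ V, x * y = y * x := by
    rcases hVmin ⁅V, V⁆ (Subgroup.commutator_normal V V) (Subgroup.commutator_le_left V V) with h | h
    · intro x hx y hy
      have h1 := Subgroup.commutator_mem_commutator hx hy
      rw [h, Subgroup.mem_bot, commutatorElement_eq_one_iff_mul_comm] at h1
      exact h1
    · exfalso
      have h1 := Group.IsSolvable.commutator_lt_top_of_nontrivial V
      have h2 : (commutator V).map V.subtype = ⁅V, V⁆ := by
        rw [commutator_def, Subgroup.map_commutator, ← MonoidHom.range_eq_map,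
          Subgroup.range_subtype]
      rw [h] at h2
      have h3 : (commutator V).map V.subtype = (⊤ : Subgroup V).map V.subtype := by
        rw [h2, ← MonoidHom.range_eq_map, Subgroup.range_subtype]
      exact h1.ne (Subgroup.map_injective V.subtype_injective h3)
  -- a prime `r` dividing `|V|`
  have hVc1 : 1 < Nat.card V := by
    rw [Subgroup.one_lt_card_iff_ne_bot]; exact hVne
  obtain ⟨r, hr, hrd⟩ := Nat.exists_prime_and_dvd hVc1.ne'
  have hfr : Fact r.Prime := ⟨hr⟩
  let E : Subgroup (G ⧸ M) :=
    { carrier := {x | x ∈ V ∧ x ^ r = 1}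
      one_mem' := ⟨V.one_mem, one_pow r⟩
      mul_mem' := by
        rintro a b ⟨ha, ha'⟩ ⟨hb, hb'⟩
        refine ⟨V.mul_mem ha hb, ?_⟩
        have hc : Commute a b := hcomm a ha b hb
        rw [hc.mul_pow, ha', hb', one_mul]
      inv_mem' := by
        rintro a ⟨ha, ha'⟩
        refine ⟨V.inv_mem ha, ?_⟩
        rw [inv_pow, ha', inv_one] }
  have hEn : E.Normal := by
    constructor
    rintro n ⟨hn, hn'⟩ g
    refine ⟨hVn.conj_mem n hn g, ?_⟩
    rw [conj_pow, hn', mul_one, mul_inv_cancel]
  have hE0 : E ≠ ⊥ := by
    obtain ⟨x, hx⟩ := exists_prime_orderOf_dvd_card' (G := V) r hrd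
    intro hbot
    have h1 : (x : G ⧸ M) ∈ E := by
      refine ⟨x.2, ?_⟩
      have : x ^ r = 1 := by rw [← hx]; exact pow_orderOf_eq_one x
      exact_mod_cast congrArg (Subtype.val) this
    rw [hbot, Subgroup.mem_bot] at h1
    have h2 : x = 1 := Subtype.ext h1
    rw [h2, orderOf_one] at hx
    exact hr.one_lt.ne hx
  have hEV : E = V := (hVmin E hEn (fun x hx => hx.1)).resolve_left hE0
  have hVp : IsPGroup r V := by
    intro x
    refine ⟨1, ?_⟩
    have h1 : (x : G ⧸ M) ∈ E := by rw [hEV]; exact x.2
    exact Subtype.ext (by simpa using h1.2)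
  obtain ⟨k, hk⟩ := IsPGroup.iff_card.1 hVp
  rw [hrel, hk]
  by_cases hrp : r = p
  · left
    exact ⟨k, by rw [hrp]⟩
  · right
    intro hd
    exact hrp ((Nat.prime_dvd_prime_iff_eq hp hr).1 (hp.dvd_of_dvd_pow hd)).symm

theorem exists_solvable_aux (n : ℕ) : ∀ (G : Type u) [Group G] [Finite G],
    Nat.card G ≤ n → ∀ ρ : Finset ℕ, (∀ p ∈ ρ, p.Prime ∧ p ∣ Nat.card G ∧ PSolvable p G) →
    ∃ H : Subgroup G, Group.IsSolvable H ∧ ∀ q, q.Prime → (q ∣ Nat.card H ↔ q ∈ ρ) := by
  classical
  induction n with
  | zero =>
    intro G _ _ h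
    exact absurd h (by have := Nat.card_pos (α := G); omega)
  | succ n ih =>
    intro G _ _ hcard ρ hρ
    rcases subsingleton_or_nontrivial G with hsub | hnon
    · have h1 : Nat.card G = 1 := Nat.card_unique
      refine ⟨⊥, inferInstance, fun q hq => ?_⟩
      rw [Subgroup.card_bot, Nat.dvd_one]
      constructor
      · intro h
        exact absurd h hq.one_lt.ne'
      · intro h
        have := hρ q h
        rw [h1, Nat.dvd_one] at this
        exact this.2.1
    -- a minimal normal subgroup
    obtain ⟨N, -, hN0, hNinv, hNmin⟩ := exists_minimal_invariant (⊤ : Subgroup G)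
      (by
        intro h
        exact top_ne_bot h) Set.univ (fun _ _ _ _ => Subgroup.mem_top _)
    have hNn : N.Normal := ⟨fun y hy x => hNinv x (Set.mem_univ _) y hy⟩
    have hNchief : ∀ K : Subgroup G, K.Normal → ⊥ ≤ K → K ≤ N → K = ⊥ ∨ K = N :=
      fun K hK _ hKN => hNmin K hKN (fun x _ y hy => hK.conj_mem y hy x)
    have hPN : ∀ p ∈ ρ, (∃ k, Nat.card N = p ^ k) ∨ ¬ p ∣ Nat.card N := by
      intro p hp
      have := (hρ p hp).2.2 ⊥ N inferInstance hNn (bot_lt_iff_ne_bot.2 hN0) hNchief
      rwa [Subgroup.relIndex_bot_left] at this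
    have hcardG : Nat.card (G ⧸ N) * Nat.card N = Nat.card G :=
      (Subgroup.card_eq_card_quotient_mul_card_subgroup N).symm
    have hN1 : 1 < Nat.card N := by
      rw [Subgroup.one_lt_card_iff_ne_bot]; exact hN0
    have hQpos : 0 < Nat.card (G ⧸ N) := Nat.card_pos
    have hQ : Nat.card (G ⧸ N) ≤ n := by
      have : Nat.card (G ⧸ N) < Nat.card G := by
        rw [← hcardG]; nlinarith
      omega
    by_cases hcase : ∃ p ∈ ρ, ∃ k, Nat.card N = p ^ k
    · obtain ⟨p, hpρ, k, hk⟩ := hcase
      have hp := (hρ p hpρ).1
      have hfp : Fact p.Prime := ⟨hp⟩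
      have hpN : p ∣ Nat.card N := by
        rw [hk]
        refine dvd_pow_self p ?_
        rintro rfl
        rw [hk, pow_zero] at hN1
        exact lt_irrefl _ hN1
      have hqN : ∀ q, q.Prime → q ∣ Nat.card N → q = p := by
        intro q hq hd
        rw [hk] at hd
        exact (Nat.prime_dvd_prime_iff_eq hq hp).1 (hq.dvd_of_dvd_pow hd)
      obtain ⟨H', hH's, hH'⟩ := ih (G ⧸ N) hQ (ρ.erase p) (by
        intro q hq
        rw [Finset.mem_erase] at hq
        refine ⟨(hρ q hq.2).1, ?_, (hρ q hq.2).2.2.quotient N⟩
        have h1 := (hρ q hq.2).2.1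
        rw [← hcardG] at h1
        rcases ((hρ q hq.2).1.dvd_mul).1 h1 with h | h
        · exact h
        · exact absurd (hqN q (hρ q hq.2).1 h) hq.1)
      -- the preimage of `H'`
      have hsurj : Function.Surjective (QuotientGroup.mk' N) := QuotientGroup.mk'_surjective N
      let H₁ : Subgroup G := H'.comap (QuotientGroup.mk' N)
      have hNH : N ≤ H₁ := by
        intro x hx
        change QuotientGroup.mk' N x ∈ H'
        have : QuotientGroup.mk' N x = 1 := by
          rw [QuotientGroup.mk'_apply, QuotientGroup.eq_one_iff]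
          exact hx
        rw [this]
        exact H'.one_mem
      have hNp : IsPGroup p N := IsPGroup.iff_card.2 ⟨k, hk⟩
      have hNs : Group.IsSolvable N := by
        have := hNp.isNilpotent
        infer_instance
      have hcardH : Nat.card H₁ = Nat.card H' * Nat.card N := by
        have h2 : N.relIndex H₁ = Nat.card H' := by
          have h3 : N = (⊥ : Subgroup (G ⧸ N)).comap (QuotientGroup.mk' N) := by
            rw [MonoidHom.comap_bot]; simp
          conv_lhs => rw [h3]
          rw [Subgroup.relIndex_comap, Subgroup.map_comap_eq_self_of_surjective hsurj,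
            Subgroup.relIndex_bot_left]
        have h4 := Subgroup.card_mul_index (N.subgroupOf H₁)
        have h5 : Nat.card (N.subgroupOf H₁) = Nat.card N :=
          Nat.card_congr (Subgroup.subgroupOfEquivOfLe hNH).toEquiv
        have h6 : (N.subgroupOf H₁).index = Nat.card H' := h2
        rw [h5, h6, mul_comm] at h4
        exact h4.symm
      refine ⟨H₁, ?_, ?_⟩
      · refine Group.isSolvable_of_ker_le_range (Subgroup.inclusion hNH)
          ((QuotientGroup.mk' N).subgroupComap H') ?_
        intro x hx
        rw [MonoidHom.mem_ker] at hx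
        have h1 : QuotientGroup.mk' N (x : G) = 1 := congrArg Subtype.val hx
        rw [QuotientGroup.mk'_apply, QuotientGroup.eq_one_iff] at h1
        exact ⟨⟨x, h1⟩, rfl⟩
      · intro q hq
        rw [hcardH, hq.dvd_mul, hH' q hq, Finset.mem_erase]
        constructor
        · rintro (h | h)
          · exact h.2
          · rw [hqN q hq h]; exact hpρ
        · intro h
          by_cases hqp : q = p
          · right
            rw [hqp]; exact hpN
          · left
            exact ⟨hqp, h⟩
    · -- `|N|` is prime to all primes of `ρ`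
      have hnd : ∀ p ∈ ρ, ¬ p ∣ Nat.card N := by
        intro p hp
        rcases hPN p hp with h | h
        · exact absurd ⟨p, hp, h⟩ hcase
        · exact h
      obtain ⟨H', hH's, hH'⟩ := ih (G ⧸ N) hQ ρ (by
        intro q hq
        refine ⟨(hρ q hq).1, ?_, (hρ q hq).2.2.quotient N⟩
        have h1 := (hρ q hq).2.1
        rw [← hcardG] at h1
        rcases ((hρ q hq).1.dvd_mul).1 h1 with h | h
        · exact h
        · exact absurd h (hnd q hq))
      have hco : (Nat.card N).Coprime (Nat.card H') := by
        refine Nat.coprime_of_dvd ?_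
        intro q hq h1 h2
        exact hnd q ((hH' q hq).1 h2) h1
      obtain ⟨K, hKinj, hKsurj, hKcard, -⟩ := exists_lift_subgroup N H' hco
      have hle : H' ≤ K.map (QuotientGroup.mk' N) := by
        intro y hy
        obtain ⟨x, hx, rfl⟩ := hKsurj y hy
        exact ⟨x, hx, rfl⟩
      have hmap : K.map (QuotientGroup.mk' N) = H' := by
        refine (Subgroup.eq_of_le_of_card_ge hle ?_).symm
        rw [← hKcard]
        exact Nat.card_le_card_of_surjective _ ((QuotientGroup.mk' N).subgroupMap_surjective K)
      refine ⟨K, ?_, ?_⟩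
      · have hs : Group.IsSolvable (K.map (QuotientGroup.mk' N)) := by
          rw [hmap]; exact hH's
        refine Group.isSolvable_of_isSolvable_injective
          (f := (QuotientGroup.mk' N).subgroupMap K) ?_
        rw [injective_iff_map_eq_one]
        intro x hx
        have h1 : QuotientGroup.mk' N (x : G) = 1 := congrArg Subtype.val hx
        exact Subtype.ext (hKinj x x.2 h1)
      · intro q hq
        rw [hKcard]
        exact hH' q hq

end MP78a5
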