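import Pool.Agent.Lib_MP_78a5c6.SDefs

/-!
# MP_78a5c6_al, chapter (B): basic properties of S-systems
-/

namespace MP78a5

namespace SSys

variable {G : Type*} [Group G] {ι : Type*} [LinearOrder ι] (S : SSys G ι)

theorem isPGroup (i : ι) : IsPGroup (S.p i) (S.P i) := by
  intro x
  exact ⟨1, by
    ext
    simpa using S.pow i x x.2⟩

theorem card_P [Finite G] (i : ι) : Nat.card (S.P i) = S.p i ^ S.r i := by
  have : Fact (S.p i).Prime := ⟨S.prime i⟩
  obtain ⟨n, hn⟩ := IsPGroup.iff_card.1 (S.isPGroup i)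
  unfold r
  rw [hn, Nat.Prime.factorization_pow (S.prime i)]
  simp

theorem r_pos [Finite G] (i : ι) : 0 < S.r i := by
  rcases Nat.eq_zero_or_pos (S.r i) with h | h
  · exfalso
    have h1 := S.card_P i
    rw [h, pow_zero] at h1
    exact S.ne_bot i (Subgroup.card_eq_one.1 h1)
  · exact h

/-- conjugation of `P i` by elements of `P j`, `i ≤ j`. -/
theorem conj_mem {i j : ι} (h : i ≤ j) {x y : G} (hx : x ∈ S.P j) (hy : y ∈ S.P i) :
    x * y * x⁻¹ ∈ S.P i := by
  rcases h.lt_or_eq with h | h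
  · exact S.norm i j h x hx y hy
  · subst h
    exact (S.P i).mul_mem ((S.P i).mul_mem hx hy) ((S.P i).inv_mem hx)

theorem conj_mem' {i j : ι} (h : i ≤ j) {x y : G} (hx : x ∈ S.P j) (hy : y ∈ S.P i) :
    x⁻¹ * y * x ∈ S.P i := by
  simpa using S.conj_mem h ((S.P j).inv_mem hx) hy

/-- the order of a nontrivial element of `P i` is `p i`. -/
theorem orderOf_eq {i : ι} {x : G} (hx : x ∈ S.P i) (h1 : x ≠ 1) : orderOf x = S.p i := by
  have : Fact (S.p i).Prime := ⟨S.prime i⟩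
  exact orderOf_eq_prime (S.pow i x hx) h1

theorem eq_one_of_mem_of_mem {i j : ι} (h : i ≠ j) {x : G} (hi : x ∈ S.P i) (hj : x ∈ S.P j) :
    x = 1 := by
  by_contra h1
  have a := S.orderOf_eq hi h1
  have b := S.orderOf_eq hj h1
  exact h (S.inj (a.symm.trans b))

/-- If some element of `P a` does not commute with some element of `P b` (`b < a`), then `P a` acts
faithfully on `P b`. -/
theorem faithful {b a : ι} (h : S.rel b a) {x : G} (hx : x ∈ S.P a)
    (hc : ∀ y ∈ S.P b, x * y = y * x) : x = 1 := by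
  obtain ⟨hba, x0, hx0, y0, hy0, hne⟩ := h
  -- the centraliser of `P b` in `P a`
  let Q : Subgroup G := S.P a ⊓ Subgroup.centralizer (S.P b : Set G)
  have hQ : Q ≤ S.P a := inf_le_left
  have hmem : ∀ z, z ∈ Q ↔ z ∈ S.P a ∧ ∀ y ∈ S.P b, z * y = y * z := by
    intro z
    simp only [Q, Subgroup.mem_inf, Subgroup.mem_centralizer_iff]
    constructor
    · rintro ⟨h1, h2⟩
      exact ⟨h1, fun y hy => (h2 y hy).symm⟩
    · rintro ⟨h1, h2⟩
      exact ⟨h1, fun y hy => (h2 y hy).symm⟩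
  rcases S.irr a Q hQ (by
    intro j hj u hu z hz
    rw [hmem] at hz ⊢
    refine ⟨S.norm a j hj u hu z hz.1, ?_⟩
    intro y hy
    have hy' : u⁻¹ * y * u ∈ S.P b := S.conj_mem' (hba.le.trans hj.le) hu hy
    have := hz.2 _ hy'
    calc u * z * u⁻¹ * y = u * (z * (u⁻¹ * y * u)) * u⁻¹ := by group
      _ = u * ((u⁻¹ * y * u) * z) * u⁻¹ := by rw [this]
      _ = y * (u * z * u⁻¹) := by group) with h0 | h0
  · have : x ∈ Q := (hmem x).2 ⟨hx, hc⟩
    rw [h0] at this
    simpa using this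
  · exfalso
    have : x0 ∈ Q := by rw [h0]; exact hx0
    exact hne (((hmem x0).1 this).2 y0 hy0)

theorem rel_lt {b a : ι} (h : S.rel b a) : b < a := h.1

theorem rel_ne {b a : ι} (h : S.rel b a) : b ≠ a := h.1.ne

theorem rel_irrefl (a : ι) : ¬ S.rel a a := fun h => lt_irrefl a h.1

/-- transitivity of the relation. -/
theorem rel_trans {i j k : ι} (hij : S.rel i j) (hjk : S.rel j k) : S.rel i k := by
  refine ⟨hij.1.trans hjk.1, ?_⟩
  by_contra hcon
  push Not at hcon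
  obtain ⟨hjk', x, hx, y, hy, hne⟩ := hjk
  -- the commutator `x y x⁻¹ y⁻¹` centralises `P i`
  have hz : x * y * x⁻¹ * y⁻¹ ∈ S.P j :=
    (S.P j).mul_mem (S.norm j k hjk' x hx y hy) ((S.P j).inv_mem hy)
  have h1 : x * y * x⁻¹ * y⁻¹ = 1 := by
    refine S.faithful hij hz ?_
    intro v hv
    -- v commutes with x; and with x^y
    have e1 : x * v = v * x := hcon x hx v hv
    have hv' : y⁻¹ * v * y ∈ S.P i := S.conj_mem' hij.1.le hy hv
    have e2 : x * (y⁻¹ * v * y) = (y⁻¹ * v * y) * x := hcon x hx _ hv'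
    have e2' : x⁻¹ * (y⁻¹ * v * y) = (y⁻¹ * v * y) * x⁻¹ := by
      calc x⁻¹ * (y⁻¹ * v * y) = x⁻¹ * ((y⁻¹ * v * y) * x) * x⁻¹ := by group
        _ = x⁻¹ * (x * (y⁻¹ * v * y)) * x⁻¹ := by rw [e2]
        _ = (y⁻¹ * v * y) * x⁻¹ := by group
    calc x * y * x⁻¹ * y⁻¹ * v = x * y * (x⁻¹ * (y⁻¹ * v * y)) * y⁻¹ := by group
      _ = x * y * ((y⁻¹ * v * y) * x⁻¹) * y⁻¹ := by rw [e2']
      _ = (x * v) * (y * x⁻¹ * y⁻¹) := by group
      _ = (v * x) * (y * x⁻¹ * y⁻¹) := by rw [e1]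
      _ = v * (x * y * x⁻¹ * y⁻¹) := by group
  apply hne
  calc x * y = (x * y * x⁻¹ * y⁻¹) * (y * x) := by group
    _ = y * x := by rw [h1, one_mul]

/-- unrelated indices: the subgroups commute elementwise. -/
theorem commute_of_not_rel {i j : ι} (h1 : ¬ S.rel i j) (h2 : ¬ S.rel j i) {x y : G}
    (hx : x ∈ S.P i) (hy : y ∈ S.P j) : x * y = y * x := by
  rcases lt_trichotomy i j with h | h | h
  · by_contra hne
    exact h1 ⟨h, y, hy, x, hx, fun e => hne e.symm⟩
  · subst h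
    exact S.comm i x hx y hy
  · by_contra hne
    exact h2 ⟨h, x, hx, y, hy, hne⟩

end SSys

end MP78a5
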