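import Mathlib

/-!
# MP_78a5c6_al, chapter (B): S-systems

An S-system in a group `G`, indexed by a finite linear order `ι`: distinct primes `p i`,
nontrivial elementary abelian `p i`-subgroups `P i`, `P j` normalises `P i` for `i < j`, and
`P i` is irreducible under the `P j` with `j > i`.
-/

namespace MP78a5

/-- An S-system in the group `G`, indexed by the linear order `ι`. -/
structure SSys (G : Type*) [Group G] (ι : Type*) [LinearOrder ι] where
  /-- the primes -/
  p : ι → ℕ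
  /-- the subgroups -/
  P : ι → Subgroup G
  prime : ∀ i, (p i).Prime
  inj : Function.Injective p
  ne_bot : ∀ i, P i ≠ ⊥
  comm : ∀ i, ∀ x ∈ P i, ∀ y ∈ P i, x * y = y * x
  pow : ∀ i, ∀ x ∈ P i, x ^ p i = 1
  norm : ∀ i j, i < j → ∀ x ∈ P j, ∀ y ∈ P i, x * y * x⁻¹ ∈ P i
  irr : ∀ i, ∀ Q ≤ P i, (∀ j, i < j → ∀ x ∈ P j, ∀ y ∈ Q, x * y * x⁻¹ ∈ Q) → Q = ⊥ ∨ Q = P i

namespace SSys

variable {G : Type*} [Group G] {ι : Type*} [LinearOrder ι] (S : SSys G ι)

/-- `S.rel b a` (`b` lies below `a`): `b < a` in the index order and `P a` does not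
centralise `P b`. -/
def rel (b a : ι) : Prop := b < a ∧ ∃ x ∈ S.P a, ∃ y ∈ S.P b, x * y ≠ y * x

/-- The rank of `P i`: `|P i| = (p i) ^ (r i)`, see `SSys.card_P`. -/
noncomputable def r (i : ι) : ℕ := (Nat.card (S.P i)).factorization (S.p i)

end SSys

end MP78a5
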