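import Mathlib

/-!
# MP_78a5c6_al, chapter (B): weights

`G` acts on the functions `G → F` by conjugation (`act`). For a subgroup `P` which is elementary
abelian of exponent `p = char F`, `V F P` is the space of additive functions on `P` (extended by
`0`), of dimension `rank P`. `wt A χ` is the weight space of the subgroup `A` for the weight `χ`.
-/

namespace MP78a5

open Module Submodule

universe u

variable {G : Type*} [Group G] (F : Type*) [Field F]

/-- `G` acts on the functions on `G` by conjugation: `(act F g f) x = f (g⁻¹ x g)`. -/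
def act (g : G) : Module.End F (G → F) := LinearMap.funLeft F F (fun x => g⁻¹ * x * g)

@[simp] theorem act_apply (g : G) (f : G → F) (x : G) : act F g f x = f (g⁻¹ * x * g) := rfl

@[simp] theorem act_one : act F (1 : G) = 1 := by
  ext f x
  simp [act]

theorem act_mul (g h : G) : act F (g * h) = act F g * act F h := by
  ext f x
  simp only [act, Module.End.mul_apply, LinearMap.funLeft_apply]
  congr 1
  group

theorem act_mul_apply (g h : G) (f : G → F) : act F (g * h) f = act F g (act F h f) := by
  rw [act_mul]; rfl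

theorem act_inv_act (g : G) (f : G → F) : act F g⁻¹ (act F g f) = f := by
  rw [← act_mul_apply]; simp

theorem act_act_inv (g : G) (f : G → F) : act F g (act F g⁻¹ f) = f := by
  rw [← act_mul_apply]; simp

theorem act_pow (g : G) (n : ℕ) : act F (g ^ n) = (act F g) ^ n := by
  induction n with
  | zero => simp
  | succ n ih => rw [pow_succ, pow_succ, act_mul, ih]

theorem act_injective (g : G) : Function.Injective (act F g) := by
  intro f f' h
  have := congrArg (act F g⁻¹) h
  rwa [act_inv_act, act_inv_act] at this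

theorem act_comm {g h : G} (hc : g * h = h * g) : Commute (act F g) (act F h) := by
  unfold Commute SemiconjBy
  rw [← act_mul, ← act_mul, hc]

/-- the additive functions on `P`, extended by `0`. -/
def V (P : Subgroup G) : Submodule F (G → F) where
  carrier := {f | (∀ x, x ∉ P → f x = 0) ∧ ∀ x ∈ P, ∀ y ∈ P, f (x * y) = f x + f y}
  add_mem' := by
    rintro a b ⟨ha, ha'⟩ ⟨hb, hb'⟩
    refine ⟨fun x hx => by simp [ha x hx, hb x hx], fun x hx y hy => ?_⟩
    simp only [Pi.add_apply, ha' x hx y hy, hb' x hx y hy]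
    ring
  zero_mem' := ⟨fun _ _ => rfl, fun _ _ _ _ => by simp⟩
  smul_mem' := by
    rintro c a ⟨ha, ha'⟩
    refine ⟨fun x hx => by simp [ha x hx], fun x hx y hy => ?_⟩
    simp only [Pi.smul_apply, ha' x hx y hy, smul_eq_mul]
    ring

variable {F}

theorem mem_V {P : Subgroup G} {f : G → F} :
    f ∈ V F P ↔ (∀ x, x ∉ P → f x = 0) ∧ ∀ x ∈ P, ∀ y ∈ P, f (x * y) = f x + f y := Iff.rfl

theorem V_one {P : Subgroup G} {f : G → F} (hf : f ∈ V F P) : f 1 = 0 := by
  have := hf.2 1 P.one_mem 1 P.one_mem
  simpa using this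

theorem act_mem_V {P : Subgroup G} {f : G → F} (hf : f ∈ V F P) {g : G}
    (hg : ∀ x ∈ P, g * x * g⁻¹ ∈ P) (hg' : ∀ x ∈ P, g⁻¹ * x * g ∈ P) : act F g f ∈ V F P := by
  refine ⟨fun x hx => ?_, fun x hx y hy => ?_⟩
  · rw [act_apply]
    apply hf.1
    intro h
    apply hx
    have := hg _ h
    have e : g * (g⁻¹ * x * g) * g⁻¹ = x := by group
    rwa [e] at this
  · rw [act_apply, act_apply, act_apply, ← hf.2 _ (hg' x hx) _ (hg' y hy)]
    congr 1
    group

/-- elements centralising `P` act trivially on `V F P`. -/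
theorem act_eq_self {P : Subgroup G} {f : G → F} (hf : f ∈ V F P) {g : G}
    (hg : ∀ x ∈ P, g * x = x * g) : act F g f = f := by
  have h2 : ∀ x ∈ P, g⁻¹ * x * g = x := by
    intro x hx
    rw [mul_assoc, ← hg x hx]; group
  ext x
  by_cases hx : x ∈ P
  · rw [act_apply, h2 x hx]
  · rw [hf.1 x hx, act_apply]
    apply hf.1
    intro h
    apply hx
    have e : g * (g⁻¹ * x * g) * g⁻¹ = x := by group
    have h3 : g * (g⁻¹ * x * g) * g⁻¹ = g⁻¹ * x * g := by
      rw [hg _ h]; group
    rw [← e, h3]
    exact h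

section dim

variable {p : ℕ} [Fact p.Prime] [CharP F p]

omit [CharP F p] in
theorem finrank_addHom_aux {E : Type*} [AddCommGroup E] [Finite E] [Module (ZMod p) E]
    [Algebra (ZMod p) F] : Nat.card E = p ^ finrank F (E →+ F) := by
  classical
  let e2 : (E →+ F) ≃ₗ[F] (E →ₗ[ZMod p] F) :=
    { toFun := fun f => f.toZModLinearMap p
      invFun := fun f => f.toAddMonoidHom
      map_add' := fun f g => by ext x; simp
      map_smul' := fun c f => by ext x; simp
      left_inv := fun f => by ext x; rfl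
      right_inv := fun f => by ext x; rfl }
  have : Module.Finite (ZMod p) E := Module.Finite.of_finite
  have h1 : finrank F (E →ₗ[ZMod p] F) = finrank (ZMod p) E :=
    Module.finrank_linearMap_self (ZMod p) F E
  rw [e2.finrank_eq, h1]
  have : Fintype E := Fintype.ofFinite _
  rw [Nat.card_eq_fintype_card, Module.card_eq_pow_finrank (K := ZMod p), ZMod.card]

/-- `Hom(E, F)` has dimension `n` for an elementary abelian `p`-group `E` of rank `n`. -/
theorem finrank_addHom {E : Type*} [AddCommGroup E] [Finite E]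
    (h : ∀ x : E, p • x = 0) {n : ℕ} (hn : Nat.card E = p ^ n) : finrank F (E →+ F) = n := by
  have h2 := @finrank_addHom_aux F _ p _ E _ _ (AddCommGroup.zmodModule h) (ZMod.algebra F p)
  rw [hn] at h2
  exact (Nat.pow_right_injective (Fact.out : p.Prime).two_le h2).symm

omit [CharP F p] in
theorem exists_addHom_ne_aux {E : Type*} [AddCommGroup E] [Module (ZMod p) E]
    [Algebra (ZMod p) F] {x : E} (hx : x ≠ 0) : ∃ f : E →+ F, f x ≠ 0 := by
  obtain ⟨φ, hφ⟩ := Module.Projective.exists_dual_ne_zero (ZMod p) hx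
  refine ⟨(algebraMap (ZMod p) F).toAddMonoidHom.comp φ.toAddMonoidHom, ?_⟩
  intro h
  apply hφ
  exact (algebraMap (ZMod p) F).injective (by rw [map_zero]; exact h)

theorem exists_addHom_ne {E : Type*} [AddCommGroup E]
    (h : ∀ x : E, p • x = 0) {x : E} (hx : x ≠ 0) : ∃ f : E →+ F, f x ≠ 0 :=
  @exists_addHom_ne_aux F _ p _ E _ (AddCommGroup.zmodModule h) (ZMod.algebra F p) x hx

omit [Fact p.Prime] [CharP F p] in
theorem V_equiv (P : Subgroup G) {E : Type*} [AddCommGroup E] (i : E → G)
    (hi : ∀ a b, i (a + b) = i a * i b) (hinj : Function.Injective i)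
    (hr : ∀ x, x ∈ P ↔ ∃ a, i a = x) :
    ∃ e : V F P ≃ₗ[F] (E →+ F), ∀ φ : E →+ F, ∀ a, (e.symm φ).1 (i a) = φ a := by
  classical
  have hmem : ∀ a, i a ∈ P := fun a => (hr _).2 ⟨a, rfl⟩
  have h0 : i 0 = 1 := by
    have := hi 0 0
    rw [add_zero] at this
    exact (mul_eq_left.1 this.symm)
  have hinv : ∀ φ : E →+ F, (fun x => if h : ∃ a, i a = x then φ h.choose else 0) ∈ V F P := by
    intro φ
    refine ⟨fun x hx => ?_, fun x hx y hy => ?_⟩
    · have : ¬ ∃ a, i a = x := by rwa [← hr]
      simp [this]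
    · have hx' := (hr x).1 hx
      have hy' := (hr y).1 hy
      have hxy' := (hr _).1 (P.mul_mem hx hy)
      simp only [hx', hy', hxy', dif_pos]
      rw [← map_add]
      congr 1
      apply hinj
      rw [hi, hx'.choose_spec, hy'.choose_spec, hxy'.choose_spec]
  have hval : ∀ φ : E →+ F, ∀ a,
      (fun x => if h : ∃ a, i a = x then φ h.choose else 0) (i a) = φ a := by
    intro φ a
    have h : ∃ b, i b = i a := ⟨a, rfl⟩
    simp only [h, dif_pos]
    congr 1
    exact hinj h.choose_spec
  refine ⟨{ toFun := fun f =>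
              { toFun := fun x => f.1 (i x)
                map_zero' := by rw [h0]; exact V_one f.2
                map_add' := fun x y => by rw [hi]; exact f.2.2 _ (hmem x) _ (hmem y) }
            map_add' := fun f g => by ext x; rfl
            map_smul' := fun c f => by ext x; rfl
            invFun := fun φ => ⟨_, hinv φ⟩
            left_inv := ?_
            right_inv := ?_ }, ?_⟩
  · intro f
    ext x
    by_cases hx : x ∈ P
    · obtain ⟨a, rfl⟩ := (hr x).1 hx
      exact hval _ a
    · have hx' : ¬ ∃ a, i a = x := by rwa [← hr]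
      simp only [hx', dif_neg, not_false_iff]
      exact (f.2.1 x hx).symm
  · intro φ
    ext x
    exact hval φ x
  · intro φ a
    exact hval φ a

omit [Fact p.Prime] in
theorem exists_model {G : Type u} [Group G] (P : Subgroup G)
    (hc : ∀ x ∈ P, ∀ y ∈ P, x * y = y * x)
    (hp : ∀ x ∈ P, x ^ p = 1) : ∃ (E : Type u) (_ : AddCommGroup E) (i : E → G),
      (∀ a b, i (a + b) = i a * i b) ∧ Function.Injective i ∧ (∀ x, x ∈ P ↔ ∃ a, i a = x) ∧
      (∀ x : E, p • x = 0) ∧ Nat.card E = Nat.card P ∧ (Finite P → Finite E) := by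
  let I : CommGroup P := { (inferInstance : Group P) with
    mul_comm := fun a b => Subtype.ext (hc a a.2 b b.2) }
  refine ⟨Additive P, @Additive.addCommGroup P I, fun x => ((Additive.toMul x : P) : G),
    ?_, ?_, ?_, ?_, rfl, id⟩
  · intro a b
    rfl
  · intro a b h
    exact Subtype.ext h
  · intro x
    constructor
    · intro hx
      exact ⟨Additive.ofMul ⟨x, hx⟩, rfl⟩
    · rintro ⟨a, rfl⟩
      exact (Additive.toMul a).2
  · intro x
    have : (Additive.toMul x : P) ^ p = 1 := Subtype.ext (by simpa using hp _ (Additive.toMul x).2)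
    exact this

/-- `dim V F P` is the rank of `P`. -/
theorem finrank_V (P : Subgroup G) [Finite P] (hc : ∀ x ∈ P, ∀ y ∈ P, x * y = y * x)
    (hp : ∀ x ∈ P, x ^ p = 1) {n : ℕ} (hn : Nat.card P = p ^ n) : finrank F (V F P) = n := by
  obtain ⟨E, _, i, hi, hinj, hr, hp0, hcard, hfin⟩ := exists_model (p := p) P hc hp
  obtain ⟨e, -⟩ := V_equiv (F := F) P i hi hinj hr
  rw [e.finrank_eq]
  have : Finite E := hfin inferInstance
  exact finrank_addHom hp0 (hcard.trans hn)

/-- the functions in `V F P` separate the points of `P`. -/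
theorem exists_V_ne (P : Subgroup G) (hc : ∀ x ∈ P, ∀ y ∈ P, x * y = y * x)
    (hp : ∀ x ∈ P, x ^ p = 1) {x : G} (hx : x ∈ P) (h1 : x ≠ 1) : ∃ f ∈ V F P, f x ≠ 0 := by
  obtain ⟨E, _, i, hi, hinj, hr, hp0, -, -⟩ := exists_model (p := p) P hc hp
  obtain ⟨e, he⟩ := V_equiv (F := F) P i hi hinj hr
  obtain ⟨a, rfl⟩ := (hr x).1 hx
  have ha : a ≠ 0 := by
    rintro rfl
    apply h1
    have := hi 0 0
    rw [add_zero] at this
    exact (mul_eq_left.1 this.symm)
  obtain ⟨φ, hφ⟩ := exists_addHom_ne (F := F) hp0 ha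
  exact ⟨(e.symm φ).1, (e.symm φ).2, by rw [he]; exact hφ⟩

end dim

end MP78a5
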