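import Pool.Agent.Lib_MP_78a5c6.Weights

/-!
# MP_78a5c6_al, chapter (B): weight spaces

`wt A χ`: the weight space of the subgroup `A` for the weight `χ : G → F` in the functions on `G`.
-/

namespace MP78a5

open Module Submodule

variable {G : Type*} [Group G] {F : Type*} [Field F]

/-- the weight space of `A` for the weight `χ` -/
def wt (A : Subgroup G) (χ : G → F) : Submodule F (G → F) where
  carrier := {f | ∀ a ∈ A, act F a f = χ a • f}
  add_mem' := by
    intro f g hf hg a ha
    rw [map_add, hf a ha, hg a ha, smul_add]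
  zero_mem' := by
    intro a _
    rw [map_zero, smul_zero]
  smul_mem' := by
    intro c f hf a ha
    rw [map_smul, hf a ha, smul_comm]

theorem mem_wt {A : Subgroup G} {χ : G → F} {f : G → F} :
    f ∈ wt A χ ↔ ∀ a ∈ A, act F a f = χ a • f := Iff.rfl

theorem wt_congr {A : Subgroup G} {χ χ' : G → F} (h : ∀ a ∈ A, χ a = χ' a) :
    wt A χ = wt A χ' := by
  ext f
  constructor
  · intro hf a ha
    rw [hf a ha, h a ha]
  · intro hf a ha
    rw [hf a ha, h a ha]

theorem wt_mul {A : Subgroup G} {χ : G → F} {f : G → F} (hf : f ∈ wt A χ) (h0 : f ≠ 0) {a b : G}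
    (ha : a ∈ A) (hb : b ∈ A) : χ (a * b) = χ a * χ b := by
  have h1 := hf (a * b) (A.mul_mem ha hb)
  rw [act_mul_apply, hf b hb, map_smul, hf a ha, smul_smul] at h1
  rw [mul_comm (χ a)]
  exact (smul_left_injective F h0 h1).symm

theorem wt_one {A : Subgroup G} {χ : G → F} {f : G → F} (hf : f ∈ wt A χ) (h0 : f ≠ 0) :
    χ 1 = 1 := by
  have h1 := hf 1 A.one_mem
  rw [act_one, Module.End.one_apply] at h1
  have : (1 : F) • f = χ 1 • f := by rw [one_smul]; exact h1
  exact (smul_left_injective F h0 this).symm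

theorem wt_ne_zero {A : Subgroup G} {χ : G → F} {f : G → F} (hf : f ∈ wt A χ) (h0 : f ≠ 0) {a : G}
    (ha : a ∈ A) : χ a ≠ 0 := by
  intro h
  have h1 := wt_mul hf h0 ha (A.inv_mem ha)
  rw [mul_inv_cancel, wt_one hf h0, h, zero_mul] at h1
  exact one_ne_zero h1

theorem wt_pow {A : Subgroup G} {χ : G → F} {f : G → F} (hf : f ∈ wt A χ) (h0 : f ≠ 0) {a : G}
    (ha : a ∈ A) (n : ℕ) : χ (a ^ n) = χ a ^ n := by
  induction n with
  | zero => simpa using wt_one hf h0
  | succ n ih => rw [pow_succ, pow_succ, wt_mul hf h0 (A.pow_mem ha n) ha, ih]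

/-- `act g` maps the weight space for `w` to the weight space for `act g w`. -/
theorem act_mem_wt {Q : Subgroup G} {w : G → F} {f : G → F} (hf : f ∈ wt Q w) {g : G}
    (hg : ∀ x ∈ Q, g⁻¹ * x * g ∈ Q) : act F g f ∈ wt Q (act F g w) := by
  intro q hq
  have h1 := hf (g⁻¹ * q * g) (hg q hq)
  rw [act_apply, ← map_smul, ← h1, ← act_mul_apply, ← act_mul_apply]
  congr 2
  group

/-- common eigenvectors with different weights are linearly independent. -/
theorem linearIndependent_of_wt {κ : Type*} {A : Subgroup G} {v : κ → (G → F)} {χ : κ → (G → F)}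
    (hv : ∀ i, v i ∈ wt A (χ i)) (h0 : ∀ i, v i ≠ 0)
    (hχ : ∀ i j, i ≠ j → ∃ a ∈ A, χ i a ≠ χ j a) : LinearIndependent F v := by
  classical
  rw [linearIndependent_iff']
  intro s
  induction s using Finset.induction_on with
  | empty => intro c _ i hi; simp at hi
  | insert j s hj ih =>
    intro c hc
    have h1 : ∀ i ∈ s, c i = 0 := by
      intro i hi
      obtain ⟨a, ha, hne⟩ := hχ i j (by rintro rfl; exact hj hi)
      have h2 := congrArg (act F a) hc
      rw [map_zero, map_sum] at h2
      have h3 : ∑ i ∈ insert j s, (c i * χ i a) • v i = 0 := by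
        rw [← h2]
        apply Finset.sum_congr rfl
        intro k _
        rw [map_smul, hv k a ha, smul_smul]
      have h4 : ∑ i ∈ insert j s, (c i * (χ i a - χ j a)) • v i = 0 := by
        have h5 := congrArg (fun t => χ j a • t) hc
        simp only [smul_zero, Finset.smul_sum, smul_smul] at h5
        have h6 : ∑ i ∈ insert j s, (c i * (χ i a - χ j a)) • v i =
            ∑ i ∈ insert j s, (c i * χ i a) • v i - ∑ i ∈ insert j s, (χ j a * c i) • v i := by
          rw [← Finset.sum_sub_distrib]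
          apply Finset.sum_congr rfl
          intro k _
          module
        rw [h6, h3, h5, sub_zero]
      rw [Finset.sum_insert hj, sub_self, mul_zero, zero_smul, zero_add] at h4
      have h6 := ih _ h4 i hi
      rcases mul_eq_zero.1 h6 with h | h
      · exact h
      · exact absurd (sub_eq_zero.1 h) hne
    intro i hi
    rw [Finset.mem_insert] at hi
    rcases hi with rfl | hi
    · rw [Finset.sum_insert hj, Finset.sum_eq_zero (fun k hk => by rw [h1 k hk, zero_smul]),
        add_zero] at hc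
      exact (smul_eq_zero.1 hc).resolve_right (h0 i)
    · exact h1 i hi

/-- **Simultaneous eigenspace decomposition.** -/
theorem le_of_wt_le [IsAlgClosed F] [Finite G] (A : Subgroup G)
    (hA : ∀ x ∈ A, ∀ y ∈ A, x * y = y * x) (hF : (Nat.card A : F) ≠ 0)
    (U : Submodule F (G → F)) (hU : ∀ a ∈ A, ∀ f ∈ U, act F a f ∈ U) (T : Submodule F (G → F))
    (hT : ∀ χ : G → F, (∀ x, x ∉ A → χ x = 0) → U ⊓ wt A χ ≤ T) : U ≤ T := by
  classical
  let f : A → Module.End F U := fun a => (act F (a : G)).restrict (hU a a.2)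
  have hfapp : ∀ (a : A) (u : U), ((f a u : U) : G → F) = act F (a : G) (u : G → F) :=
    fun a u => rfl
  have hcomm : Pairwise fun i j => Commute (f i) (f j) := by
    intro a b _
    ext u : 1
    apply Subtype.ext
    simp only [Module.End.mul_apply, hfapp]
    rw [← act_mul_apply, ← act_mul_apply, hA a a.2 b b.2]
  have hss : ∀ a, (f a).IsSemisimple := by
    intro a
    have hsq : Squarefree (Polynomial.X ^ (Nat.card A) - 1 : Polynomial F) :=
      (Polynomial.X_pow_sub_one_separable_iff.2 hF).squarefree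
    refine Module.End.isSemisimple_of_squarefree_aeval_eq_zero hsq ?_
    have hpow : (f a) ^ (Nat.card A) = 1 := by
      have hk : ∀ (n : ℕ) (u : U), (((f a) ^ n) u : G → F) = act F ((a : G) ^ n) (u : G → F) := by
        intro n
        induction n with
        | zero => intro u; simp
        | succ n ih =>
          intro u
          rw [pow_succ', pow_succ', Module.End.mul_apply, hfapp, ih, act_mul_apply]
      ext u : 1
      apply Subtype.ext
      rw [hk]
      have : (a : G) ^ Nat.card A = 1 := by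
        have := pow_card_eq_one' (x := a)
        exact_mod_cast congrArg Subtype.val this
      rw [this, act_one]
      rfl
    simp [hpow]
  have htop := Module.End.iSup_iInf_maxGenEigenspace_eq_top_of_iSup_maxGenEigenspace_eq_top_of_commute
    f hcomm (fun a => Module.End.iSup_maxGenEigenspace_eq_top (f a))
  have hU' : U = (⨆ χ : A → F, ⨅ a, (f a).maxGenEigenspace (χ a)).map U.subtype := by
    rw [htop, Submodule.map_top, Submodule.range_subtype]
  rw [hU', Submodule.map_iSup, iSup_le_iff]
  intro χ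
  refine le_trans ?_ (hT (fun x => if h : x ∈ A then χ ⟨x, h⟩ else 0) (fun x hx => by simp [hx]))
  rintro _ ⟨u, hu, rfl⟩
  refine ⟨u.2, ?_⟩
  intro a ha
  have h1 : u ∈ (f ⟨a, ha⟩).eigenspace (χ ⟨a, ha⟩) := by
    rw [← (Module.End.isFinitelySemisimple_iff_isSemisimple.mpr
      (hss ⟨a, ha⟩)).maxGenEigenspace_eq_eigenspace]
    exact (Submodule.mem_iInf _).1 hu ⟨a, ha⟩
  rw [Module.End.mem_eigenspace_iff] at h1
  have h2 := congrArg Subtype.val h1
  simp only [ha, dif_pos]
  exact h2

/-- a nonzero invariant subspace contains a common eigenvector. -/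
theorem exists_wt_mem [IsAlgClosed F] [Finite G] (A : Subgroup G)
    (hA : ∀ x ∈ A, ∀ y ∈ A, x * y = y * x) (hF : (Nat.card A : F) ≠ 0)
    (U : Submodule F (G → F)) (hU : ∀ a ∈ A, ∀ f ∈ U, act F a f ∈ U) (h0 : U ≠ ⊥) :
    ∃ χ : G → F, (∀ x, x ∉ A → χ x = 0) ∧ ∃ f ∈ U, f ∈ wt A χ ∧ f ≠ 0 := by
  by_contra hcon
  push Not at hcon
  apply h0
  rw [eq_bot_iff]
  refine le_of_wt_le A hA hF U hU ⊥ ?_
  rintro χ hχ f ⟨hf, hf'⟩
  exact hcon χ hχ f hf hf'

/-- an invariant subspace of dimension `≥ k` contains `k` independent common eigenvectors. -/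
theorem exists_linearIndependent_wt [IsAlgClosed F] [Finite G] (A : Subgroup G)
    (hA : ∀ x ∈ A, ∀ y ∈ A, x * y = y * x) (hF : (Nat.card A : F) ≠ 0)
    (U : Submodule F (G → F)) (hU : ∀ a ∈ A, ∀ f ∈ U, act F a f ∈ U) {k : ℕ}
    (hk : k ≤ finrank F U) :
    ∃ (u : Fin k → (G → F)) (χ : Fin k → (G → F)), LinearIndependent F u ∧
      (∀ i, u i ∈ U) ∧ (∀ i, u i ∈ wt A (χ i)) := by
  classical
  let E : Set (G → F) := {f | f ∈ U ∧ ∃ χ, f ∈ wt A χ}
  have hspan : span F E = U := by
    apply le_antisymm
    · rw [Submodule.span_le]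
      intro f hf
      exact hf.1
    · refine le_of_wt_le A hA hF U hU _ ?_
      rintro χ _ f ⟨hf, hf'⟩
      exact Submodule.subset_span ⟨hf, χ, hf'⟩
  obtain ⟨B, hBE, hBspan, hB⟩ := exists_linearIndependent F E
  have hBfin : Finite B := hB.finite
  have hBf : Fintype B := Fintype.ofFinite B
  have hcard : finrank F U = Fintype.card B := by
    rw [← hspan, ← hBspan]
    have := finrank_span_eq_card hB
    rwa [Subtype.range_coe] at this
  rw [hcard] at hk
  obtain ⟨e⟩ : Nonempty (Fin k ↪ B) := by
    rw [Function.Embedding.nonempty_iff_card_le]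
    simpa using hk
  choose χ hχ using fun b : B => (hBE b.2).2
  exact ⟨fun i => (e i : G → F), fun i => χ (e i), hB.comp _ e.injective,
    fun i => (hBE (e i).2).1, fun i => hχ (e i)⟩

end MP78a5
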