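import Pool.Agent.Lib_MP_78a5c6.Weights2

/-!
# MP_78a5c6_al, chapter (B): fixed points and kernels of weights
-/

namespace MP78a5

open Module Submodule

variable {G : Type*} [Group G] {F : Type*} [Field F]

/-- value of an additive function on a sum in a model of `P`. -/
theorem V_sum {P : Subgroup G} {E : Type*} [AddCommGroup E] (i : E → G)
    (hi : ∀ a b, i (a + b) = i a * i b) (hr : ∀ x, x ∈ P ↔ ∃ a, i a = x) {f : G → F}
    (hf : f ∈ V F P) {κ : Type*} (s : Finset κ) (g : κ → E) :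
    f (i (∑ k ∈ s, g k)) = ∑ k ∈ s, f (i (g k)) := by
  classical
  have h0 : i 0 = 1 := by
    have := hi 0 0
    rw [add_zero] at this
    exact (mul_eq_left.1 this.symm)
  have hmem : ∀ a, i a ∈ P := fun a => (hr _).2 ⟨a, rfl⟩
  induction s using Finset.induction_on with
  | empty => simp [h0, V_one hf]
  | insert k s hk ih =>
    rw [Finset.sum_insert hk, Finset.sum_insert hk, hi, hf.2 _ (hmem _) _ (hmem _), ih]

/-- The averaging argument: if `f ∈ V F P` is fixed by `A` (a finite group normalising `P`, of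
order prime to the characteristic) and vanishes on `C_P(A)` then `f = 0`. -/
theorem eq_zero_of_fixed {p : ℕ} [Fact p.Prime] [CharP F p] (P A : Subgroup G) [Finite A]
    (hc : ∀ x ∈ P, ∀ y ∈ P, x * y = y * x) (hp : ∀ x ∈ P, x ^ p = 1)
    (hF : (Nat.card A : F) ≠ 0) (hn : ∀ a ∈ A, ∀ x ∈ P, a * x * a⁻¹ ∈ P) {f : G → F}
    (hf : f ∈ V F P) (hfix : ∀ a ∈ A, act F a f = f)
    (h0 : ∀ x ∈ P, (∀ a ∈ A, a * x = x * a) → f x = 0) : f = 0 := by
  classical
  obtain ⟨E, _, i, hi, hinj, hr, -, -, -⟩ := exists_model (p := p) P hc hp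
  have hfin : Fintype A := Fintype.ofFinite A
  ext x
  by_cases hx : x ∈ P
  swap
  · exact hf.1 x hx
  have hg : ∀ a : A, ∃ t : E, i t = (a : G) * x * (a : G)⁻¹ :=
    fun a => (hr _).1 (hn a a.2 x hx)
  choose g hg using hg
  have hmem : ∀ t, i t ∈ P := fun t => (hr _).2 ⟨t, rfl⟩
  -- conjugation on the model
  have hconj : ∀ a : A, ∀ (s : Finset A), (a : G) * i (∑ b ∈ s, g b) * (a : G)⁻¹ =
      i (∑ b ∈ s, g (a * b)) := by
    intro a s
    have h00 : i 0 = 1 := by
      have := hi 0 0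
      rw [add_zero] at this
      exact (mul_eq_left.1 this.symm)
    induction s using Finset.induction_on with
    | empty => simp [h00]
    | insert b s hb ih =>
      rw [Finset.sum_insert hb, Finset.sum_insert hb, hi, hi, ← ih, hg, hg]
      push_cast
      group
  have hz : f (i (∑ b : A, g b)) = 0 := by
    refine h0 _ (hmem _) ?_
    intro a ha
    have h1 := hconj ⟨a, ha⟩ Finset.univ
    have h2 : ∑ b : A, g (⟨a, ha⟩ * b) = ∑ b : A, g b :=
      Fintype.sum_equiv (Equiv.mulLeft (⟨a, ha⟩ : A)) _ _ (fun b => rfl)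
    rw [h2] at h1
    have h3 : a * i (∑ b : A, g b) * a⁻¹ = i (∑ b : A, g b) := h1
    rw [mul_inv_eq_iff_eq_mul] at h3
    exact h3
  rw [V_sum i hi hr hf] at hz
  have h4 : ∀ b : A, f (i (g b)) = f x := by
    intro b
    rw [hg]
    have := congrFun (hfix (b : G)⁻¹ (A.inv_mem b.2)) x
    rw [act_apply, inv_inv] at this
    exact this
  rw [Finset.sum_congr rfl (fun b _ => h4 b), Finset.sum_const, nsmul_eq_mul, Finset.card_univ,
    ← Nat.card_eq_fintype_card] at hz
  exact (mul_eq_zero.1 hz).resolve_left hF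

/-- independent `A`-fixed vectors of `V F P` give a lower bound for the rank of `C_P(A)`. -/
theorem le_rank_centralizer {p : ℕ} [Fact p.Prime] [CharP F p] [Finite G] (P A : Subgroup G)
    (hc : ∀ x ∈ P, ∀ y ∈ P, x * y = y * x) (hp : ∀ x ∈ P, x ^ p = 1)
    (hF : (Nat.card A : F) ≠ 0) (hn : ∀ a ∈ A, ∀ x ∈ P, a * x * a⁻¹ ∈ P) {k : ℕ}
    (u : Fin k → (G → F)) (hu : LinearIndependent F u) (huV : ∀ i, u i ∈ V F P)
    (hfix : ∀ i, ∀ a ∈ A, act F a (u i) = u i) (C : Subgroup G)
    (hC : ∀ x, x ∈ C ↔ x ∈ P ∧ ∀ a ∈ A, a * x = x * a) {n : ℕ} (hn' : Nat.card C = p ^ n) :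
    k ≤ n := by
  classical
  have hCP : C ≤ P := fun x hx => ((hC x).1 hx).1
  have hdim : finrank F (V F C) = n := finrank_V (p := p) C
    (fun x hx y hy => hc x (hCP hx) y (hCP hy)) (fun x hx => hp x (hCP hx)) hn'
  -- restriction to `C`
  let R : (G → F) →ₗ[F] (G → F) :=
    { toFun := fun f x => if x ∈ C then f x else 0
      map_add' := by
        intro f g
        ext x
        by_cases hx : x ∈ C <;> simp [hx]
      map_smul' := by
        intro c f
        ext x
        by_cases hx : x ∈ C <;> simp [hx] }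
  have hR : ∀ f ∈ V F P, R f ∈ V F C := by
    intro f hf
    refine ⟨fun x hx => by simp [R, hx], fun x hx y hy => ?_⟩
    simp only [R, LinearMap.coe_mk, AddHom.coe_mk, hx, hy, C.mul_mem hx hy, if_true]
    exact hf.2 x (hCP hx) y (hCP hy)
  have hli : LinearIndependent F (fun i => R (u i)) := by
    rw [Fintype.linearIndependent_iff] at hu ⊢
    intro c hc0 i
    refine hu c ?_ i
    refine eq_zero_of_fixed (p := p) P A hc hp hF hn
      (Submodule.sum_mem _ (fun j _ => Submodule.smul_mem _ _ (huV j))) ?_ ?_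
    · intro a ha
      rw [map_sum]
      exact Finset.sum_congr rfl (fun j _ => by rw [map_smul, hfix j a ha])
    · intro x hx hxa
      have hxC : x ∈ C := (hC x).2 ⟨hx, hxa⟩
      have h1 := congrFun hc0 x
      simpa [R, hxC] using h1
  have h1 : LinearIndependent F (fun i => (⟨R (u i), hR _ (huV i)⟩ : V F C)) := by
    rw [← LinearMap.linearIndependent_iff (V F C).subtype (Submodule.ker_subtype _)]
    exact hli
  have h2 := h1.fintype_card_le_finrank
  rw [hdim, Fintype.card_fin] at h2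
  exact h2

/-- the kernel of a weight on a subgroup. -/
def ker1 (Y : Subgroup G) (χ : G → F) (h1 : χ 1 = 1)
    (hm : ∀ a ∈ Y, ∀ b ∈ Y, χ (a * b) = χ a * χ b) : Subgroup G where
  carrier := {y | y ∈ Y ∧ χ y = 1}
  one_mem' := ⟨Y.one_mem, h1⟩
  mul_mem' := by
    rintro a b ⟨ha, ha'⟩ ⟨hb, hb'⟩
    exact ⟨Y.mul_mem ha hb, by rw [hm a ha b hb, ha', hb', one_mul]⟩
  inv_mem' := by
    rintro a ⟨ha, ha'⟩
    refine ⟨Y.inv_mem ha, ?_⟩
    have h2 := hm a ha a⁻¹ (Y.inv_mem ha)
    rw [mul_inv_cancel, h1, ha', one_mul] at h2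
    exact h2.symm

theorem mem_ker1 {Y : Subgroup G} {χ : G → F} {h1 : χ 1 = 1}
    {hm : ∀ a ∈ Y, ∀ b ∈ Y, χ (a * b) = χ a * χ b} {y : G} :
    y ∈ ker1 Y χ h1 hm ↔ y ∈ Y ∧ χ y = 1 := Iff.rfl

/-- the kernel of a weight of a group of prime exponent `q` has index at most `q`. -/
theorem card_le_mul_card_ker1 (Y : Subgroup G) [Finite Y] (χ : G → F) (h1 : χ 1 = 1)
    (hm : ∀ a ∈ Y, ∀ b ∈ Y, χ (a * b) = χ a * χ b) {q : ℕ} (hq : 0 < q)
    (hY : ∀ y ∈ Y, y ^ q = 1) : Nat.card Y ≤ q * Nat.card (ker1 Y χ h1 hm) := by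
  classical
  have hne : ∀ a ∈ Y, χ a ≠ 0 := by
    intro a ha h
    have h2 := hm a ha a⁻¹ (Y.inv_mem ha)
    rw [mul_inv_cancel, h1, h, zero_mul] at h2
    exact one_ne_zero h2
  let ψ : Y →* Fˣ :=
    { toFun := fun y => Units.mk0 (χ y) (hne y y.2)
      map_one' := by ext; simp [h1]
      map_mul' := fun a b => by ext; simp [hm a a.2 b b.2] }
  have hker : Nat.card ψ.ker = Nat.card (ker1 Y χ h1 hm) := by
    refine Nat.card_congr ⟨fun x => ⟨(x : Y), (x : Y).2, ?_⟩, fun y => ⟨⟨y, y.2.1⟩, ?_⟩, ?_, ?_⟩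
    · have := MonoidHom.mem_ker.1 x.2
      have := congrArg Units.val this
      simpa [ψ] using this
    · rw [MonoidHom.mem_ker]
      ext
      simpa [ψ] using y.2.2
    · intro x
      rfl
    · intro y
      rfl
  have hrange : Nat.card ψ.range ≤ q := by
    have : NeZero q := ⟨hq.ne'⟩
    have h2 : ψ.range ≤ rootsOfUnity q F := by
      rintro _ ⟨y, rfl⟩
      rw [mem_rootsOfUnity, ← map_pow]
      have : y ^ q = 1 := Subtype.ext (by simpa using hY y y.2)
      rw [this, map_one]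
    have h3 : Nat.card ψ.range ≤ Nat.card (rootsOfUnity q F) :=
      Nat.card_le_card_of_injective (Subgroup.inclusion h2) (Subgroup.inclusion_injective h2)
    exact h3.trans (card_rootsOfUnity F q)
  have h5 : Nat.card Y = Nat.card ψ.range * Nat.card ψ.ker := by
    rw [Subgroup.card_eq_card_quotient_mul_card_subgroup ψ.ker,
      Nat.card_congr (QuotientGroup.quotientKerEquivRange ψ).toEquiv]
  rw [h5, hker]
  exact Nat.mul_le_mul_right _ hrange

end MP78a5
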